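import Pool.Agent.Work.MP_8e3fb2_ag.VT.Defs

set_option autoImplicit false

/-!
# Towers of algebraic functions: statements of the items

All items are independent of each other: item `Foo` is the theorem `prf_Foo (h1 : St..) .. : StFoo`
whose hypotheses are exactly the statements named in the docstring. The docstring contains the
proof.
-/

namespace Pool.Agent.Sextic

open IntermediateField

noncomputable section

/-- ITEM Ext: `theorem prf_Ext : StExt`. `LocalSubring.exists_le_valuationSubring` applied to the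
image of `A` (`ValuationSubring.toLocalSubring`, `LocalSubring.map`); the pullback of the valuation
ring which is found dominates `A`, and `A` is maximal for domination
(`ValuationSubring.isMax_toLocalSubring`). -/
def StExt : Prop := ∀ (N Ω : Type) [Field N] [Field Ω] [Algebra N Ω] (A : ValuationSubring N),
  ∃ V : ValuationSubring Ω, V.comap (algebraMap N Ω) = A

/-- ITEM Res: `theorem prf_Res : StRes`. Let `y ∈ V`, `y ≠ 0`, be a root of a nonzero polynomial over
`N`; divide by a coefficient of maximal valuation: `∑ b_i y ^ i = 0` with all `b_i` in `V` (images of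
elements of the pullback) and one `b_i = 1`. Replace each `b_i` by the constant `c_i` with
`b_i - c_i ∈ nonunits` (one `c_i` is `1`): `g(y) ∈ V.nonunits` for the nonzero complex polynomial
`g = ∑ c_i X ^ i`. `g` is not constant (a nonzero constant is a unit); factor it
(`IsAlgClosed.splits`): `∏ (y - r_j) ∈ nonunits`, so one factor is in `nonunits`. -/
def StRes : Prop := ∀ (N Ω : Type) [Field N] [Field Ω] [Algebra ℂ N] [Algebra N Ω] [Algebra ℂ Ω]
  [IsScalarTower ℂ N Ω] [Algebra.IsAlgebraic N Ω] (V : ValuationSubring Ω),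
  ResC (V.comap (algebraMap N Ω)) → ResC V

/-- ITEM Conj: `theorem prf_Conj : StConj`. Let `A` be the common pullback and `B` the integral
closure of `A` in `Ω` (`integralClosure A Ω`). (1) `G = Ω ≃ₐ[N] Ω` acts on `B`, and
`Algebra.IsInvariant A B G` (an invariant element is in `N` because `Ω / N` is Galois, and integral
over the integrally closed ring `A`), so `Algebra.IsInvariant.exists_smul_of_under_eq_of_profinite`
(discrete topology on `B`; the action is continuous) gives `τ` which sends the prime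
`P = B ∩ V.nonunits` to `Q = B ∩ W.nonunits` (both lie over the maximal ideal of `A`). (2) `V` is
determined by `P`: `x ∈ V ↔ ∃ y z ∈ B, z ∉ P, x = y / z`. Proof of (2): `B ⊆ V` gives one direction.
Let `x ∈ V`, `∑ a_i x ^ i = 0` a nonzero relation over `N`; divide by the last coefficient of maximal
valuation: `∑ b_i x ^ i = 0`, `b_i ∈ A`, `b_j = 1`, `b_i` in the maximal ideal for `i > j`. Put
`u = 1 + b_(j+1) x + ... + b_m x ^ (m - j)` and `w = b_(j-1) + b_(j-2) x⁻¹ + ... + b_0 x^(-(j-1))`: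
`u x + w = 0`. Every valuation ring of `Ω` which contains `A` contains `u` and `w` (if it contains
`x` then it contains `u` and `w = - u x`, if it contains `x⁻¹` then it contains `w` and
`u = - w x⁻¹`), so `u, w ∈ B` (`Subring.eq_iInf_of_isIntegrallyClosedIn` or
`iInf_valuationSubring_superset`); `u - 1 ∈ V.nonunits`, so `u ∉ P` and `x = - w / u`. -/
def StConj : Prop := ∀ (N Ω : Type) [Field N] [Field Ω] [Algebra N Ω] [IsGalois N Ω]
  (V W : ValuationSubring Ω), V.comap (algebraMap N Ω) = W.comap (algebraMap N Ω) →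
  ∃ τ : Ω ≃ₐ[N] Ω, ∀ x, x ∈ V ↔ τ x ∈ W

/-- ITEM Mon: `theorem prf_Mon : StMon`. Take any monomial order (for instance
`MonomialOrder.lex`, variables `Fin n`) with leading exponent `deg` (`MonomialOrder.degree`) and let
`A` be the set of the fractions `f / g`, `g ≠ 0`, with `f = 0` or `deg f ≼ deg g`
(`MonomialOrder.degree_mul`; well defined: `f / g = f' / g'` means `f g' = f' g`). It is a valuation
ring containing `ℂ`; if `deg f = deg g` then `f / g - c` with `c` the quotient of the leading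
coefficients is `(f - c g) / g` with `deg (f - c g) ≺ deg g` (or it is `0`), a nonunit; if
`deg f ≺ deg g` take `c = 0`. A map `φ` which multiplies the variables by nonzero constants does not
change `deg`. (Alternatively: the lexicographic valuation of `HahnSeries`.) -/
def StMon : Prop := ∀ n : ℕ, ∃ A : ValuationSubring (RF n), ResC A ∧
  ∀ (c : Fin n → ℂ), (∀ i, c i ≠ 0) → ∀ φ : RF n →ₐ[ℂ] RF n, (∀ i, φ (xv n i) = c i • xv n i) →
    ∀ x, x ∈ A ↔ φ x ∈ A

/-- ITEM Inv: `theorem prf_Inv (h : StMon) : StInv`. Write `i : Fin n` as `p b + j` with `j < p`.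
`hh v` (`v : Fin (n / p) → ZMod p`) sends `p b + j` to `p b + (j + v b mod p)` for `b < n / p` and
fixes the `i ≥ p (n / p)`. Let `ζ` be a primitive `p`-th root of unity and `θ` the algebra
homomorphism of the polynomial ring with `θ (x_(p b + j)) = ∑_(l < p) ζ ^ (l j) z_(p b + l)`,
`θ (x_i) = z_i` for `i ≥ p (n / p)`; it has the left inverse `z_(p b + l) ↦ p⁻¹ ∑_j ζ ^ (-l j)
x_(p b + j)`, so it is injective and extends to the fraction field. `θ ∘ (x_i ↦ x_(hh v i)) =
(z_(p b + l) ↦ ζ ^ (l v b) z_(p b + l)) ∘ θ`. The required ring is the pullback of the ring of StMon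
along `θ`. -/
def StInv : Prop := ∀ (n p : ℕ) [Fact p.Prime],
  ∃ (hh : Multiplicative (Fin (n / p) → ZMod p) →* Equiv.Perm (Fin n))
    (A : ValuationSubring (RF n)), Function.Injective hh ∧ ResC A ∧
    ∀ (v : Multiplicative (Fin (n / p) → ZMod p)) (φ : RF n →ₐ[ℂ] RF n),
      (∀ i, φ (xv n i) = xv n (hh v i)) → ∀ x, x ∈ A ↔ φ x ∈ A

/-- ITEM Emb: `theorem prf_Emb : StEmb`. Let `N` be the fraction field of `ℂ[x_1, ..., x_n]`. The map
`a_(i+1) ↦ (-1)^(i+1) e_(i+1)(x)` (elementary symmetric polynomials) of polynomial rings is injective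
(`MvPolynomial.esymmAlgHom_injective` or similar, up to the signs, a rescaling of the variables) and
gives an embedding of `K0 n` in `N` which sends `gen n` to `∏ (z - x_i)` (Vieta,
`Multiset.prod_X_sub_X_eq_sum_esymm` or `MvPolynomial.prod_C_add_X_eq_sum_esymm`); `N` is generated
by the roots `x_i`, so it is algebraic over `K0 n` and embeds over `K0 n` in `Om n`
(`IsAlgClosed.lift`): this is `j`. For `π` let `φ` be the automorphism of `N` which permutes the
variables; it is the identity on `K0 n` (symmetric polynomials), so `j x ↦ j (φ x)` is an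
automorphism of the subfield `j N` over `K0 n` and extends to `Om n` (`AlgEquiv.liftNormal` or
`IsAlgClosed.lift`, `Algebra.IsAlgebraic.algEquivEquivAlgHom`). -/
def StEmb : Prop := ∀ n : ℕ, ∃ j : RF n →ₐ[ℂ] Om n,
  (∀ y : Om n, Polynomial.aeval y (gen n) = 0 ↔ ∃ i, y = j (xv n i)) ∧
  (∀ a : K0 n, ∃ c, j c = algebraMap (K0 n) (Om n) a) ∧
  ∀ π : Equiv.Perm (Fin n), ∃ (φ : RF n →ₐ[ℂ] RF n) (σ : Om n ≃ₐ[K0 n] Om n),
    (∀ i, φ (xv n i) = xv n (π i)) ∧ ∀ x, σ (j x) = j (φ x)

/-- ITEM Rank: `theorem prf_Rank : StRank` (`Γ_E / p Γ_E` is generated by `d` elements). Call a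
family `y : Fin m → Ω` of nonzero elements of `E` independent if `V.valuation (∏ y_i ^ (m_i)) = 1`
with integers `m_i` implies that all `m_i` are divisible by `p`. (1) An independent family has at
most `d` elements: it is algebraically independent over `ℂ`. Otherwise a nonzero complex polynomial
vanishes at `y`; two different monomials of it have the same valuation (the valuation of a sum of
elements with different valuations is the maximum; nonzero constants have valuation `1`), so
`V.valuation (∏ y_i ^ (m_i)) = 1` for integers `m_i`, not all zero; the value group is torsion free,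
so one can divide all `m_i` by `p` as long as all of them are divisible by `p`: contradiction. Then
`AlgebraicIndependent.cardinalMk_le_trdeg` (in `E`). (2) Take an independent family with the maximal
number `m ≤ d` of elements and fill it up with ones. For `x ∈ E`, `x ≠ 0`, the family `(x, y)` is not
independent: `V.valuation (x ^ k * ∏ y_i ^ (m_i)) = 1` with not all of `k, m_i` divisible by `p`, so
`k` is prime to `p`, `k k' + p l = 1`, and `x = (x ^ k) ^ k' * (x ^ l) ^ p`. -/
def StRank : Prop := ∀ (Ω : Type) [Field Ω] [Algebra ℂ Ω] (V : ValuationSubring Ω), ResC V →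
  ∀ (E : IntermediateField ℂ Ω) (d p : ℕ), p.Prime → Algebra.trdeg ℂ E ≤ d →
  ∃ y : Fin d → Ω, (∀ i, y i ∈ E ∧ y i ≠ 0) ∧ ∀ x ∈ E, x ≠ 0 →
    ∃ (m : Fin d → ℤ) (w u : Ω), w ∈ E ∧ u ∈ E ∧ V.valuation u = 1 ∧
      x = u * w ^ p * ∏ i, y i ^ m i

/-- ITEM Chi: `theorem prf_Chi : StChi`. `k ≤ Ω` is algebraic, `D` is the group of the automorphisms
`σ` over `k` with `σ V = V`. Every orbit of `σ` is finite (roots of a minimal polynomial). (1)
`V.valuation (σ y) = V.valuation y`: otherwise `σ y / y` or its inverse is in `nonunits`, then also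
`σ ^ (i + 1) y / σ ^ i y` for all `i`, and the product over `i < m`, where `σ ^ m y = y`, is `1`:
contradiction. (2) So for `y ≠ 0` there is a unique `c = χ σ y ∈ ℂ` with `σ y / y - c ∈ nonunits`,
and `c ≠ 0`. It is multiplicative in `y`, it is `1` for `y` of valuation `1` (`y - c₀ ∈ nonunits`,
so `σ y - c₀ ∈ nonunits` and `σ y - y ∈ nonunits`), hence `χ σ (τ y) = χ σ y` and it is
multiplicative in `σ`: `σ τ y / y = (σ (τ y) / τ y) (τ y / y)`. (3) Let `E` be stable under `σ` and
`χ σ = 1` on `E`. If `w = σ y - y ≠ 0` for some `y ∈ E`, then `w ∈ E`, all `σ ^ i w / w - 1` are in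
`nonunits`, and `∑_(i < m) σ ^ i w = σ ^ m y - y = 0` for some `m ≥ 1`; dividing by `w` the integer
`m` is in `nonunits`: contradiction (`m` is a nonzero constant). -/
def StChi : Prop := ∀ (k Ω : Type) [Field k] [Field Ω] [Algebra ℂ k] [Algebra k Ω] [Algebra ℂ Ω]
  [IsScalarTower ℂ k Ω] [Algebra.IsAlgebraic k Ω] (V : ValuationSubring Ω), ResC V →
  ∀ D : Subgroup (Ω ≃ₐ[k] Ω), (∀ σ ∈ D, ∀ x, x ∈ V ↔ σ x ∈ V) →
  ∃ χ : D →* (Ωˣ →* ℂˣ),
    (∀ (σ : D) (y : Ωˣ), σ.1 (y : Ω) / (y : Ω) - algebraMap ℂ Ω (χ σ y : ℂ) ∈ V.nonunits) ∧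
    (∀ (σ : D) (y : Ωˣ), V.valuation (y : Ω) = 1 → χ σ y = 1) ∧
    ∀ (σ : D) (E : IntermediateField ℂ Ω), (∀ x ∈ E, σ.1 x ∈ E) →
      (∀ y : Ωˣ, (y : Ω) ∈ E → χ σ y = 1) → ∀ x ∈ E, σ.1 x = x

/-- ITEM Step: `theorem prf_Step (h1 : StRank) (h2 : StChi) : StStep`. Let `Q` be the image of
`B → (Eˣ →* ℂˣ)`, `b ↦ (χ b restricted to E)` (take for instance the homomorphism to
`(Ωˣ →* ℂˣ)` composed with the restriction to the subgroup of the `y : Ωˣ` with `y ∈ E`); it is a
finite commutative group because the kernel is exactly `B'` (if `σ y = y` then `χ σ y = 1` by the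
first property of `χ`). An element
`q ∈ Q` with `q ^ p = 1` is determined by the `d` numbers `q (y_i)`, `p`-th roots of unity, `y` from
StRank (`q (u) = 1`, `q (w) ^ p = 1`), so there are at most `p ^ d` such `q`, and the subgroup
`Q ^ p` of the `p`-th powers has index at most `p ^ d` in `Q` (kernel and image of
`powMonoidHom p`). Let `T ≤ B` be the preimage of `Q ^ p`: `[B : T] ≤ p ^ d`, and for `t ∈ T` there
is `b ∈ B` with `χ t = χ b ^ p` on `E`, so `t b ^ (-p) ∈ B'` and `ρ t = ρ (t b ^ (-p))` is in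
`ρ B'`. So `ρ B` is the union of at most `p ^ d` cosets of `ρ B'`. -/
def StStep : Prop := ∀ (k Ω : Type) [Field k] [Field Ω] [Algebra ℂ k] [Algebra k Ω]
  [Algebra ℂ Ω] [IsScalarTower ℂ k Ω] [Algebra.IsAlgebraic k Ω] (V : ValuationSubring Ω), ResC V →
  ∀ (E : IntermediateField ℂ Ω) (d p : ℕ), p.Prime → Algebra.trdeg ℂ E ≤ d →
  ∀ (B B' : Subgroup (Ω ≃ₐ[k] Ω)), (∀ σ ∈ B, ∀ x, x ∈ V ↔ σ x ∈ V) →
  (∀ σ ∈ B, ∀ x ∈ E, σ x ∈ E) → (∀ σ, σ ∈ B' ↔ σ ∈ B ∧ ∀ x ∈ E, σ x = x) →
  B'.relIndex B ≠ 0 → ∀ (P : Type) [Group P] [Finite P] (ρ : (Ω ≃ₐ[k] Ω) →* P),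
  (∀ σ ∈ B, ρ σ ^ p = 1) → Nat.card (B.map ρ) ≤ p ^ d * Nat.card (B'.map ρ)

/-- ITEM Chain: `theorem prf_Chain : StChain`. By induction every `P i` is `⊤`, the alternating group
or `⊥`: a normal subgroup of `⊤ = S_n` is one of these and a normal subgroup of the alternating group
is the alternating group or trivial (`alternatingGroup.isSimpleGroup`, and for instance
`Equiv.Perm.alternatingGroup_le_of_normal` or: the intersection with the alternating group is
trivial or everything; if trivial, the subgroup has order at most `2` and is central, and the centre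
of `S_n` is trivial). Neither `⊤` nor the alternating group fixes a point. -/
def StChain : Prop := ∀ (n r : ℕ), 5 ≤ n → ∀ P : ℕ → Subgroup (Equiv.Perm (Fin n)), P 0 = ⊤ →
  (∀ i < r, P (i + 1) ≤ P i ∧ ∀ g ∈ P i, ∀ h ∈ P (i + 1), g * h * g⁻¹ ∈ P (i + 1)) →
  (∃ a : Fin n, ∀ σ ∈ P r, σ a = a) → P r = ⊥

/-- ITEM NC: `theorem prf_NC : StNC`. Let `F`, `E₀` be given by `EdLE`, `L' = nc K L` and
`E = {y ∈ L' | y algebraic over F}` (`algebraicClosure F Ω`). `E` is algebraic over `F`, so
`trdeg E ≤ trdeg F` (`Algebra.trdeg_add_eq`). An automorphism over `K` maps `L'` to `L'` and `F`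
identically, so it maps `E` to `E`. `E₀ ≤ E` and `σ E₀ ≤ E` for `σ` over `K`, `σ L = K σ E₀`, so
`L' = K ⊔ E`; hence `σ` over `K` fixes `E` pointwise if and only if it fixes `L'` pointwise. `L' / K`
is a finite Galois extension (`L / K` is finite as `relfinrank K L ≠ 0`, the compositum of finitely
many conjugates; every automorphism over `K` is an automorphism over `k`, as the image of `k` is in
`K`), so the index is `[L' : K]` (`IntermediateField.finrank_eq_fixingSubgroup_index` over `K`, or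
`relfinrank` and indices over `k`). -/
def StNC : Prop := ∀ (k Ω : Type) [Field k] [Field Ω] [Algebra ℂ k] [Algebra k Ω] [Algebra ℂ Ω]
  [IsScalarTower ℂ k Ω] [IsAlgClosure k Ω] (K L : IntermediateField ℂ Ω) (d : ℕ),
  (∀ a : k, algebraMap k Ω a ∈ K) → K ≤ L → EdLE K L d →
  ∃ E : IntermediateField ℂ Ω, Algebra.trdeg ℂ E ≤ d ∧
    (∀ σ : Ω ≃ₐ[k] Ω, (∀ x ∈ K, σ x = x) → (∀ x ∈ E, σ x ∈ E) ∧
      ((∀ x ∈ E, σ x = x) → ∀ x ∈ L, σ x = x)) ∧
    monOrd K L ≠ 0 ∧ ∀ S S' : Subgroup (Ω ≃ₐ[k] Ω), (∀ σ, σ ∈ S ↔ ∀ x ∈ K, σ x = x) →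
      (∀ σ, σ ∈ S' ↔ (∀ x ∈ K, σ x = x) ∧ ∀ x ∈ E, σ x = x) → S'.relIndex S = monOrd K L

/-- ITEM Dec: `theorem prf_Dec (h1 : StExt) (h2 : StRes) (h3 : StConj) (h4 : StInv) (h5 : StEmb) :
StDec`. `j`, `A`, `hh` from StEmb and StInv; let `N = j.fieldRange` (an intermediate field of
`Om n / ℂ`), `A'` the valuation ring of `N` which corresponds to `A`. `Om n` is an algebraic closure
of `N` (the image of `K0 n` is in `N`), so Galois over `N`. `V` extends `A'` (StExt), it has residue
field `ℂ` (StRes). `ρ σ` is the permutation with `σ (j x_i) = j x_(ρ σ i)` (the `j x_i`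
are the different roots of `gen n`). For `v` let `φ`, `σ` be given by StEmb for `π = hh v`; the
pullbacks to `N` of `V` and of `V' = σ⁻¹ V` (`x ∈ V' ↔ σ x ∈ V`) agree: `j x ∈ V' ↔ j (φ x) ∈ V ↔
φ x ∈ A ↔ x ∈ A`. StConj gives `τ` over `N` with `x ∈ V ↔ τ x ∈ V'`, that is `x ∈ V ↔ σ (τ x) ∈ V`,
and `ρ (σ τ) = ρ σ = hh v`; `τ` is an automorphism over `K0 n`. -/
def StDec : Prop := ∀ (n p : ℕ) [Fact p.Prime], ∃ (V : ValuationSubring (Om n))
  (hh : Multiplicative (Fin (n / p) → ZMod p) →* Equiv.Perm (Fin n))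
  (ρ : (Om n ≃ₐ[K0 n] Om n) →* Equiv.Perm (Fin n)) (ξ : Fin n → Om n),
  ResC V ∧ Function.Injective hh ∧ Function.Injective ξ ∧ Function.Surjective ρ ∧
  (∀ y : Om n, Polynomial.aeval y (gen n) = 0 ↔ ∃ i, y = ξ i) ∧ (∀ σ i, σ (ξ i) = ξ (ρ σ i)) ∧
  ∀ v, ∃ σ : Om n ≃ₐ[K0 n] Om n, (∀ x, x ∈ V ↔ σ x ∈ V) ∧ ρ σ = hh v

/-- ITEM Main: `theorem prf_Main (h1 : StStep) (h2 : StChain) (h3 : StNC) (h4 : StDec) : StMain`.
`E i` from StNC for `K i ≤ K (i + 1)` (all `K i` contain `base n`). Subgroups of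
`Om n ≃ₐ[K0 n] Om n`: `G' 0 = ⊤`, `G' (i + 1) = {σ ∈ G' i | σ fixes E i pointwise}`. By induction `G' i`
fixes `K i` pointwise, so `G' (i + 1)` is normal in `G' i` (`E i` is stable under `G' i`), and
`P i = ρ (G' i)` satisfies the hypotheses of StChain (the root in `K r` is some `ξ a`): `P r = ⊥`. Let
`B i = {σ ∈ G' i | σ V = V, ρ σ ∈ range hh}`: `ρ (B 0)` is the range of `hh`, of cardinality
`p ^ (n / p)`, and `ρ (B r) = ⊥`. `B (i + 1)` is normal in `B i` and `B i / B (i + 1)` embeds in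
`S / S'` (of StNC), so its order divides `monOrd (K i) (K (i + 1))`. If `p` divides it, use StStep:
`#(ρ B i) ≤ p ^ (d i) #(ρ B (i + 1))`. If not, `ρ B i = ρ B (i + 1)`: for `b ∈ B i` one has
`b ^ m ∈ B (i + 1)` with `m` prime to `p`, and `ρ b ^ p = 1`, so `ρ b` is a power of `ρ (b ^ m)`. -/
def StMain : Prop := ∀ (n p r : ℕ) (K : ℕ → IntermediateField ℂ (Om n)) (d : ℕ → ℕ), 5 ≤ n →
  p.Prime → Solves n r K d →
  n / p ≤ ∑ i ∈ (Finset.range r).filter (fun i => p ∣ monOrd (K i) (K (i + 1))), d i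

end

end Pool.Agent.Sextic
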