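import Pool.Agent.Work.MP_8e3fb2_ag.VT.Stmts

set_option autoImplicit false

/-!
# The residue characters of a decomposition group (item Chi)
-/

namespace Pool.Agent.Sextic

open IntermediateField

namespace XChi

variable {Ω : Type} [Field Ω] [Algebra ℂ Ω]

theorem val_const (V : ValuationSubring Ω) (hV : ResC V) (c : ℂ) (hc : c ≠ 0) :
    V.valuation (algebraMap ℂ Ω c) = 1 := by
  have h1 : V.valuation (algebraMap ℂ Ω c) ≤ 1 := (V.valuation_le_one_iff _).2 (hV.1 c)
  have h2 : V.valuation (algebraMap ℂ Ω c⁻¹) ≤ 1 := (V.valuation_le_one_iff _).2 (hV.1 c⁻¹)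
  have h3 : V.valuation (algebraMap ℂ Ω c) * V.valuation (algebraMap ℂ Ω c⁻¹) = 1 := by
    rw [← map_mul, ← map_mul, mul_inv_cancel₀ hc, map_one, map_one]
  refine le_antisymm h1 ?_
  calc (1 : V.ValueGroup) = V.valuation (algebraMap ℂ Ω c) * V.valuation (algebraMap ℂ Ω c⁻¹) :=
        h3.symm
    _ ≤ V.valuation (algebraMap ℂ Ω c) * 1 := by gcongr
    _ = _ := mul_one _

/-- the residue of a unit -/
noncomputable def rc (V : ValuationSubring Ω) (u : Ω) : ℂˣ :=
  open Classical in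
  if h : ∃ c : ℂˣ, V.valuation (u - algebraMap ℂ Ω (c : ℂ)) < 1 then h.choose else 1

theorem rc_uniq (V : ValuationSubring Ω) (hV : ResC V) (u : Ω) (c : ℂˣ)
    (hc : V.valuation (u - algebraMap ℂ Ω (c : ℂ)) < 1) : rc V u = c := by
  have h : ∃ c : ℂˣ, V.valuation (u - algebraMap ℂ Ω (c : ℂ)) < 1 := ⟨c, hc⟩
  have h1 : rc V u = h.choose := by
    unfold rc
    rw [dif_pos h]
  rw [h1]
  have h2 := h.choose_spec
  by_contra hne
  have h3 : ((c : ℂ) - (h.choose : ℂ)) ≠ 0 := by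
    intro h0
    exact hne (Units.ext (sub_eq_zero.1 h0).symm)
  have h4 := val_const V hV _ h3
  have h5 : algebraMap ℂ Ω ((c : ℂ) - (h.choose : ℂ)) =
      (u - algebraMap ℂ Ω (h.choose : ℂ)) - (u - algebraMap ℂ Ω (c : ℂ)) := by
    rw [map_sub]; ring
  rw [h5] at h4
  exact absurd h4 (ne_of_lt (lt_of_le_of_lt (V.valuation.map_sub _ _) (max_lt h2 hc)))

theorem rc_spec (V : ValuationSubring Ω) (hV : ResC V) (u : Ω) (hu : V.valuation u = 1) :
    V.valuation (u - algebraMap ℂ Ω (rc V u : ℂ)) < 1 := by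
  have hm : u ∈ V := (V.valuation_le_one_iff _).1 hu.le
  obtain ⟨c, hc⟩ := hV.2 u hm
  rw [V.mem_nonunits_iff] at hc
  have hc0 : c ≠ 0 := by
    rintro rfl
    rw [map_zero, sub_zero, hu] at hc
    exact lt_irrefl _ hc
  have h := rc_uniq V hV u (Units.mk0 c hc0) hc
  rw [h]
  exact hc

theorem rc_mul (V : ValuationSubring Ω) (hV : ResC V) (u w : Ω) (hu : V.valuation u = 1)
    (hw : V.valuation w = 1) : rc V (u * w) = rc V u * rc V w := by
  apply rc_uniq V hV
  have h1 := rc_spec V hV u hu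
  have h2 := rc_spec V hV w hw
  have h3 := val_const V hV (rc V w : ℂ) (Units.ne_zero _)
  have e : u * w - algebraMap ℂ Ω ((rc V u * rc V w : ℂˣ) : ℂ) =
      u * (w - algebraMap ℂ Ω (rc V w : ℂ)) +
        algebraMap ℂ Ω (rc V w : ℂ) * (u - algebraMap ℂ Ω (rc V u : ℂ)) := by
    rw [Units.val_mul, map_mul]; ring
  rw [e]
  refine lt_of_le_of_lt (V.valuation.map_add _ _) (max_lt ?_ ?_)
  · rw [map_mul, hu, one_mul]; exact h2
  · rw [map_mul, h3, one_mul]; exact h1

theorem rc_one (V : ValuationSubring Ω) (hV : ResC V) : rc V (1 : Ω) = 1 := by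
  apply rc_uniq V hV
  simp

section

variable {k Ω : Type} [Field k] [Field Ω] [Algebra k Ω]

theorem orb [Algebra.IsAlgebraic k Ω] (σ : Ω ≃ₐ[k] Ω) (y : Ω) :
    ∃ m : ℕ, 0 < m ∧ (σ ^ m) y = y := by
  have halg : IsAlgebraic k y := Algebra.IsAlgebraic.isAlgebraic y
  have hint : IsIntegral k y := halg.isIntegral
  have hmem : ∀ i : ℕ, (σ ^ i) y ∈ (minpoly k y).rootSet Ω := by
    intro i
    rw [Polynomial.mem_rootSet]
    refine ⟨minpoly.ne_zero hint, ?_⟩
    have h : Polynomial.aeval ((σ ^ i) y) (minpoly k y) =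
        (σ ^ i) (Polynomial.aeval y (minpoly k y)) :=
      Polynomial.aeval_algHom_apply ((σ ^ i : Ω ≃ₐ[k] Ω) : Ω →ₐ[k] Ω) y (minpoly k y)
    rw [h, minpoly.aeval, map_zero]
  have hni : ¬ Function.Injective (fun i : ℕ => (⟨(σ ^ i) y, hmem i⟩ :
      (minpoly k y).rootSet Ω)) := not_injective_infinite_finite _
  rw [Function.Injective] at hni
  push Not at hni
  obtain ⟨i, j, hij, hne⟩ := hni
  have hij' : (σ ^ i) y = (σ ^ j) y := congrArg Subtype.val hij
  rcases lt_or_gt_of_ne hne with h | h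
  · refine ⟨j - i, by omega, ?_⟩
    apply (σ ^ i).injective
    rw [hij', ← AlgEquiv.mul_apply, ← pow_add]
    congr 2
    omega
  · refine ⟨i - j, by omega, ?_⟩
    apply (σ ^ j).injective
    rw [← hij', ← AlgEquiv.mul_apply, ← pow_add]
    congr 2
    omega

theorem nonunit_iff (V : ValuationSubring Ω) (σ : Ω ≃ₐ[k] Ω) (hσ : ∀ x, x ∈ V ↔ σ x ∈ V)
    (x : Ω) : V.valuation (σ x) < 1 ↔ V.valuation x < 1 := by
  have key : ∀ z : Ω, z ≠ 0 → (V.valuation z < 1 ↔ z⁻¹ ∉ V) := by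
    intro z hz
    rw [← V.valuation_le_one_iff, map_inv₀, not_le]
    have hz' : V.valuation z ≠ 0 := (V.valuation.ne_zero_iff).2 hz
    exact (one_lt_inv₀ (zero_lt_iff.2 hz')).symm
  by_cases hx : x = 0
  · subst hx; simp
  · have hx' : σ x ≠ 0 := by simpa using hx
    rw [key _ hx, key _ hx', ← map_inv₀, ← hσ]

theorem nonunit_pow (V : ValuationSubring Ω) (σ : Ω ≃ₐ[k] Ω) (hσ : ∀ x, x ∈ V ↔ σ x ∈ V)
    (x : Ω) (i : ℕ) : V.valuation ((σ ^ i) x) < 1 ↔ V.valuation x < 1 := by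
  induction i with
  | zero => simp
  | succ i ih =>
    rw [pow_succ', AlgEquiv.mul_apply, nonunit_iff V σ hσ, ih]

theorem prod_tel (σ : Ω ≃ₐ[k] Ω) (y : Ω) (hy : y ≠ 0) (m : ℕ) :
    ∏ i ∈ Finset.range m, (σ ^ i) (σ y / y) = (σ ^ m) y / y := by
  induction m with
  | zero => simp [hy]
  | succ m ih =>
    rw [Finset.prod_range_succ, ih, map_div₀, ← AlgEquiv.mul_apply, ← pow_succ]
    have h : (σ ^ m) y ≠ 0 := fun h0 => hy ((σ ^ m).injective (by rw [h0, map_zero]))
    field_simp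

theorem not_lt_one [Algebra.IsAlgebraic k Ω] (V : ValuationSubring Ω) (σ : Ω ≃ₐ[k] Ω)
    (hσ : ∀ x, x ∈ V ↔ σ x ∈ V) (y : Ω) (hy : y ≠ 0) : ¬ V.valuation (σ y / y) < 1 := by
  intro h
  obtain ⟨m, hm, hmy⟩ := orb σ y
  have h1 := prod_tel σ y hy m
  rw [hmy, div_self hy] at h1
  have h2 := congrArg V.valuation h1
  rw [map_prod, map_one] at h2
  have h3 : ∀ m : ℕ, 0 < m → ∏ i ∈ Finset.range m, V.valuation ((σ ^ i) (σ y / y)) < 1 := by
    intro m hm
    induction m with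
    | zero => omega
    | succ m ih =>
      rw [Finset.prod_range_succ]
      have ha := (nonunit_pow V σ hσ (σ y / y) m).2 h
      rcases Nat.eq_zero_or_pos m with h0 | hp
      · subst h0
        rw [Finset.prod_range_zero, one_mul]
        exact ha
      · exact mul_lt_one_of_nonneg_of_lt_one_left zero_le (ih hp) ha.le
  exact absurd h2 (ne_of_lt (h3 m hm))

theorem val_quot [Algebra.IsAlgebraic k Ω] (V : ValuationSubring Ω) (σ : Ω ≃ₐ[k] Ω)
    (hσ : ∀ x, x ∈ V ↔ σ x ∈ V) (y : Ω) (hy : y ≠ 0) : V.valuation (σ y / y) = 1 := by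
  have h1 := not_lt_one V σ hσ y hy
  have h2 := not_lt_one V σ hσ y⁻¹ (inv_ne_zero hy)
  have e : σ y⁻¹ / y⁻¹ = (σ y / y)⁻¹ := by
    rw [map_inv₀]
    have : σ y ≠ 0 := by simpa using hy
    field_simp
  rw [e, map_inv₀] at h2
  push Not at h1 h2
  refine le_antisymm ?_ h1
  have h0 : 0 < V.valuation (σ y / y) := lt_of_lt_of_le zero_lt_one h1
  rwa [one_le_inv₀ h0] at h2

end

end XChi

open XChi in
theorem prf_Chi : StChi := by
  intro k Ω _ _ _ _ _ _ _ V hV D hD
  have hval : ∀ (σ : D) (y : Ωˣ), V.valuation (σ.1 (y : Ω) / (y : Ω)) = 1 := fun σ y =>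
    val_quot V σ.1 (hD σ.1 σ.2) y y.ne_zero
  have hconst : ∀ (σ : Ω ≃ₐ[k] Ω) (c : ℂ), σ (algebraMap ℂ Ω c) = algebraMap ℂ Ω c := by
    intro σ c
    rw [IsScalarTower.algebraMap_apply ℂ k Ω, σ.commutes]
  have hone : ∀ (σ : D) (y : Ωˣ), V.valuation (y : Ω) = 1 → rc V (σ.1 (y : Ω) / (y : Ω)) = 1 := by
    intro σ y hy
    apply rc_uniq V hV
    have h1 := rc_spec V hV (y : Ω) hy
    have h2 := (nonunit_iff V σ.1 (hD σ.1 σ.2) _).2 h1
    rw [map_sub, hconst] at h2
    have h3 : V.valuation (σ.1 (y : Ω) - (y : Ω)) < 1 := by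
      have e : σ.1 (y : Ω) - (y : Ω) = (σ.1 (y : Ω) - algebraMap ℂ Ω (rc V (y : Ω) : ℂ)) -
          ((y : Ω) - algebraMap ℂ Ω (rc V (y : Ω) : ℂ)) := by ring
      rw [e]
      exact lt_of_le_of_lt (V.valuation.map_sub _ _) (max_lt h2 h1)
    have e : σ.1 (y : Ω) / (y : Ω) - algebraMap ℂ Ω ((1 : ℂˣ) : ℂ) =
        (σ.1 (y : Ω) - (y : Ω)) / (y : Ω) := by
      rw [Units.val_one, map_one]
      have := y.ne_zero
      field_simp
    rw [e, map_div₀, hy, div_one]
    exact h3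
  have hmul : ∀ (σ : D) (y z : Ωˣ), rc V (σ.1 ((y * z : Ωˣ) : Ω) / ((y * z : Ωˣ) : Ω)) =
      rc V (σ.1 (y : Ω) / (y : Ω)) * rc V (σ.1 (z : Ω) / (z : Ω)) := by
    intro σ y z
    rw [← rc_mul V hV _ _ (hval σ y) (hval σ z), Units.val_mul, map_mul]
    congr 1
    have := y.ne_zero
    have := z.ne_zero
    field_simp
  let χ0 : D → (Ωˣ →* ℂˣ) := fun σ =>
    { toFun := fun y => rc V (σ.1 (y : Ω) / (y : Ω))
      map_one' := by
        rw [Units.val_one, map_one, div_one]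
        exact rc_one V hV
      map_mul' := hmul σ }
  have hχ0 : ∀ (σ : D) (y : Ωˣ), χ0 σ y = rc V (σ.1 (y : Ω) / (y : Ω)) := fun _ _ => rfl
  let χ : D →* (Ωˣ →* ℂˣ) :=
    { toFun := χ0
      map_one' := by
        ext y
        rw [hχ0]
        have e : ((1 : D) : Ω ≃ₐ[k] Ω) (y : Ω) / (y : Ω) = 1 := by
          rw [OneMemClass.coe_one, AlgEquiv.one_apply, div_self y.ne_zero]
        rw [e, rc_one V hV]
        rfl
      map_mul' := by
        intro σ τ
        ext y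
        rw [MonoidHom.mul_apply, hχ0, hχ0, hχ0]
        congr 1
        -- y' = τ y
        have hy' : τ.1 (y : Ω) ≠ 0 := by simp
        set y' : Ωˣ := Units.mk0 (τ.1 (y : Ω)) hy' with hy'def
        have e1 : ((σ * τ : D) : Ω ≃ₐ[k] Ω) (y : Ω) / (y : Ω) =
            (σ.1 (y' : Ω) / (y' : Ω)) * (τ.1 (y : Ω) / (y : Ω)) := by
          have e2 : ((σ * τ : D) : Ω ≃ₐ[k] Ω) (y : Ω) = σ.1 (τ.1 (y : Ω)) := rfl
          rw [e2, hy'def, Units.val_mk0]
          have := y.ne_zero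
          field_simp
        rw [e1, rc_mul V hV _ _ (hval σ y') (hval τ y)]
        congr 1
        have hw0 : τ.1 (y : Ω) / (y : Ω) ≠ 0 := div_ne_zero hy' y.ne_zero
        set w : Ωˣ := Units.mk0 (τ.1 (y : Ω) / (y : Ω)) hw0 with hw
        have e3 : y' = y * w := by
          apply Units.ext
          rw [Units.val_mul, hy'def, hw, Units.val_mk0, Units.val_mk0]
          have := y.ne_zero
          field_simp
        rw [e3, hmul σ y w, hone σ w (by rw [hw, Units.val_mk0]; exact hval τ y), mul_one] }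
  have hχ : ∀ (σ : D) (y : Ωˣ), χ σ y = rc V (σ.1 (y : Ω) / (y : Ω)) := fun _ _ => rfl
  refine ⟨χ, ?_, ?_, ?_⟩
  · intro σ y
    rw [V.mem_nonunits_iff, hχ]
    exact rc_spec V hV _ (hval σ y)
  · intro σ y hy
    rw [hχ]
    exact hone σ y hy
  · intro σ E hE h1 x hx
    by_contra hne
    set w : Ω := σ.1 x - x with hw
    have hw0 : w ≠ 0 := sub_ne_zero.2 hne
    have hwE : w ∈ E := sub_mem (hE x hx) hx
    have hpE : ∀ i : ℕ, (σ.1 ^ i) w ∈ E := by
      intro i
      induction i with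
      | zero => simpa using hwE
      | succ i ih =>
        rw [pow_succ', AlgEquiv.mul_apply]
        exact hE _ ih
    have hp0 : ∀ i : ℕ, (σ.1 ^ i) w ≠ 0 := fun i h0 =>
      hw0 ((σ.1 ^ i).injective (by rw [h0, map_zero]))
    have hq : ∀ i : ℕ, V.valuation ((σ.1 ^ i) w / w) = 1 ∧ rc V ((σ.1 ^ i) w / w) = 1 := by
      intro i
      induction i with
      | zero =>
        rw [pow_zero, AlgEquiv.one_apply, div_self hw0, map_one]
        exact ⟨rfl, rc_one V hV⟩
      | succ i ih =>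
        set z : Ωˣ := Units.mk0 ((σ.1 ^ i) w) (hp0 i) with hz
        have e : (σ.1 ^ (i + 1)) w / w = (σ.1 (z : Ω) / (z : Ω)) * ((σ.1 ^ i) w / w) := by
          rw [pow_succ', AlgEquiv.mul_apply, hz, Units.val_mk0]
          have := hp0 i
          field_simp
        have h2 : rc V (σ.1 (z : Ω) / (z : Ω)) = 1 := by
          rw [← hχ]
          exact h1 z (by rw [hz, Units.val_mk0]; exact hpE i)
        rw [e]
        refine ⟨?_, ?_⟩
        · rw [map_mul, hval σ z, ih.1, one_mul]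
        · rw [rc_mul V hV _ _ (hval σ z) ih.1, h2, ih.2, one_mul]
    have hnu : ∀ i : ℕ, V.valuation ((σ.1 ^ i) w / w - 1) < 1 := by
      intro i
      have h := rc_spec V hV _ (hq i).1
      rw [(hq i).2, Units.val_one, map_one] at h
      exact h
    have htel : ∀ m : ℕ, ∑ i ∈ Finset.range m, (σ.1 ^ i) w = (σ.1 ^ m) x - x := by
      intro m
      induction m with
      | zero => simp
      | succ m ih =>
        rw [Finset.sum_range_succ, ih, hw, map_sub, ← AlgEquiv.mul_apply, ← pow_succ]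
        ring
    obtain ⟨m, hm, hmx⟩ := orb σ.1 x
    have h0 := htel m
    rw [hmx, sub_self] at h0
    have h2 : ∑ i ∈ Finset.range m, ((σ.1 ^ i) w / w - 1) = -(m : Ω) := by
      rw [Finset.sum_sub_distrib, ← Finset.sum_div, h0, zero_div, Finset.sum_const,
        Finset.card_range, nsmul_eq_mul, mul_one, zero_sub]
    have h3 : ∀ m : ℕ, V.valuation (∑ i ∈ Finset.range m, ((σ.1 ^ i) w / w - 1)) < 1 := by
      intro m
      induction m with
      | zero => simp
      | succ m ih =>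
        rw [Finset.sum_range_succ]
        exact lt_of_le_of_lt (V.valuation.map_add _ _) (max_lt ih (hnu m))
    have h4 := h3 m
    rw [h2, Valuation.map_neg] at h4
    have h5 := val_const V hV (m : ℂ) (by exact_mod_cast hm.ne')
    rw [map_natCast] at h5
    exact absurd h5 (ne_of_lt h4)

end Pool.Agent.Sextic
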