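import Pool.Agent.Work.MP_8e3fb2_ag.VT.Stmts

set_option autoImplicit false

/-!
# Item Conj: the extensions of a valuation ring to a Galois extension are conjugate
-/

namespace Pool.Agent.Sextic

open scoped Pointwise

noncomputable section

namespace XConj

variable {N Ω : Type} [Field N] [Field Ω] [Algebra N Ω]

/-- The valuation rings which contain the trace of `V` on `N`. -/
def Above (V U : ValuationSubring Ω) : Prop :=
  ∀ a : N, algebraMap N Ω a ∈ V → algebraMap N Ω a ∈ U

variable (N) in
/-- The intersection of the valuation rings which contain the trace of `V` on `N`. -/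
def BB (V : ValuationSubring Ω) : Subring Ω where
  carrier := {y | ∀ U : ValuationSubring Ω, Above (N := N) V U → y ∈ U}
  mul_mem' := fun ha hb U hU => U.mul_mem _ _ (ha U hU) (hb U hU)
  one_mem' := fun U _ => U.one_mem
  add_mem' := fun ha hb U hU => U.add_mem _ _ (ha U hU) (hb U hU)
  zero_mem' := fun U _ => U.zero_mem
  neg_mem' := fun ha U hU => U.neg_mem _ (ha U hU)

theorem mem_BB {V : ValuationSubring Ω} {y : Ω} :
    y ∈ BB N V ↔ ∀ U : ValuationSubring Ω, Above (N := N) V U → y ∈ U := Iff.rfl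

/-- An algebraic relation with a coefficient `1` after which all coefficients are nonunits. -/
theorem relation [Algebra.IsAlgebraic N Ω] (V : ValuationSubring Ω) (x : Ω) :
    ∃ (n j : ℕ) (b : ℕ → N), j ≤ n ∧ b j = 1 ∧ (∀ i, algebraMap N Ω (b i) ∈ V) ∧
      (∀ i, j < i → algebraMap N Ω (b i) ∈ V.nonunits) ∧
      ∑ i ∈ Finset.range (n + 1), algebraMap N Ω (b i) * x ^ i = 0 := by
  obtain ⟨f, hf0, hf⟩ := Algebra.IsAlgebraic.isAlgebraic (R := N) x
  set n := f.natDegree with hn
  set v : ℕ → V.ValueGroup := fun i => V.valuation (algebraMap N Ω (f.coeff i)) with hv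
  obtain ⟨i₀, hi₀, hmax⟩ := Finset.exists_max_image (Finset.range (n + 1)) v
    ⟨0, Finset.mem_range.2 (by omega)⟩
  have hmax' : ∀ i, v i ≤ v i₀ := by
    intro i
    rcases lt_or_ge n i with h | h
    · have : f.coeff i = 0 := Polynomial.coeff_eq_zero_of_natDegree_lt (by omega)
      simp only [hv, this, map_zero]
      exact zero_le
    · exact hmax i (Finset.mem_range.2 (by omega))
  have hne : ((Finset.range (n + 1)).filter fun i => v i = v i₀).Nonempty :=
    ⟨i₀, Finset.mem_filter.2 ⟨hi₀, rfl⟩⟩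
  obtain ⟨j, hj, hjmax⟩ := Finset.exists_max_image
    ((Finset.range (n + 1)).filter fun i => v i = v i₀) id hne
  rw [Finset.mem_filter, Finset.mem_range] at hj
  have hvj : v i₀ ≠ 0 := by
    intro h0
    have h1 : v n = 0 := le_antisymm (h0 ▸ hmax' n) zero_le
    have h2 : f.coeff n = 0 := by
      simpa [hv] using h1
    exact hf0 (Polynomial.leadingCoeff_eq_zero.1 h2)
  have hfj : f.coeff j ≠ 0 := by
    intro h0
    rw [← hj.2] at hvj
    simp only [hv, h0, map_zero] at hvj
    exact hvj rfl
  have hlt : ∀ i, j < i → v i < v j := by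
    intro i hi
    rw [hj.2]
    refine lt_of_le_of_ne (hmax' i) fun heq => ?_
    rcases lt_or_ge n i with h | h
    · have : f.coeff i = 0 := Polynomial.coeff_eq_zero_of_natDegree_lt (by omega)
      rw [← heq] at hvj
      simp only [hv, this, map_zero] at hvj
      exact hvj rfl
    · have := hjmax i (Finset.mem_filter.2 ⟨Finset.mem_range.2 (by omega), heq⟩)
      simp only [id] at this
      omega
  have hvjpos : (0 : V.ValueGroup) < v j := by
    rw [hj.2]
    exact lt_of_le_of_ne zero_le (Ne.symm hvj)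
  refine ⟨n, j, fun i => f.coeff i / f.coeff j, by omega, div_self hfj, fun i => ?_, fun i hi => ?_,
    ?_⟩
  · rw [← V.valuation_le_one_iff, map_div₀, map_div₀]
    have h1 : v i ≤ v j := by rw [hj.2]; exact hmax' i
    exact div_le_one_of_le₀ h1 zero_le
  · rw [ValuationSubring.mem_nonunits_iff, map_div₀, map_div₀]
    exact (div_lt_one₀ hvjpos).2 (hlt i hi)
  · have h1 : ∑ i ∈ Finset.range (n + 1), algebraMap N Ω (f.coeff i) * x ^ i = 0 := by
      rw [← hf, Polynomial.aeval_eq_sum_range]
      refine Finset.sum_congr rfl fun i _ => ?_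
      rw [Algebra.smul_def]
    have h2 : ∑ i ∈ Finset.range (n + 1), algebraMap N Ω (f.coeff i / f.coeff j) * x ^ i =
        (algebraMap N Ω (f.coeff j))⁻¹ *
          ∑ i ∈ Finset.range (n + 1), algebraMap N Ω (f.coeff i) * x ^ i := by
      rw [Finset.mul_sum]
      refine Finset.sum_congr rfl fun i _ => ?_
      rw [map_div₀]
      ring
    rw [h2, h1, mul_zero]

/-- Every element of `V` is a quotient of elements of `BB`, the denominator being a unit of `V`. -/
theorem quot [Algebra.IsAlgebraic N Ω] (V : ValuationSubring Ω) {x : Ω} (hx : x ∈ V) :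
    ∃ u w : Ω, u ∈ BB N V ∧ w ∈ BB N V ∧ u - 1 ∈ V.nonunits ∧ u * x + w = 0 := by
  by_cases hx0 : x = 0
  · exact ⟨1, 0, one_mem _, zero_mem _, by rw [sub_self]; exact V.nonunits.zero_mem,
      by rw [hx0]; ring⟩
  obtain ⟨n, j, b, hjn, hbj, hbV, hbn, hsum⟩ := relation (N := N) V x
  set m := n + 1 - j with hm
  obtain ⟨m', hm'⟩ : ∃ m', m = m' + 1 := ⟨m - 1, by omega⟩
  set u : Ω := ∑ i ∈ Finset.range m, algebraMap N Ω (b (j + i)) * x ^ i with hu
  have hsplit : ∑ i ∈ Finset.range j, algebraMap N Ω (b i) * x ^ i + x ^ j * u = 0 := by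
    rw [← hsum, show n + 1 = j + m by omega, Finset.sum_range_add, hu, Finset.mul_sum]
    congr 1
    refine Finset.sum_congr rfl fun i _ => ?_
    rw [pow_add]
    ring
  have hu1 : u - 1 ∈ V.nonunits := by
    have h1 : u - 1 = ∑ i ∈ Finset.range m', algebraMap N Ω (b (j + (i + 1))) * x ^ (i + 1) := by
      rw [hu, hm', Finset.sum_range_succ', add_zero, hbj, map_one, pow_zero]
      ring
    rw [h1]
    refine sum_mem fun i _ => ?_
    have h2 := hbn (j + (i + 1)) (by omega)
    rw [ValuationSubring.mem_nonunits_iff] at h2 ⊢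
    have h3 : V.valuation (x ^ (i + 1)) ≤ 1 := (V.valuation_le_one_iff _).2 (pow_mem hx _)
    rw [map_mul]
    exact mul_lt_one_of_lt_of_le h2 h3
  rcases Nat.eq_zero_or_pos j with hj0 | hj0
  · exfalso
    rw [hj0, Finset.range_zero, Finset.sum_empty, pow_zero, one_mul, zero_add] at hsplit
    rw [hsplit, zero_sub, ValuationSubring.mem_nonunits_iff, Valuation.map_neg, map_one] at hu1
    exact lt_irrefl _ hu1
  obtain ⟨j', rfl⟩ : ∃ j', j = j' + 1 := ⟨j - 1, by omega⟩
  set w : Ω := ∑ i ∈ Finset.range (j' + 1), algebraMap N Ω (b i) * x⁻¹ ^ (j' - i) with hw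
  have huw : u * x + w = 0 := by
    have h1 : x ^ j' * (u * x + w) = 0 := by
      rw [← hsplit, mul_add, hw, Finset.mul_sum, add_comm]
      congr 1
      · refine Finset.sum_congr rfl fun i hi => ?_
        have hi' := Finset.mem_range.1 hi
        have h2 : x ^ j' = x ^ i * x ^ (j' - i) := by
          rw [← pow_add]
          congr 1
          omega
        rw [h2, inv_pow]
        have h3 : x ^ (j' - i) ≠ 0 := pow_ne_zero _ hx0
        field_simp
      · rw [pow_succ]
        ring
    exact (mul_eq_zero.1 h1).resolve_left (pow_ne_zero _ hx0)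
  have hboth : ∀ U : ValuationSubring Ω, Above (N := N) V U → u ∈ U ∧ w ∈ U := by
    intro U hU
    have hbU : ∀ i, algebraMap N Ω (b i) ∈ U := fun i => hU _ (hbV i)
    rcases U.mem_or_inv_mem x with hxU | hxU
    · have huU : u ∈ U := sum_mem fun i _ => mul_mem (hbU _) (pow_mem hxU _)
      refine ⟨huU, ?_⟩
      have h1 : w = -(u * x) := by linear_combination huw
      rw [h1]
      exact neg_mem (mul_mem huU hxU)
    · have hwU : w ∈ U := sum_mem fun i _ => mul_mem (hbU _) (pow_mem hxU _)
      refine ⟨?_, hwU⟩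
      have h1 : u = -(w * x⁻¹) := by
        have h2 : u * x = -w := by linear_combination huw
        field_simp
        exact h2
      rw [h1]
      exact neg_mem (mul_mem hwU hxU)
  exact ⟨u, w, fun U hU => (hboth U hU).1, fun U hU => (hboth U hU).2, hu1, huw⟩

/-- A valuation ring is determined by its centre. -/
theorem le_of_centre [Algebra.IsAlgebraic N Ω] (V V' : ValuationSubring Ω)
    (hV' : Above (N := N) V V')
    (h : ∀ b ∈ BB N V, b ∈ V'.nonunits → b ∈ V.nonunits) {x : Ω} (hx : x ∈ V) : x ∈ V' := by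
  obtain ⟨u, w, hu, hw, hu1, huw⟩ := quot (N := N) V hx
  have hunit : u ∉ V.nonunits := by
    intro hn
    have h1 : (1 : Ω) ∈ V.nonunits := by
      have := V.nonunits.sub_mem hn hu1
      rwa [sub_sub_cancel] at this
    rw [ValuationSubring.mem_nonunits_iff, map_one] at h1
    exact lt_irrefl _ h1
  have h2 : u ∉ V'.nonunits := fun hn => hunit (h u hu hn)
  rw [ValuationSubring.mem_nonunits_iff_or, not_or, not_not] at h2
  have h3 : x = -(w * u⁻¹) := by
    have h4 : u * x = -w := by linear_combination huw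
    have h5 := h2.1
    field_simp
    linear_combination h4
  rw [h3]
  exact neg_mem (mul_mem (hw V' hV') h2.2)

/-- The trace of `V` on `N` determines the nonunits in `N`. -/
theorem nonunits_iff {V W : ValuationSubring Ω}
    (h : V.comap (algebraMap N Ω) = W.comap (algebraMap N Ω)) (a : N) :
    algebraMap N Ω a ∈ V.nonunits ↔ algebraMap N Ω a ∈ W.nonunits := by
  have h1 : ∀ a : N, algebraMap N Ω a ∈ V ↔ algebraMap N Ω a ∈ W := fun a => by
    rw [← ValuationSubring.mem_comap, h, ValuationSubring.mem_comap]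
  rw [ValuationSubring.mem_nonunits_iff_or, ValuationSubring.mem_nonunits_iff_or, ← map_inv₀, h1]

theorem inv (V : ValuationSubring Ω) : IsInvariantSubring (Ω ≃ₐ[N] Ω) (BB N V) where
  smul_mem := by
    intro g y hy U hU
    have h1 := hy (U.comap (g : Ω →+* Ω)) (fun a ha => by
      rw [ValuationSubring.mem_comap]
      have h2 : (g : Ω →+* Ω) (algebraMap N Ω a) = algebraMap N Ω a := g.commutes a
      rw [h2]
      exact hU a ha)
    rwa [ValuationSubring.mem_comap] at h1

/-- The centre of `U` on `BB`. -/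
def cen (V U : ValuationSubring Ω) (hU : Above (N := N) V U) : Ideal (BB N V) where
  carrier := {b | (b : Ω) ∈ U.nonunits}
  add_mem' := fun ha hb => U.nonunits.add_mem ha hb
  zero_mem' := U.nonunits.zero_mem
  smul_mem' := by
    intro c b hb
    have h1 : (b : Ω) ∈ U.nonunits := hb
    show ((c : Ω) * (b : Ω)) ∈ U.nonunits
    rw [ValuationSubring.mem_nonunits_iff] at h1 ⊢
    have h3 : U.valuation (c : Ω) ≤ 1 := (U.valuation_le_one_iff _).2 (c.2 U hU)
    rw [map_mul, mul_comm]
    exact mul_lt_one_of_lt_of_le h1 h3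

theorem mem_cen {V U : ValuationSubring Ω} {hU : Above (N := N) V U} {b : BB N V} :
    b ∈ cen V U hU ↔ (b : Ω) ∈ U.nonunits := Iff.rfl

theorem cen_prime (V U : ValuationSubring Ω) (hU : Above (N := N) V U) :
    (cen V U hU).IsPrime := by
  refine ⟨fun h => ?_, fun {x y} h => ?_⟩
  · have h1 : (1 : BB N V) ∈ cen V U hU := h ▸ Submodule.mem_top
    rw [mem_cen, ValuationSubring.mem_nonunits_iff] at h1
    simp at h1
  · rw [mem_cen, ValuationSubring.mem_nonunits_iff] at h ⊢
    rw [mem_cen, ValuationSubring.mem_nonunits_iff]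
    by_contra hcon
    push Not at hcon
    have hx : U.valuation (x : Ω) = 1 :=
      le_antisymm ((U.valuation_le_one_iff _).2 (x.2 U hU)) hcon.1
    have hy : U.valuation (y : Ω) = 1 :=
      le_antisymm ((U.valuation_le_one_iff _).2 (y.2 U hU)) hcon.2
    rw [Subring.coe_mul, map_mul, hx, hy, one_mul] at h
    exact lt_irrefl _ h

end XConj

open XConj

attribute [local instance] XConj.inv

/-- Item Conj. -/
theorem prf_Conj : StConj := by
  intro N Ω _ _ _ _ V W hVW
  have hV : Above (N := N) V V := fun a ha => ha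
  have hiff : ∀ a : N, algebraMap N Ω a ∈ V ↔ algebraMap N Ω a ∈ W := fun a => by
    rw [← ValuationSubring.mem_comap, hVW, ValuationSubring.mem_comap]
  have hW : Above (N := N) V W := fun a ha => (hiff a).1 ha
  let P := cen (N := N) V V hV
  let Q := cen (N := N) V W hW
  have hP : P.IsPrime := cen_prime V V hV
  have hQ : Q.IsPrime := cen_prime V W hW
  let B := BB N V
  let G := Ω ≃ₐ[N] Ω
  let tB : TopologicalSpace B := ⊥
  have dB : DiscreteTopology B := ⟨rfl⟩
  have hcs : ContinuousSMul G B := by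
    rw [continuousSMul_iff_stabilizer_isOpen]
    intro b
    have h1 := stabilizer_isOpen_of_isIntegral (K := N) (b : Ω)
    have h2 : (MulAction.stabilizer G b : Set G) = MulAction.stabilizer (Ω ≃ₐ[N] Ω) (b : Ω) := by
      ext g
      simp only [SetLike.mem_coe, MulAction.mem_stabilizer_iff]
      exact Subtype.ext_iff
    rw [h2]
    exact h1
  let A := FixedPoints.subring B G
  have hinv : Algebra.IsInvariant A B G := ⟨fun b hb => ⟨⟨b, hb⟩, rfl⟩⟩
  have hunder : P.under A = Q.under A := by
    ext a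
    have hfix : ∀ σ : Ω ≃ₐ[N] Ω, σ ((a : B) : Ω) = ((a : B) : Ω) := by
      intro σ
      have h1 := a.2 σ
      exact congrArg Subtype.val h1
    obtain ⟨c, hc⟩ := (InfiniteGalois.mem_range_algebraMap_iff_fixed (k := N) _).2 hfix
    show (((a : B) : Ω) ∈ V.nonunits) ↔ (((a : B) : Ω) ∈ W.nonunits)
    rw [← hc]
    exact nonunits_iff hVW c
  obtain ⟨g, hg⟩ := Algebra.IsInvariant.exists_smul_of_under_eq_of_profinite (A := A) (G := G)
    P Q hunder
  let V' : ValuationSubring Ω := W.comap (g : Ω →+* Ω)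
  have hmV' : ∀ x, x ∈ V' ↔ g x ∈ W := fun x => ValuationSubring.mem_comap
  have hgN : ∀ a : N, g (algebraMap N Ω a) = algebraMap N Ω a := fun a => g.commutes a
  have hnu : ∀ x, x ∈ V'.nonunits ↔ g x ∈ W.nonunits := by
    intro x
    rw [ValuationSubring.mem_nonunits_iff_or, ValuationSubring.mem_nonunits_iff_or, hmV', map_inv₀]
    simp
  have hA' : ∀ a : N, algebraMap N Ω a ∈ V ↔ algebraMap N Ω a ∈ V' := by
    intro a
    rw [hmV', hgN, hiff]
  have hcen : ∀ b ∈ BB N V, (b ∈ V'.nonunits ↔ b ∈ V.nonunits) := by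
    intro b hb
    rw [hnu]
    have h1 : (g • (⟨b, hb⟩ : B)) ∈ Q ↔ (⟨b, hb⟩ : B) ∈ P := by
      rw [hg]
      exact Ideal.smul_mem_pointwise_smul_iff
    exact h1
  have hBB : BB N V' = BB N V := by
    ext y
    rw [mem_BB, mem_BB]
    have h1 : ∀ U : ValuationSubring Ω, Above (N := N) V' U ↔ Above (N := N) V U := by
      intro U
      exact forall_congr' fun a => by rw [hA']
    simp only [h1]
  refine ⟨g, fun x => ?_⟩
  rw [← hmV']
  constructor
  · intro hx
    exact le_of_centre (N := N) V V' (fun a ha => (hA' a).1 ha) (fun b hb h => (hcen b hb).1 h) hx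
  · intro hx
    refine le_of_centre (N := N) V' V (fun a ha => (hA' a).2 ha) (fun b hb h => ?_) hx
    rw [hBB] at hb
    exact (hcen b hb).2 h

end

end Pool.Agent.Sextic
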