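import Pool.Agent.Work.MP_8e3fb2_ag.VT.Stmts

set_option autoImplicit false

/-!
# Item Dec: the decomposition group of a valuation ring of `Om n`
-/

namespace Pool.Agent.Sextic

open IntermediateField

noncomputable section

namespace XDec

theorem mem_nonunits {Ω : Type} [Field Ω] (V : ValuationSubring Ω) (x : Ω) :
    x ∈ V.nonunits ↔ x = 0 ∨ x⁻¹ ∉ V := by
  rw [ValuationSubring.mem_nonunits_iff]
  by_cases hx : x = 0
  · subst hx
    simp
  · have hv : V.valuation x ≠ 0 := by simpa using hx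
    rw [← ValuationSubring.valuation_le_one_iff, map_inv₀, not_le]
    constructor
    · intro h
      exact Or.inr ((one_lt_inv₀ (zero_lt_iff.mpr hv)).mpr h)
    · rintro (h | h)
      · exact absurd h hx
      · exact (one_lt_inv₀ (zero_lt_iff.mpr hv)).mp h

theorem resC_comap {Ω Ω' : Type} [Field Ω] [Algebra ℂ Ω] [Field Ω'] [Algebra ℂ Ω']
    (e : Ω' ≃+* Ω) (he : ∀ c : ℂ, e (algebraMap ℂ Ω' c) = algebraMap ℂ Ω c)
    (A : ValuationSubring Ω) (hA : ResC A) : ResC (A.comap (e : Ω' →+* Ω)) := by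
  constructor
  · intro c
    rw [ValuationSubring.mem_comap]
    have := hA.1 c
    rw [← he c] at this
    exact this
  · intro y hy
    rw [ValuationSubring.mem_comap] at hy
    obtain ⟨c, hc⟩ := hA.2 _ hy
    refine ⟨c, ?_⟩
    rw [mem_nonunits] at hc ⊢
    have h1 : (e : Ω' →+* Ω) y - algebraMap ℂ Ω c = e (y - algebraMap ℂ Ω' c) := by
      rw [map_sub, he]
      rfl
    rw [h1] at hc
    rcases hc with hc | hc
    · left
      exact (map_eq_zero_iff e e.injective).mp hc
    · right
      intro hh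
      apply hc
      rw [ValuationSubring.mem_comap] at hh
      have h2 : (e : Ω' →+* Ω) (y - algebraMap ℂ Ω' c)⁻¹ = (e (y - algebraMap ℂ Ω' c))⁻¹ :=
        map_inv₀ (e : Ω' →+* Ω) _
      rw [h2] at hh
      exact hh

theorem xv_injective (n : ℕ) : Function.Injective (xv n) := by
  intro a b hab
  have h1 := IsFractionRing.injective (MvPolynomial (Fin n) ℂ) (RF n) hab
  exact MvPolynomial.X_injective h1

end XDec

open XDec in
theorem prf_Dec (h1 : StExt) (h2 : StRes) (h3 : StConj) (h4 : StInv) (h5 : StEmb) : StDec := by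
  intro n p hp
  obtain ⟨j, hroot, hbase, hperm⟩ := h5 n
  obtain ⟨hh, A, hhinj, hAres, hAinv⟩ := h4 n p
  -- the field N
  let N : IntermediateField ℂ (Om n) := j.fieldRange
  have hjN : ∀ x, j x ∈ N := fun x => ⟨x, rfl⟩
  let f : RF n →+* N := (j : RF n →+* Om n).codRestrict N.toSubfield hjN
  have hf : ∀ x, algebraMap N (Om n) (f x) = j x := fun x => rfl
  have hfbij : Function.Bijective f := by
    refine ⟨f.injective, ?_⟩
    rintro ⟨y, x, hx⟩
    exact ⟨x, Subtype.ext hx⟩
  let e : RF n ≃+* N := RingEquiv.ofBijective f hfbij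
  have he : ∀ x, algebraMap N (Om n) (e x) = j x := fun x => rfl
  let g : K0 n →+* N := (algebraMap (K0 n) (Om n)).codRestrict N.toSubfield (by
    intro a
    obtain ⟨c, hc⟩ := hbase a
    rw [← hc]
    exact hjN c)
  have hg : ∀ a, algebraMap N (Om n) (g a) = algebraMap (K0 n) (Om n) a := fun a => rfl
  haveI : CharZero N := charZero_of_injective_algebraMap (algebraMap ℂ N).injective
  haveI halg : Algebra.IsAlgebraic N (Om n) := by
    constructor
    intro y
    obtain ⟨P, hP0, hP⟩ := (AlgebraicClosure.isAlgebraic (K0 n)).isAlgebraic y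
    refine ⟨P.map g, ?_, ?_⟩
    · exact (Polynomial.map_ne_zero_iff g.injective).mpr hP0
    · rw [Polynomial.aeval_def, Polynomial.eval₂_map]
      rw [Polynomial.aeval_def] at hP
      rw [← hP]
      congr 1
  haveI : IsAlgClosure N (Om n) := ⟨inferInstance, halg⟩
  haveI : Normal N (Om n) := IsAlgClosure.normal N (Om n)
  haveI : IsGalois N (Om n) := { }
  -- the valuation ring of N
  let A' : ValuationSubring N := A.comap (e.symm : N →+* RF n)
  have hA' : ResC A' := by
    apply resC_comap e.symm _ A hAres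
    intro c
    apply e.injective
    rw [RingEquiv.apply_symm_apply]
    apply Subtype.ext
    change algebraMap ℂ (Om n) c = j (algebraMap ℂ (RF n) c)
    rw [AlgHom.commutes]
  obtain ⟨V, hV⟩ := h1 N (Om n) A'
  have hVj : ∀ x, j x ∈ V ↔ x ∈ A := by
    intro x
    have a1 : j x ∈ V ↔ e x ∈ V.comap (algebraMap N (Om n)) := by
      rw [ValuationSubring.mem_comap, he]
    rw [a1, hV]
    change (e.symm : N →+* RF n) (e x) ∈ A ↔ x ∈ A
    have a2 : (e.symm : N →+* RF n) (e x) = x := e.symm_apply_apply x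
    rw [a2]
  have hVres : ResC V := h2 N (Om n) V (by rw [hV]; exact hA')
  -- the roots
  let ξ : Fin n → Om n := fun i => j (xv n i)
  have hξ : Function.Injective ξ := fun a b hab => xv_injective n (j.injective hab)
  have hex : ∀ (σ : Om n ≃ₐ[K0 n] Om n) (i : Fin n), ∃ k, σ (ξ i) = ξ k := by
    intro σ i
    have b1 : Polynomial.aeval (ξ i) (gen n) = 0 := (hroot _).mpr ⟨i, rfl⟩
    have b2 : Polynomial.aeval (σ (ξ i)) (gen n) = 0 := by
      have := Polynomial.aeval_algHom_apply (σ : Om n →ₐ[K0 n] Om n) (ξ i) (gen n)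
      change Polynomial.aeval (σ (ξ i)) (gen n) = σ (Polynomial.aeval (ξ i) (gen n)) at this
      rw [this, b1, map_zero]
    exact (hroot _).mp b2
  choose r hr using hex
  have hrmul : ∀ σ τ i, r (σ * τ) i = r σ (r τ i) := by
    intro σ τ i
    apply hξ
    rw [← hr, AlgEquiv.mul_apply, hr τ, hr σ]
  have hrone : ∀ i, r 1 i = i := by
    intro i
    apply hξ
    rw [← hr, AlgEquiv.one_apply]
  let ρ : (Om n ≃ₐ[K0 n] Om n) →* Equiv.Perm (Fin n) :=
    { toFun := fun σ =>
        { toFun := r σ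
          invFun := r σ⁻¹
          left_inv := fun i => by rw [← hrmul, inv_mul_cancel, hrone]
          right_inv := fun i => by rw [← hrmul, mul_inv_cancel, hrone] }
      map_one' := by
        ext i
        exact congrArg Fin.val (hrone i)
      map_mul' := fun σ τ => by
        ext i
        exact congrArg Fin.val (hrmul σ τ i) }
  have hρ : ∀ σ i, σ (ξ i) = ξ (ρ σ i) := fun σ i => hr σ i
  have hρeq : ∀ (σ : Om n ≃ₐ[K0 n] Om n) (π : Equiv.Perm (Fin n)),
      (∀ i, σ (ξ i) = ξ (π i)) → ρ σ = π := by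
    intro σ π h
    apply Equiv.ext
    intro i
    apply hξ
    rw [← hρ, h]
  refine ⟨V, hh, ρ, ξ, hVres, hhinj, hξ, ?_, ?_, hρ, ?_⟩
  · intro π
    obtain ⟨φ, σ, c1, c2⟩ := hperm π
    refine ⟨σ, hρeq σ π ?_⟩
    intro i
    change σ (j (xv n i)) = j (xv n (π i))
    rw [c2, c1]
  · intro y
    exact hroot y
  · intro v
    obtain ⟨φ, σ, c1, c2⟩ := hperm (hh v)
    have c3 := hAinv v φ c1
    let V' : ValuationSubring (Om n) := V.comap ((σ : Om n ≃+* Om n) : Om n →+* Om n)
    have hV' : ∀ x, x ∈ V' ↔ σ x ∈ V := fun x => Iff.rfl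
    have hcomap : V.comap (algebraMap N (Om n)) = V'.comap (algebraMap N (Om n)) := by
      ext y
      obtain ⟨x, rfl⟩ := e.surjective y
      rw [ValuationSubring.mem_comap, ValuationSubring.mem_comap, he, hV', hVj, c2, hVj]
      exact c3 x
    obtain ⟨τ, hτ⟩ := h3 N (Om n) V V' hcomap
    have hτN : ∀ x : RF n, τ (j x) = j x := fun x => τ.commutes (e x)
    let τ' : Om n ≃ₐ[K0 n] Om n := AlgEquiv.ofRingEquiv (f := (τ : Om n ≃+* Om n)) (by
      intro a
      exact τ.commutes (g a))
    have hτ' : ∀ x, τ' x = τ x := fun x => rfl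
    refine ⟨σ * τ', ?_, ?_⟩
    · intro x
      rw [AlgEquiv.mul_apply, hτ', ← hV']
      exact hτ x
    · apply hρeq
      intro i
      rw [AlgEquiv.mul_apply, hτ']
      change σ (τ (j (xv n i))) = j (xv n (hh v i))
      rw [hτN, c2, c1]

end

end Pool.Agent.Sextic
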