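import Pool.Agent.Work.MP_8e3fb2_ag.VT.Stmts

/-!
Item Emb: the roots of the general polynomial are independent variables.
-/

set_option autoImplicit false

namespace Pool.Agent.Sextic

open IntermediateField Polynomial

noncomputable section

namespace XEmb

/-- abstract embedding and extension of automorphisms -/
theorem ext_general {K N Ω : Type} [Field K] [Field N] [Field Ω] [Algebra K Ω] [IsAlgClosure K Ω]
    {n : ℕ} (f : K →+* N) (x : Fin n → N) (hx : ∀ i, ∃ p : K[X], p ≠ 0 ∧ p.eval₂ f (x i) = 0)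
    (hgen : ∀ F : Subfield N, (∀ a, f a ∈ F) → (∀ i, x i ∈ F) → ∀ y, y ∈ F) :
    ∃ j : N →+* Ω, (∀ a, j (f a) = algebraMap K Ω a) ∧
      ∀ φ : N ≃+* N, (∀ a, φ (f a) = f a) → ∃ σ : Ω ≃ₐ[K] Ω, ∀ y, σ (j y) = j (φ y) := by
  let _ : Algebra K N := f.toAlgebra
  have halg : Algebra.IsAlgebraic K N := by
    refine ⟨fun y => ?_⟩
    have h := hgen (algebraicClosure K N).toSubfield (fun a => ?_) (fun i => ?_) y
    · exact mem_algebraicClosure_iff.1 h
    · exact (algebraicClosure K N).algebraMap_mem a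
    · obtain ⟨p, hp0, hp⟩ := hx i
      exact mem_algebraicClosure_iff.2 ⟨p, hp0, hp⟩
  have : IsAlgClosed Ω := IsAlgClosure.isAlgClosed K
  let j : N →ₐ[K] Ω := IsAlgClosed.lift
  refine ⟨j, fun a => j.commutes a, fun φ hφ => ?_⟩
  let _ : Algebra N Ω := j.toRingHom.toAlgebra
  have : IsScalarTower K N Ω := .of_algebraMap_eq fun a => (j.commutes a).symm
  have : Algebra.IsAlgebraic K Ω := IsAlgClosure.isAlgebraic
  have : Algebra.IsAlgebraic N Ω :=
    Algebra.IsAlgebraic.extendScalars (algebraMap K N).injective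
  have : IsAlgClosure N Ω := ⟨inferInstance, inferInstance⟩
  let e : Ω ≃+* Ω := IsAlgClosure.equivOfEquiv Ω Ω φ
  have he : ∀ y, e (j y) = j (φ y) := fun y => IsAlgClosure.equivOfEquiv_algebraMap Ω Ω φ y
  refine ⟨AlgEquiv.ofRingEquiv (f := e) fun a => ?_, he⟩
  have h1 : algebraMap K Ω a = j (f a) := (j.commutes a).symm
  rw [h1, he, hφ]

/-- the polynomial ring -/
abbrev S (n : ℕ) : Type := MvPolynomial (Fin n) ℂ

/-- the coefficients as polynomials in the roots -/
def ps (n : ℕ) : S n →ₐ[ℂ] S n :=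
  MvPolynomial.aeval fun i : Fin n => (-1) ^ ((i : ℕ) + 1) * MvPolynomial.esymm (Fin n) ℂ (i + 1)

/-- signs -/
def sg (n : ℕ) : S n →ₐ[ℂ] S n :=
  MvPolynomial.aeval fun i : Fin n => (-1) ^ ((i : ℕ) + 1) * MvPolynomial.X i

theorem sg_sg (n : ℕ) : (sg n).comp (sg n) = AlgHom.id ℂ (S n) := by
  ext i : 1
  simp only [sg, AlgHom.comp_apply, MvPolynomial.aeval_X, map_mul, map_pow, map_neg, map_one,
    AlgHom.id_apply]
  rw [← mul_assoc, ← pow_add, ← two_mul, pow_mul]
  simp

theorem ps_eq (n : ℕ) : ps n = ((MvPolynomial.symmetricSubalgebra (Fin n) ℂ).val.comp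
    (MvPolynomial.esymmAlgHom (Fin n) ℂ n)).comp (sg n) := by
  ext i : 1
  simp only [ps, sg, AlgHom.comp_apply, MvPolynomial.aeval_X, map_mul, map_pow, map_neg, map_one,
    MvPolynomial.esymmAlgHom, Subalgebra.coe_val]

theorem ps_inj (n : ℕ) : Function.Injective (ps n) := by
  rw [ps_eq]
  refine (Subtype.val_injective.comp
    (MvPolynomial.esymmAlgHom_fin_injective ℂ (le_refl n))).comp ?_
  intro p q h
  have h1 := congrArg (sg n) h
  change ((sg n).comp (sg n)) p = ((sg n).comp (sg n)) q at h1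
  rwa [sg_sg] at h1

theorem ps_symm (n : ℕ) (π : Equiv.Perm (Fin n)) (p : S n) :
    MvPolynomial.rename π (ps n p) = ps n p := by
  have h : (MvPolynomial.rename π).comp (ps n) = ps n := by
    ext i : 1
    simp only [ps, AlgHom.comp_apply, MvPolynomial.aeval_X, map_mul, map_pow, map_neg, map_one,
      MvPolynomial.rename_esymm]
  exact DFunLike.congr_fun h p

/-- the map of the function fields -/
def Ps (n : ℕ) : K0 n →+* RF n :=
  IsFractionRing.lift (A := S n) (g := (algebraMap (S n) (RF n)).comp (ps n : S n →+* S n))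
    ((IsFractionRing.injective (S n) (RF n)).comp (ps_inj n))

theorem Ps_map (n : ℕ) (p : S n) :
    Ps n (algebraMap (S n) (K0 n) p) = algebraMap (S n) (RF n) (ps n p) :=
  IsFractionRing.lift_algebraMap _ p

theorem aeval_xv (n : ℕ) (p : S n) : MvPolynomial.aeval (xv n) p = algebraMap (S n) (RF n) p := by
  have h : (MvPolynomial.aeval (xv n) : S n →ₐ[ℂ] RF n) = IsScalarTower.toAlgHom ℂ (S n) (RF n) := by
    ext i : 1
    simp [xv]
  exact DFunLike.congr_fun h p

theorem Ps_X (n : ℕ) (i : Fin n) :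
    Ps n (algebraMap (S n) (K0 n) (MvPolynomial.X i)) =
      (-1) ^ ((i : ℕ) + 1) * (Finset.univ.val.map (xv n)).esymm (i + 1) := by
  rw [Ps_map, ps, MvPolynomial.aeval_X, map_mul, map_pow, map_neg, map_one, ← aeval_xv,
    MvPolynomial.aeval_esymm_eq_multiset_esymm]

theorem gen_map (n : ℕ) : (gen n).map (Ps n) = ∏ i : Fin n, (X - C (xv n i)) := by
  have h1 : ∏ i : Fin n, (X - C (xv n i)) =
      ((Finset.univ.val.map (xv n)).map fun t => X - C t).prod := by
    rw [Multiset.map_map]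
    rfl
  have h2 : Multiset.card ((Finset.univ : Finset (Fin n)).val.map (xv n)) = n := by simp
  rw [h1, Multiset.prod_X_sub_X_eq_sum_esymm, h2, Finset.sum_range_succ', gen, Polynomial.map_add,
    Polynomial.map_pow, map_X, Polynomial.map_sum, Finset.sum_range, add_comm]
  congr 1
  · refine Finset.sum_congr rfl fun i _ => ?_
    rw [Polynomial.map_mul, map_C, Polynomial.map_pow, map_X, Ps_X, C_mul, C_pow, C_neg, C_1,
      mul_assoc, Nat.sub_sub, add_comm 1 (i : ℕ)]
  · simp [Multiset.esymm]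

theorem gen_eval₂ (n : ℕ) {L : Type} [Field L] (j : RF n →+* L) (y : L) :
    (gen n).eval₂ (j.comp (Ps n)) y = ∏ i : Fin n, (y - j (xv n i)) := by
  rw [← eval₂_map, gen_map, eval₂_finsetProd]
  simp

theorem gen_ne (n : ℕ) : gen n ≠ 0 := by
  intro h
  have h1 := gen_map n
  rw [h, Polynomial.map_zero] at h1
  exact (monic_prod_of_monic _ _ fun i _ => monic_X_sub_C (xv n i)).ne_zero h1.symm

theorem const_eq (n : ℕ) (c : ℂ) :
    Ps n (algebraMap (S n) (K0 n) (MvPolynomial.C c)) = algebraMap ℂ (RF n) c := by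
  rw [Ps_map, ← MvPolynomial.algebraMap_eq, AlgHom.commutes, ← IsScalarTower.algebraMap_apply]

theorem generated (n : ℕ) (F : Subfield (RF n)) (h1 : ∀ a, Ps n a ∈ F) (h2 : ∀ i, xv n i ∈ F)
    (y : RF n) : y ∈ F := by
  have h3 : ∀ p : S n, algebraMap (S n) (RF n) p ∈ F := by
    intro p
    induction p using MvPolynomial.induction_on with
    | C a =>
      rw [← MvPolynomial.algebraMap_eq, ← IsScalarTower.algebraMap_apply, ← const_eq]
      exact h1 _
    | add p q hp hq =>
      rw [map_add]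
      exact F.add_mem hp hq
    | mul_X p i hp =>
      rw [map_mul]
      exact F.mul_mem hp (h2 i)
  obtain ⟨p, q, -, rfl⟩ := IsFractionRing.div_surjective (A := S n) y
  exact F.div_mem (h3 p) (h3 q)

/-- permutation of the variables -/
def perm (n : ℕ) (π : Equiv.Perm (Fin n)) : RF n ≃+* RF n :=
  IsFractionRing.ringEquivOfRingEquiv (A := S n) (B := S n)
    (MvPolynomial.renameEquiv ℂ π).toRingEquiv

theorem perm_map (n : ℕ) (π : Equiv.Perm (Fin n)) (p : S n) :
    perm n π (algebraMap (S n) (RF n) p) = algebraMap (S n) (RF n) (MvPolynomial.rename π p) :=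
  IsFractionRing.ringEquivOfRingEquiv_algebraMap _ p

theorem perm_Ps (n : ℕ) (π : Equiv.Perm (Fin n)) (a : K0 n) : perm n π (Ps n a) = Ps n a := by
  obtain ⟨p, q, -, rfl⟩ := IsFractionRing.div_surjective (A := S n) a
  rw [map_div₀, map_div₀, Ps_map, Ps_map, perm_map, perm_map, ps_symm, ps_symm]

end XEmb

open XEmb in
theorem prf_Emb : StEmb := by
  intro n
  obtain ⟨j, hj, hσ⟩ := ext_general (Ω := Om n) (Ps n) (xv n) (fun i => ⟨gen n, gen_ne n, by
    have h := gen_eval₂ n (RingHom.id (RF n)) (xv n i)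
    rw [RingHom.id_comp] at h
    rw [h]
    exact Finset.prod_eq_zero (Finset.mem_univ i) (by simp)⟩) (generated n)
  have hc : ∀ c : ℂ, j (algebraMap ℂ (RF n) c) = algebraMap ℂ (Om n) c := by
    intro c
    rw [← const_eq, hj, ← MvPolynomial.algebraMap_eq, ← IsScalarTower.algebraMap_apply,
      ← IsScalarTower.algebraMap_apply]
  have hjj : j.comp (Ps n) = algebraMap (K0 n) (Om n) := RingHom.ext hj
  refine ⟨⟨j, hc⟩, fun y => ?_, fun a => ⟨Ps n a, hj a⟩, fun π => ?_⟩
  · have h : aeval y (gen n) = ∏ i : Fin n, (y - j (xv n i)) := by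
      rw [← gen_eval₂, hjj]
      rfl
    rw [h, Finset.prod_eq_zero_iff]
    constructor
    · rintro ⟨i, -, hi⟩
      exact ⟨i, sub_eq_zero.1 hi⟩
    · rintro ⟨i, hi⟩
      exact ⟨i, Finset.mem_univ i, sub_eq_zero.2 hi⟩
  · obtain ⟨σ, hσ'⟩ := hσ (perm n π) (perm_Ps n π)
    refine ⟨⟨(perm n π : RF n →+* RF n), fun c => ?_⟩, σ, fun i => ?_, hσ'⟩
    · have h := perm_Ps n π (algebraMap (S n) (K0 n) (MvPolynomial.C c))
      rwa [const_eq] at h
    · change perm n π (algebraMap (S n) (RF n) (MvPolynomial.X i)) = _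
      rw [perm_map, MvPolynomial.rename_X]
      rfl

end

end Pool.Agent.Sextic
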