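import Pool.Agent.Work.MP_8e3fb2_ag.VT.Stmts

set_option autoImplicit false

/-!
# Item Ext: a valuation ring of a subfield is the pullback of a valuation ring
-/

namespace Pool.Agent.Sextic

namespace XExt

theorem ext_aux (N Ω : Type) [Field N] [Field Ω] [Algebra N Ω] (A : ValuationSubring N) :
    ∃ V : ValuationSubring Ω, V.comap (algebraMap N Ω) = A := by
  obtain ⟨V, h, hloc⟩ := IsLocalRing.exists_factor_valuationRing
    ((algebraMap N Ω).comp A.subtype)
  refine ⟨V, ?_⟩
  ext x
  rw [ValuationSubring.mem_comap]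
  constructor
  · intro hx
    by_contra hxA
    have hx0 : x ≠ 0 := by
      rintro rfl
      exact hxA A.zero_mem
    have hinv : x⁻¹ ∈ A := (A.mem_or_inv_mem x).resolve_left hxA
    have hu : IsUnit ((((algebraMap N Ω).comp A.subtype).codRestrict V.toSubring h)
        ⟨x⁻¹, hinv⟩) := by
      refine IsUnit.of_mul_eq_one ⟨algebraMap N Ω x, hx⟩ ?_
      apply Subtype.ext
      change algebraMap N Ω x⁻¹ * algebraMap N Ω x = 1
      rw [← map_mul, inv_mul_cancel₀ hx0, map_one]
    have hu2 : IsUnit (⟨x⁻¹, hinv⟩ : A) := hloc.map_nonunit _ hu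
    obtain ⟨u, hu3⟩ := hu2
    apply hxA
    have h1 : (x⁻¹ : N) * ((u⁻¹ : Aˣ) : A) = 1 := by
      have h2 : (u : A) * ((u⁻¹ : Aˣ) : A) = 1 := u.mul_inv
      rw [hu3] at h2
      have h3 := congrArg Subtype.val h2
      simpa using h3
    have h4 : x = (((u⁻¹ : Aˣ) : A) : N) := by
      field_simp at h1
      exact h1.symm
    rw [h4]
    exact Subtype.property _
  · intro hx
    exact h ⟨x, hx⟩

end XExt

theorem prf_Ext : StExt := fun N Ω _ _ _ A => XExt.ext_aux N Ω A

end Pool.Agent.Sextic
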