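import Mathlib
import Pool.Agent.Work.MP_8e3fb2_ag.VT.Stmts

set_option autoImplicit false

/-!
# Towers of algebraic functions: item Inv
-/

namespace Pool.Agent.Sextic

open IntermediateField

noncomputable section

namespace XInv

/-- two endomorphisms which agree on the variables are equal -/
lemma hom_ext (n : ℕ) (f g : RF n →ₐ[ℂ] RF n) (h : ∀ i, f (xv n i) = g (xv n i)) : f = g := by
  have h1 : f.toRingHom = g.toRingHom := by
    apply IsLocalization.ringHom_ext (nonZeroDivisors (MvPolynomial (Fin n) ℂ))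
    apply MvPolynomial.ringHom_ext
    · intro c
      have e1 : (algebraMap (MvPolynomial (Fin n) ℂ) (RF n)) (MvPolynomial.C c) =
          algebraMap ℂ (RF n) c := by
        rw [IsScalarTower.algebraMap_apply ℂ (MvPolynomial (Fin n) ℂ) (RF n)]
        rfl
      simp only [RingHom.coe_comp, Function.comp_apply, e1]
      exact (f.commutes c).trans (g.commutes c).symm
    · intro i
      exact h i
  exact AlgHom.ext fun x => RingHom.congr_fun h1 x

/-- extension of an injective endomorphism of the polynomial ring -/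
lemma exists_ext (n : ℕ) (L L' : Fin n → MvPolynomial (Fin n) ℂ)
    (h : ∀ i, MvPolynomial.aeval L' (L i) = MvPolynomial.X i) :
    ∃ f : RF n →ₐ[ℂ] RF n, ∀ i, f (xv n i) = algebraMap (MvPolynomial (Fin n) ℂ) (RF n) (L i) := by
  have hinj : Function.Injective (MvPolynomial.aeval (R := ℂ) L) := by
    have h1 : (MvPolynomial.aeval (R := ℂ) L').comp (MvPolynomial.aeval (R := ℂ) L) =
        AlgHom.id ℂ _ := by
      apply MvPolynomial.algHom_ext
      intro i
      rw [AlgHom.comp_apply, MvPolynomial.aeval_X, h i, AlgHom.id_apply]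
    have h2 : Function.LeftInverse (MvPolynomial.aeval (R := ℂ) L')
        (MvPolynomial.aeval (R := ℂ) L) := by
      intro x
      exact AlgHom.congr_fun h1 x
    exact h2.injective
  have hinj2 : Function.Injective
      ((IsScalarTower.toAlgHom ℂ (MvPolynomial (Fin n) ℂ) (RF n)).comp
        (MvPolynomial.aeval (R := ℂ) L)) := by
    intro x y hxy
    apply hinj
    exact IsFractionRing.injective (MvPolynomial (Fin n) ℂ) (RF n) hxy
  refine ⟨IsFractionRing.liftAlgHom hinj2, fun i => ?_⟩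
  unfold xv
  rw [IsFractionRing.liftAlgHom_apply, IsFractionRing.lift_algebraMap]
  simp

/-- nonunits of a valuation ring -/
lemma mem_nonunits {K : Type} [Field K] (A : ValuationSubring K) (x : K) :
    x ∈ A.nonunits ↔ (x = 0 ∨ x⁻¹ ∉ A) := by
  rw [ValuationSubring.mem_nonunits_iff]
  by_cases hx : x = 0
  · subst hx
    simp
  · have hv : A.valuation x ≠ 0 := by
      rw [Valuation.ne_zero_iff]
      exact hx
    rw [← not_le]
    constructor
    · intro h
      right
      intro h2
      apply h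
      rw [← ValuationSubring.valuation_le_one_iff, map_inv₀] at h2
      exact (inv_le_one₀ (zero_lt_iff.mpr hv)).mp h2
    · rintro (h | h) h3
      · exact hx h
      · apply h
        rw [← ValuationSubring.valuation_le_one_iff, map_inv₀]
        exact (inv_le_one₀ (zero_lt_iff.mpr hv)).mpr h3

lemma comap_nonunits {K L : Type} [Field K] [Field L] (A : ValuationSubring L) (f : K →+* L)
    (x : K) : x ∈ (A.comap f).nonunits ↔ f x ∈ A.nonunits := by
  rw [mem_nonunits, mem_nonunits, ValuationSubring.mem_comap, map_inv₀, map_eq_zero]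

/-- the index set -/
abbrev Sg (q p r : ℕ) : Type := (Fin q × ZMod p) ⊕ Fin r

/-- shift of the blocks -/
def shf (q p r : ℕ) (v : Fin q → ZMod p) : Equiv.Perm (Sg q p r) where
  toFun := Sum.elim (fun x => Sum.inl (x.1, x.2 + v x.1)) Sum.inr
  invFun := Sum.elim (fun x => Sum.inl (x.1, x.2 - v x.1)) Sum.inr
  left_inv := by
    rintro (x | x) <;> simp
  right_inv := by
    rintro (x | x) <;> simp

/-- the homomorphism -/
def shHom (n q p r : ℕ) (e : Sg q p r ≃ Fin n) :
    Multiplicative (Fin q → ZMod p) →* Equiv.Perm (Fin n) where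
  toFun v := e.permCongr (shf q p r v.toAdd)
  map_one' := by
    ext i
    simp only [Equiv.permCongr_apply, Equiv.Perm.coe_one, id_eq]
    rcases h : e.symm i with x | x
    · have h2 : e (Sum.inl x) = i := by rw [← h, Equiv.apply_symm_apply]
      simp [shf, h2]
    · have h2 : e (Sum.inr x) = i := by rw [← h, Equiv.apply_symm_apply]
      simp [shf, h2]
  map_mul' v w := by
    ext i
    simp only [Equiv.permCongr_apply, Equiv.Perm.coe_mul, Function.comp_apply,
      Equiv.symm_apply_apply]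
    rcases h : e.symm i with x | x
    · simp [shf, add_assoc, add_comm (v.toAdd x.1)]
    · simp [shf]

lemma shHom_inl (n q p r : ℕ) (e : Sg q p r ≃ Fin n) (v : Multiplicative (Fin q → ZMod p))
    (b : Fin q) (j : ZMod p) :
    shHom n q p r e v (e (Sum.inl (b, j))) = e (Sum.inl (b, j + v.toAdd b)) := by
  simp [shHom, shf]

lemma shHom_inr (n q p r : ℕ) (e : Sg q p r ≃ Fin n) (v : Multiplicative (Fin q → ZMod p))
    (i : Fin r) : shHom n q p r e v (e (Sum.inr i)) = e (Sum.inr i) := by
  simp [shHom, shf]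

lemma shHom_inj (n q p r : ℕ) (e : Sg q p r ≃ Fin n) :
    Function.Injective (shHom n q p r e) := by
  intro v w h
  apply Multiplicative.toAdd.injective
  funext b
  have h1 := DFunLike.congr_fun h (e (Sum.inl (b, 0)))
  rw [shHom_inl, shHom_inl] at h1
  have h2 := e.injective h1
  simpa using h2

section Fourier

variable (n q p r : ℕ) [Fact p.Prime] (e : Sg q p r ≃ Fin n)

/-- linear forms -/
def Lf (i : Fin n) : MvPolynomial (Fin n) ℂ :=
  Sum.elim (fun x : Fin q × ZMod p => ∑ l : ZMod p,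
    MvPolynomial.C ((ZMod.stdAddChar (l * x.2) : ℂ)) * MvPolynomial.X (e (Sum.inl (x.1, l))))
    (fun i => MvPolynomial.X (e (Sum.inr i))) (e.symm i)

/-- inverse forms -/
def Lb (i : Fin n) : MvPolynomial (Fin n) ℂ :=
  Sum.elim (fun x : Fin q × ZMod p => ∑ l : ZMod p,
    MvPolynomial.C ((p : ℂ)⁻¹ * (ZMod.stdAddChar (-(x.2 * l)) : ℂ)) *
      MvPolynomial.X (e (Sum.inl (x.1, l))))
    (fun i => MvPolynomial.X (e (Sum.inr i))) (e.symm i)

lemma Lf_inl (b : Fin q) (j : ZMod p) : Lf n q p r e (e (Sum.inl (b, j))) = ∑ l : ZMod p,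
    MvPolynomial.C ((ZMod.stdAddChar (l * j) : ℂ)) * MvPolynomial.X (e (Sum.inl (b, l))) := by
  unfold Lf
  rw [Equiv.symm_apply_apply]
  rfl

lemma Lf_inr (i : Fin r) : Lf n q p r e (e (Sum.inr i)) = MvPolynomial.X (e (Sum.inr i)) := by
  unfold Lf
  rw [Equiv.symm_apply_apply]
  rfl

lemma Lb_inl (b : Fin q) (j : ZMod p) : Lb n q p r e (e (Sum.inl (b, j))) = ∑ l : ZMod p,
    MvPolynomial.C ((p : ℂ)⁻¹ * (ZMod.stdAddChar (-(j * l)) : ℂ)) *
      MvPolynomial.X (e (Sum.inl (b, l))) := by
  unfold Lb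
  rw [Equiv.symm_apply_apply]
  rfl

lemma Lb_inr (i : Fin r) : Lb n q p r e (e (Sum.inr i)) = MvPolynomial.X (e (Sum.inr i)) := by
  unfold Lb
  rw [Equiv.symm_apply_apply]
  rfl

lemma four (j k : ZMod p) : ∑ l : ZMod p, (ZMod.stdAddChar (l * j) : ℂ) *
    ((p : ℂ)⁻¹ * (ZMod.stdAddChar (-(l * k)) : ℂ)) = if j = k then 1 else 0 := by
  have h1 : ∀ l : ZMod p, (ZMod.stdAddChar (l * j) : ℂ) *
      ((p : ℂ)⁻¹ * (ZMod.stdAddChar (-(l * k)) : ℂ)) =
      (p : ℂ)⁻¹ * (ZMod.stdAddChar (l * (j - k)) : ℂ) := by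
    intro l
    have : l * (j - k) = l * j + -(l * k) := by ring
    rw [this, AddChar.map_add_eq_mul]
    ring
  rw [Finset.sum_congr rfl (fun l _ => h1 l), ← Finset.mul_sum,
    AddChar.sum_mulShift (j - k) (ZMod.isPrimitive_stdAddChar p)]
  have hp : (p : ℂ) ≠ 0 := by
    exact_mod_cast (Fact.out : p.Prime).ne_zero
  by_cases h : j = k
  · simp [h, ZMod.card, hp]
  · have h2 : j - k ≠ 0 := sub_ne_zero.mpr h
    simp [h, h2]

lemma left_inv (i : Fin n) :
    MvPolynomial.aeval (Lb n q p r e) (Lf n q p r e i) = MvPolynomial.X i := by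
  obtain ⟨s, rfl⟩ := e.surjective i
  rcases s with ⟨b, j⟩ | s
  · rw [Lf_inl, map_sum]
    have h1 : ∀ l : ZMod p, MvPolynomial.aeval (Lb n q p r e)
        (MvPolynomial.C ((ZMod.stdAddChar (l * j) : ℂ)) *
          MvPolynomial.X (e (Sum.inl (b, l)))) =
        ∑ k : ZMod p, MvPolynomial.C ((ZMod.stdAddChar (l * j) : ℂ) *
          ((p : ℂ)⁻¹ * (ZMod.stdAddChar (-(l * k)) : ℂ))) *
          MvPolynomial.X (e (Sum.inl (b, k))) := by
      intro l
      rw [map_mul, MvPolynomial.aeval_X, Lb_inl, MvPolynomial.aeval_C, Finset.mul_sum]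
      refine Finset.sum_congr rfl (fun k _ => ?_)
      rw [MvPolynomial.algebraMap_eq, ← mul_assoc, ← MvPolynomial.C_mul]
    rw [Finset.sum_congr rfl (fun l _ => h1 l), Finset.sum_comm]
    have h2 : ∀ k : ZMod p, ∑ l : ZMod p, MvPolynomial.C ((ZMod.stdAddChar (l * j) : ℂ) *
          ((p : ℂ)⁻¹ * (ZMod.stdAddChar (-(l * k)) : ℂ))) *
          MvPolynomial.X (e (Sum.inl (b, k))) =
        MvPolynomial.C (if j = k then (1 : ℂ) else 0) * MvPolynomial.X (e (Sum.inl (b, k))) := by
      intro k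
      rw [← Finset.sum_mul, ← map_sum, four]
    rw [Finset.sum_congr rfl (fun k _ => h2 k), Finset.sum_eq_single j]
    · simp
    · intro k _ hk
      simp [Ne.symm hk]
    · intro h
      exact absurd (Finset.mem_univ j) h
  · rw [Lf_inr, MvPolynomial.aeval_X, Lb_inr]

end Fourier

end XInv

theorem prf_Inv (h : StMon) : StInv := by
  intro n p hp
  have hcard : Fintype.card (XInv.Sg (n / p) p (n % p)) = Fintype.card (Fin n) := by
    simp only [Fintype.card_sum, Fintype.card_prod, Fintype.card_fin, ZMod.card]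
    rw [mul_comm]
    exact Nat.div_add_mod n p
  let e : XInv.Sg (n / p) p (n % p) ≃ Fin n := Fintype.equivOfCardEq hcard
  obtain ⟨A, hA1, hA2⟩ := h n
  obtain ⟨θ, hθ⟩ := XInv.exists_ext n (XInv.Lf n (n / p) p (n % p) e)
    (XInv.Lb n (n / p) p (n % p) e) (XInv.left_inv n (n / p) p (n % p) e)
  refine ⟨XInv.shHom n (n / p) p (n % p) e, A.comap (θ : RF n →+* RF n),
    XInv.shHom_inj n (n / p) p (n % p) e, ⟨?_, ?_⟩, ?_⟩
  · intro c
    rw [ValuationSubring.mem_comap]
    have : (θ : RF n →+* RF n) (algebraMap ℂ (RF n) c) = algebraMap ℂ (RF n) c := θ.commutes c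
    rw [this]
    exact hA1.1 c
  · intro y hy
    rw [ValuationSubring.mem_comap] at hy
    obtain ⟨c, hc⟩ := hA1.2 _ hy
    refine ⟨c, ?_⟩
    rw [XInv.comap_nonunits, map_sub]
    have : (θ : RF n →+* RF n) (algebraMap ℂ (RF n) c) = algebraMap ℂ (RF n) c := θ.commutes c
    rw [this]
    exact hc
  · intro v φ hφ x
    -- diagonal map
    let c : Fin n → ℂ := fun i => Sum.elim (fun s : Fin (n / p) × ZMod p =>
      (ZMod.stdAddChar (s.2 * v.toAdd s.1) : ℂ)) (fun _ => 1) (e.symm i)
    have hc : ∀ i, c i ≠ 0 := by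
      intro i
      obtain ⟨s, rfl⟩ := e.surjective i
      simp only [c, Equiv.symm_apply_apply]
      rcases s with s | s
      · simp only [Sum.elim_inl]
        intro h0
        have h1 := AddChar.map_add_eq_mul (ZMod.stdAddChar (N := p)) (s.2 * v.toAdd s.1)
          (-(s.2 * v.toAdd s.1))
        rw [add_neg_cancel, AddChar.map_zero_eq_one, h0, zero_mul] at h1
        exact one_ne_zero h1
      · simp
    obtain ⟨ψ, hψ⟩ := XInv.exists_ext n
      (fun i => MvPolynomial.C (c i) * MvPolynomial.X i)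
      (fun i => MvPolynomial.C (c i)⁻¹ * MvPolynomial.X i) (by
        intro i
        rw [map_mul, MvPolynomial.aeval_X, MvPolynomial.aeval_C, MvPolynomial.algebraMap_eq,
          ← mul_assoc, ← MvPolynomial.C_mul, mul_inv_cancel₀ (hc i), MvPolynomial.C_1, one_mul])
    have hC : ∀ a : ℂ, algebraMap (MvPolynomial (Fin n) ℂ) (RF n) (MvPolynomial.C a) =
        algebraMap ℂ (RF n) a := by
      intro a
      rw [IsScalarTower.algebraMap_apply ℂ (MvPolynomial (Fin n) ℂ) (RF n)]
      rfl
    have hCX : ∀ (a : ℂ) (i : Fin n), algebraMap (MvPolynomial (Fin n) ℂ) (RF n)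
        (MvPolynomial.C a * MvPolynomial.X i) = algebraMap ℂ (RF n) a * xv n i := by
      intro a i
      rw [map_mul, hC]
      rfl
    have hψ2 : ∀ i, ψ (xv n i) = c i • xv n i := by
      intro i
      rw [hψ i, map_mul, hC, Algebra.smul_def]
      rfl
    have hkey : θ.comp φ = ψ.comp θ := by
      apply XInv.hom_ext
      intro i
      obtain ⟨s, rfl⟩ := e.surjective i
      rw [AlgHom.comp_apply, AlgHom.comp_apply, hφ]
      rcases s with ⟨b, j⟩ | s
      · rw [XInv.shHom_inl, hθ, hθ, XInv.Lf_inl, XInv.Lf_inl, map_sum, map_sum, map_sum]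
        refine Finset.sum_congr rfl (fun l _ => ?_)
        rw [hCX, hCX, map_mul ψ, AlgHom.commutes, hψ2, Algebra.smul_def, ← mul_assoc, ← map_mul]
        congr 2
        simp only [c, Equiv.symm_apply_apply, Sum.elim_inl]
        rw [mul_add, AddChar.map_add_eq_mul]
      · rw [XInv.shHom_inr, hθ, XInv.Lf_inr]
        have h3 : ψ (algebraMap (MvPolynomial (Fin n) ℂ) (RF n)
            (MvPolynomial.X (e (Sum.inr s)))) = c (e (Sum.inr s)) •
            algebraMap (MvPolynomial (Fin n) ℂ) (RF n) (MvPolynomial.X (e (Sum.inr s))) :=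
          hψ2 _
        rw [h3]
        simp [c]
    have h4 : ∀ y, θ (φ y) = ψ (θ y) := fun y => AlgHom.congr_fun hkey y
    rw [ValuationSubring.mem_comap, ValuationSubring.mem_comap]
    have h5 := hA2 c hc ψ hψ2 (θ x)
    rw [← h4 x] at h5
    exact h5

end

end Pool.Agent.Sextic
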