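import Pool.Agent.Work.MP_8e3fb2_ag.VT.Stmts

set_option autoImplicit false

/-! # The monomial valuation ring of the field of rational functions -/

namespace Pool.Agent.Sextic

namespace XMon

noncomputable section

open MvPolynomial

variable {n : ℕ}

/-- the leading exponent -/
def dg (f : MvPolynomial (Fin n) ℂ) : (MonomialOrder.lex (σ := Fin n)).syn :=
  (MonomialOrder.lex (σ := Fin n)).toSyn ((MonomialOrder.lex (σ := Fin n)).degree f)

theorem dg_mul {f g : MvPolynomial (Fin n) ℂ} (hf : f ≠ 0) (hg : g ≠ 0) :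
    dg (f * g) = dg f + dg g := by
  unfold dg
  rw [MonomialOrder.degree_mul hf hg, map_add]

theorem dg_add (f g : MvPolynomial (Fin n) ℂ) : dg (f + g) ≤ max (dg f) (dg g) :=
  MonomialOrder.degree_add_le (m := MonomialOrder.lex (σ := Fin n))

/-- `f / g` belongs to the ring -/
def D (f g : MvPolynomial (Fin n) ℂ) : Prop := f = 0 ∨ dg f ≤ dg g

theorem D_wd {f g f' g' : MvPolynomial (Fin n) ℂ} (hg : g ≠ 0) (hg' : g' ≠ 0)
    (h : f * g' = f' * g) (hD : D f g) : D f' g' := by
  by_cases hf : f' = 0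
  · exact Or.inl hf
  · right
    have hf0 : f ≠ 0 := by
      rintro rfl
      rw [zero_mul] at h
      exact (mul_ne_zero hf hg) h.symm
    have h1 : dg f ≤ dg g := hD.resolve_left hf0
    have h2 : dg f + dg g' = dg f' + dg g := by
      rw [← dg_mul hf0 hg', ← dg_mul hf hg, h]
    by_contra h3
    rw [not_le] at h3
    have h4 := add_lt_add_of_le_of_lt h1 h3
    rw [h2, add_comm] at h4
    exact lt_irrefl _ h4

/-- membership -/
def M (x : RF n) : Prop := ∃ f g : MvPolynomial (Fin n) ℂ, g ≠ 0 ∧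
  x = algebraMap (MvPolynomial (Fin n) ℂ) (RF n) f / algebraMap (MvPolynomial (Fin n) ℂ) (RF n) g ∧
  D f g

theorem al_ne {g : MvPolynomial (Fin n) ℂ} (hg : g ≠ 0) :
    algebraMap (MvPolynomial (Fin n) ℂ) (RF n) g ≠ 0 := by
  rw [Ne, FaithfulSMul.algebraMap_eq_zero_iff]
  exact hg

theorem M_iff {f g : MvPolynomial (Fin n) ℂ} (hg : g ≠ 0) :
    M (algebraMap (MvPolynomial (Fin n) ℂ) (RF n) f /
      algebraMap (MvPolynomial (Fin n) ℂ) (RF n) g) ↔ D f g := by
  constructor
  · rintro ⟨f', g', hg', h, hD⟩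
    rw [div_eq_div_iff (al_ne hg) (al_ne hg'), ← map_mul, ← map_mul] at h
    exact D_wd hg' hg ((FaithfulSMul.algebraMap_injective _ (RF n)) h).symm hD
  · intro hD
    exact ⟨f, g, hg, rfl, hD⟩

theorem surj (x : RF n) : ∃ f g : MvPolynomial (Fin n) ℂ, g ≠ 0 ∧
    x = algebraMap (MvPolynomial (Fin n) ℂ) (RF n) f /
      algebraMap (MvPolynomial (Fin n) ℂ) (RF n) g := by
  obtain ⟨f, g, hg, h⟩ := IsFractionRing.div_surjective (A := MvPolynomial (Fin n) ℂ) x
  exact ⟨f, g, nonZeroDivisors.ne_zero hg, h.symm⟩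

/-- the valuation ring -/
def ring (n : ℕ) : ValuationSubring (RF n) where
  carrier := {x | M x}
  mul_mem' := by
    rintro x y ⟨f, g, hg, rfl, hD⟩ ⟨f', g', hg', rfl, hD'⟩
    refine ⟨f * f', g * g', mul_ne_zero hg hg', ?_, ?_⟩
    · rw [div_mul_div_comm, map_mul, map_mul]
    · by_cases h1 : f = 0
      · left; rw [h1, zero_mul]
      by_cases h2 : f' = 0
      · left; rw [h2, mul_zero]
      right
      rw [dg_mul h1 h2, dg_mul hg hg']
      exact add_le_add (hD.resolve_left h1) (hD'.resolve_left h2)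
  one_mem' := ⟨1, 1, one_ne_zero, by simp, Or.inr le_rfl⟩
  add_mem' := by
    rintro x y ⟨f, g, hg, rfl, hD⟩ ⟨f', g', hg', rfl, hD'⟩
    refine ⟨f * g' + g * f', g * g', mul_ne_zero hg hg', ?_, ?_⟩
    · rw [div_add_div _ _ (al_ne hg) (al_ne hg'), map_add, map_mul, map_mul, map_mul]
    · by_cases h1 : f = 0
      · by_cases h2 : f' = 0
        · left; rw [h1, h2, zero_mul, mul_zero, add_zero]
        · right
          rw [h1, zero_mul, zero_add, dg_mul hg h2, dg_mul hg hg']
          exact add_le_add le_rfl (hD'.resolve_left h2)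
      · by_cases h2 : f' = 0
        · right
          rw [h2, mul_zero, add_zero, dg_mul h1 hg', dg_mul hg hg']
          exact add_le_add (hD.resolve_left h1) le_rfl
        · right
          refine (dg_add _ _).trans (max_le ?_ ?_)
          · rw [dg_mul h1 hg', dg_mul hg hg']
            exact add_le_add (hD.resolve_left h1) le_rfl
          · rw [dg_mul hg h2, dg_mul hg hg']
            exact add_le_add le_rfl (hD'.resolve_left h2)
  zero_mem' := ⟨0, 1, one_ne_zero, by simp, Or.inl rfl⟩
  neg_mem' := by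
    rintro x ⟨f, g, hg, rfl, hD⟩
    refine ⟨-f, g, hg, by rw [map_neg, neg_div'], ?_⟩
    rcases hD with h | h
    · left; rw [h, neg_zero]
    · right
      have : dg (-f) = dg f := by
        by_cases hf : f = 0
        · rw [hf, neg_zero]
        have h1 : dg (C (-1 : ℂ) * f) = dg (C (-1 : ℂ) : MvPolynomial (Fin n) ℂ) + dg f :=
          dg_mul (by rw [Ne, C_eq_zero]; norm_num) hf
        have h2 : dg (C (-1 : ℂ) : MvPolynomial (Fin n) ℂ) = 0 := by
          unfold dg
          rw [MonomialOrder.degree_C, map_zero]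
        rw [h2, zero_add] at h1
        rw [← h1]
        congr 1
        simp
      rw [this]
      exact h
  mem_or_inv_mem' := by
    intro x
    obtain ⟨f, g, hg, rfl⟩ := surj x
    by_cases hf : f = 0
    · left
      exact ⟨f, g, hg, rfl, Or.inl hf⟩
    rcases le_total (dg f) (dg g) with h | h
    · exact Or.inl ⟨f, g, hg, rfl, Or.inr h⟩
    · exact Or.inr ⟨g, f, hf, by rw [inv_div], Or.inr h⟩

theorem mem_ring (x : RF n) : x ∈ ring n ↔ M x := Iff.rfl

/-- small fractions are nonunits -/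
theorem small {f g : MvPolynomial (Fin n) ℂ} (hg : g ≠ 0) (h : f = 0 ∨ dg f < dg g) :
    algebraMap (MvPolynomial (Fin n) ℂ) (RF n) f /
      algebraMap (MvPolynomial (Fin n) ℂ) (RF n) g ∈ (ring n).nonunits := by
  rw [ValuationSubring.mem_nonunits_iff_or]
  by_cases hf : f = 0
  · left; rw [hf, map_zero, zero_div]
  right
  rw [inv_div, mem_ring, M_iff hf]
  rintro (h1 | h1)
  · exact hg h1
  · exact absurd h1 (not_le.2 (h.resolve_left hf))

theorem alC (c : ℂ) : algebraMap ℂ (RF n) c =
    algebraMap (MvPolynomial (Fin n) ℂ) (RF n) (C c) := by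
  rw [IsScalarTower.algebraMap_apply ℂ (MvPolynomial (Fin n) ℂ) (RF n), MvPolynomial.algebraMap_eq]

theorem dgC (c : ℂ) : dg (C c : MvPolynomial (Fin n) ℂ) = 0 := by
  unfold dg
  rw [MonomialOrder.degree_C, map_zero]

theorem resC (n : ℕ) : ResC (ring n) := by
  constructor
  · intro c
    refine ⟨C c, 1, one_ne_zero, by rw [alC, map_one, div_one], Or.inr ?_⟩
    have h1 : dg (1 : MvPolynomial (Fin n) ℂ) = 0 := by
      have := dgC (n := n) 1
      rwa [C_1] at this
    rw [dgC, h1]
  · intro y hy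
    obtain ⟨f, g, hg, rfl, hD⟩ := hy
    by_cases hf : f = 0
    · refine ⟨0, ?_⟩
      rw [map_zero, sub_zero]
      exact small hg (Or.inl hf)
    rcases (hD.resolve_left hf).lt_or_eq with h | h
    · refine ⟨0, ?_⟩
      rw [map_zero, sub_zero]
      exact small hg (Or.inr h)
    · set L := MonomialOrder.lex (σ := Fin n) with hL
      refine ⟨L.leadingCoeff f / L.leadingCoeff g, ?_⟩
      have hlg : L.leadingCoeff g ≠ 0 := L.leadingCoeff_ne_zero_iff.2 hg
      set c := L.leadingCoeff f / L.leadingCoeff g with hc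
      have e : algebraMap (MvPolynomial (Fin n) ℂ) (RF n) f /
          algebraMap (MvPolynomial (Fin n) ℂ) (RF n) g - algebraMap ℂ (RF n) c =
          algebraMap (MvPolynomial (Fin n) ℂ) (RF n) (f - C c * g) /
          algebraMap (MvPolynomial (Fin n) ℂ) (RF n) g := by
        rw [alC, map_sub, map_mul, sub_div, mul_div_cancel_right₀ _ (al_ne hg)]
      rw [e]
      apply small hg
      by_cases h0 : f - C c * g = 0
      · exact Or.inl h0
      right
      have hfg : L.degree f = L.degree g := L.toSyn.injective h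
      have hle : dg (f - C c * g) ≤ dg g := by
        have h1 : f - C c * g = f + C (-c) * g := by rw [map_neg]; ring
        rw [h1]
        refine (dg_add _ _).trans (max_le h.le ?_)
        by_cases hc0 : c = 0
        · rw [hc0, neg_zero, map_zero, zero_mul]
          have : dg (0 : MvPolynomial (Fin n) ℂ) = 0 := by
            unfold dg
            rw [MonomialOrder.degree_zero, map_zero]
          rw [this]
          exact MonomialOrder.zero_le _ _
        · rw [dg_mul (by rw [Ne, C_eq_zero, neg_eq_zero]; exact hc0) hg, dgC, zero_add]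
      refine lt_of_le_of_ne hle ?_
      intro h2
      have h3 : L.degree (f - C c * g) = L.degree g := L.toSyn.injective h2
      have h4 : (f - C c * g).coeff (L.degree (f - C c * g)) ≠ 0 :=
        L.coeff_degree_ne_zero_iff.2 h0
      apply h4
      rw [h3, coeff_sub, coeff_C_mul]
      have h5 : f.coeff (L.degree g) = L.leadingCoeff f := by rw [← hfg]; rfl
      have h6 : g.coeff (L.degree g) = L.leadingCoeff g := rfl
      rw [h5, h6, hc, div_mul_cancel₀ _ hlg, sub_self]

/-- the scaling of the variables -/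
def th (c : Fin n → ℂ) : MvPolynomial (Fin n) ℂ →ₐ[ℂ] MvPolynomial (Fin n) ℂ :=
  aeval fun i => C (c i) * X i

theorem th_monomial (c : Fin n → ℂ) (t : Fin n →₀ ℕ) (a : ℂ) :
    th c (monomial t a) = monomial t (a * ∏ i, c i ^ t i) := by
  unfold th
  rw [aeval_monomial, MvPolynomial.algebraMap_eq, Finsupp.prod_fintype _ _ (fun i => pow_zero _)]
  simp_rw [mul_pow]
  rw [Finset.prod_mul_distrib, ← mul_assoc]
  have h1 : (∏ i : Fin n, (C (c i) : MvPolynomial (Fin n) ℂ) ^ t i) = C (∏ i, c i ^ t i) := by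
    rw [map_prod]
    exact Finset.prod_congr rfl fun i _ => (C_pow _ _).symm
  have h2 : (∏ i : Fin n, (X i : MvPolynomial (Fin n) ℂ) ^ t i) = monomial t 1 := by
    rw [monomial_eq, C_1, one_mul, Finsupp.prod_fintype _ _ (fun i => pow_zero _)]
  rw [h1, h2, ← C_mul, C_mul_monomial, mul_one]

theorem coeff_th (c : Fin n → ℂ) (f : MvPolynomial (Fin n) ℂ) (s : Fin n →₀ ℕ) :
    (th c f).coeff s = f.coeff s * ∏ i, c i ^ s i := by
  induction f using MvPolynomial.induction_on' with
  | monomial t a =>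
    rw [th_monomial, coeff_monomial, coeff_monomial]
    split_ifs with h
    · rw [h]
    · rw [zero_mul]
  | add p q hp hq => rw [map_add, coeff_add, coeff_add, hp, hq, add_mul]

theorem th_ne {c : Fin n → ℂ} (hc : ∀ i, c i ≠ 0) (f : MvPolynomial (Fin n) ℂ) (s : Fin n →₀ ℕ) :
    (th c f).coeff s = 0 ↔ f.coeff s = 0 := by
  rw [coeff_th, mul_eq_zero, or_iff_left]
  exact Finset.prod_ne_zero_iff.2 fun i _ => pow_ne_zero _ (hc i)

theorem th_zero {c : Fin n → ℂ} (hc : ∀ i, c i ≠ 0) (f : MvPolynomial (Fin n) ℂ) :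
    th c f = 0 ↔ f = 0 := by
  constructor
  · intro h
    ext s
    have := (th_ne hc f s).1 (by rw [h, coeff_zero])
    rw [this, coeff_zero]
  · rintro rfl
    exact map_zero _

theorem th_dg {c : Fin n → ℂ} (hc : ∀ i, c i ≠ 0) (f : MvPolynomial (Fin n) ℂ) :
    dg (th c f) = dg f := by
  have h : (th c f).support = f.support := by
    ext s
    rw [mem_support_iff, mem_support_iff, Ne, th_ne hc]
  unfold dg MonomialOrder.degree
  rw [h]

theorem th_D {c : Fin n → ℂ} (hc : ∀ i, c i ≠ 0) (f g : MvPolynomial (Fin n) ℂ) :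
    D (th c f) (th c g) ↔ D f g := by
  unfold D
  rw [th_zero hc, th_dg hc, th_dg hc]

theorem phi_al (c : Fin n → ℂ) (φ : RF n →ₐ[ℂ] RF n) (hφ : ∀ i, φ (xv n i) = c i • xv n i)
    (f : MvPolynomial (Fin n) ℂ) : φ (algebraMap (MvPolynomial (Fin n) ℂ) (RF n) f) =
      algebraMap (MvPolynomial (Fin n) ℂ) (RF n) (th c f) := by
  have h : φ.comp (IsScalarTower.toAlgHom ℂ (MvPolynomial (Fin n) ℂ) (RF n)) =
      (IsScalarTower.toAlgHom ℂ (MvPolynomial (Fin n) ℂ) (RF n)).comp (th c) := by
    apply MvPolynomial.algHom_ext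
    intro i
    have h1 : φ (algebraMap (MvPolynomial (Fin n) ℂ) (RF n) (X i)) =
        c i • algebraMap (MvPolynomial (Fin n) ℂ) (RF n) (X i) := hφ i
    have h2 : th c (X i) = C (c i) * X i := by unfold th; rw [aeval_X]
    rw [AlgHom.comp_apply, AlgHom.comp_apply, IsScalarTower.toAlgHom_apply,
      IsScalarTower.toAlgHom_apply, h1, h2, map_mul, ← alC, Algebra.smul_def]
  exact DFunLike.congr_fun h f

end

end XMon

open XMon in
theorem prf_Mon : StMon := by
  intro n
  refine ⟨ring n, resC n, ?_⟩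
  intro c hc φ hφ x
  obtain ⟨f, g, hg, rfl⟩ := surj x
  rw [map_div₀, phi_al c φ hφ, phi_al c φ hφ, mem_ring, mem_ring, M_iff hg,
    M_iff (fun h => hg ((th_zero hc g).1 h)), th_D hc]

end Pool.Agent.Sextic
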