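import Pool.Agent.Work.MP_8e3fb2_ag.VT.Stmts

set_option autoImplicit false

/-!
Item Rank of the block VT. Independence is taken modulo `p`-th powers of elements of `E`:
`V.valuation (∏ y_i ^ e_i) = V.valuation (w ^ p)` with `w ∈ E`, `w ≠ 0` implies `p ∣ e_i`.
-/

namespace Pool.Agent.Sextic

noncomputable section

namespace XRank

open scoped Classical

variable {Ω : Type} [Field Ω] [Algebra ℂ Ω]

/-- Nonzero constants have valuation one. -/
theorem val_const (V : ValuationSubring Ω) (hV : ResC V) {c : ℂ} (hc : c ≠ 0) :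
    V.valuation (algebraMap ℂ Ω c) = 1 := by
  have h1 : V.valuation (algebraMap ℂ Ω c) ≤ 1 := (V.valuation_le_one_iff _).2 (hV.1 c)
  have h2 : V.valuation (algebraMap ℂ Ω c⁻¹) ≤ 1 := (V.valuation_le_one_iff _).2 (hV.1 _)
  refine le_antisymm h1 ?_
  have h3 : V.valuation (algebraMap ℂ Ω c) * V.valuation (algebraMap ℂ Ω c⁻¹) = 1 := by
    rw [← map_mul, ← map_mul, mul_inv_cancel₀ hc, map_one, map_one]
  calc (1 : V.ValueGroup) = V.valuation (algebraMap ℂ Ω c) * V.valuation (algebraMap ℂ Ω c⁻¹) :=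
        h3.symm
    _ ≤ V.valuation (algebraMap ℂ Ω c) * 1 := by gcongr
    _ = _ := mul_one _

/-- An algebraically dependent family of nonzero elements has a nontrivial monomial of
valuation one. -/
theorem exists_rel (V : ValuationSubring Ω) (hV : ResC V) {m : ℕ} (y : Fin m → Ω)
    (hy : ∀ i, y i ≠ 0) (h : ¬ AlgebraicIndependent ℂ y) :
    ∃ e : Fin m → ℤ, e ≠ 0 ∧ V.valuation (∏ i, y i ^ e i) = 1 := by
  rw [algebraicIndependent_iff] at h
  push Not at h
  obtain ⟨q, hq, hq0⟩ := h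
  rw [MvPolynomial.aeval_def, MvPolynomial.eval₂_eq'] at hq
  have hval : ∀ s ∈ q.support, V.valuation (algebraMap ℂ Ω (q.coeff s) * ∏ i, y i ^ s i) =
      V.valuation (∏ i, y i ^ s i) := by
    intro s hs
    rw [map_mul, val_const V hV (MvPolynomial.mem_support_iff.1 hs), one_mul]
  by_cases hinj : ∀ s ∈ q.support, ∀ s' ∈ q.support,
      V.valuation (∏ i, y i ^ s i) = V.valuation (∏ i, y i ^ s' i) → s = s'
  · exfalso
    have hne : q.support.Nonempty := MvPolynomial.support_nonempty.2 hq0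
    obtain ⟨s₀, hs₀, hmax⟩ := Finset.exists_max_image q.support
      (fun s => V.valuation (∏ i, y i ^ s i)) hne
    have hprod : (∏ i, y i ^ s₀ i) ≠ 0 := Finset.prod_ne_zero_iff.2 fun i _ => pow_ne_zero _ (hy i)
    have hv0 : V.valuation (∏ i, y i ^ s₀ i) ≠ 0 := (Valuation.ne_zero_iff _).2 hprod
    have hlt : V.valuation (∑ s ∈ q.support.erase s₀,
        algebraMap ℂ Ω (q.coeff s) * ∏ i, y i ^ s i) <
        V.valuation (algebraMap ℂ Ω (q.coeff s₀) * ∏ i, y i ^ s₀ i) := by
      rw [hval s₀ hs₀]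
      apply Valuation.map_sum_lt _ hv0
      intro s hs
      have hs' := Finset.mem_of_mem_erase hs
      rw [hval s hs']
      refine lt_of_le_of_ne (hmax s hs') fun h => ?_
      exact Finset.ne_of_mem_erase hs (hinj s hs' s₀ hs₀ h)
    rw [← Finset.add_sum_erase _ _ hs₀] at hq
    have h1 := Valuation.map_add_eq_of_lt_left _ hlt
    rw [hq, map_zero, hval s₀ hs₀] at h1
    exact hv0 h1.symm
  · push Not at hinj
    obtain ⟨s, hs, s', hs', heq, hne⟩ := hinj
    refine ⟨fun i => (s i : ℤ) - (s' i : ℤ), ?_, ?_⟩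
    · intro h0
      apply hne
      ext i
      have := congrFun h0 i
      simp only [Pi.zero_apply] at this
      omega
    · have h1 : (∏ i, y i ^ ((s i : ℤ) - (s' i : ℤ))) =
          (∏ i, y i ^ s i) / ∏ i, y i ^ s' i := by
        rw [← Finset.prod_div_distrib]
        refine Finset.prod_congr rfl fun i _ => ?_
        rw [zpow_sub₀ (hy i), zpow_natCast, zpow_natCast]
      rw [h1, map_div₀, heq]
      exact div_self ((Valuation.ne_zero_iff _).2
        (Finset.prod_ne_zero_iff.2 fun i _ => pow_ne_zero _ (hy i)))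

omit [Algebra ℂ Ω] in
/-- Dividing the exponents by `p` as long as possible. -/
theorem descent (V : ValuationSubring Ω) {m : ℕ} (y : Fin m → Ω) {p : ℕ}
    (hp : p.Prime) : ∀ (N : ℕ) (e : Fin m → ℤ), e ≠ 0 → (∑ i, (e i).natAbs) ≤ N →
    V.valuation (∏ i, y i ^ e i) = 1 →
    ∃ e' : Fin m → ℤ, V.valuation (∏ i, y i ^ e' i) = 1 ∧ ∃ i, ¬ (p : ℤ) ∣ e' i := by
  intro N
  induction N with
  | zero =>
    intro e he hN _
    exfalso
    apply he
    funext i
    have := (Finset.sum_eq_zero_iff.1 (Nat.le_zero.1 hN)) i (Finset.mem_univ i)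
    simpa using this
  | succ N ih =>
    intro e he hN hv
    by_cases hall : ∀ i, (p : ℤ) ∣ e i
    · choose k hk using hall
      have hk0 : k ≠ 0 := by
        rintro rfl
        apply he
        funext i
        simpa using hk i
      have hlt : (∑ i, (k i).natAbs) < ∑ i, (e i).natAbs := by
        obtain ⟨i, hi⟩ := Function.ne_iff.1 hk0
        refine Finset.sum_lt_sum (fun j _ => ?_) ⟨i, Finset.mem_univ i, ?_⟩
        · rw [hk j, Int.natAbs_mul, Int.natAbs_natCast]
          exact Nat.le_mul_of_pos_left _ hp.pos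
        · rw [hk i, Int.natAbs_mul, Int.natAbs_natCast]
          have : 0 < (k i).natAbs := Int.natAbs_pos.2 hi
          nlinarith [hp.two_le]
      refine ih k hk0 (by omega) ?_
      have h1 : (∏ i, y i ^ e i) = (∏ i, y i ^ k i) ^ p := by
        rw [← Finset.prod_pow]
        refine Finset.prod_congr rfl fun i _ => ?_
        rw [hk i, mul_comm, zpow_mul, zpow_natCast]
      rw [h1, map_pow] at hv
      exact (pow_eq_one_iff_of_nonneg zero_le hp.ne_zero).1 hv
    · push Not at hall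
      exact ⟨e, hv, hall⟩

/-- Independence modulo `p`-th powers of elements of `E`. -/
def Indep (V : ValuationSubring Ω) (E : IntermediateField ℂ Ω) (p m : ℕ) (y : Fin m → Ω) : Prop :=
  (∀ i, y i ∈ E ∧ y i ≠ 0) ∧ ∀ (e : Fin m → ℤ) (w : Ω), w ∈ E → w ≠ 0 →
    V.valuation (∏ i, y i ^ e i) = V.valuation (w ^ p) → ∀ i, (p : ℤ) ∣ e i

theorem indep_le (V : ValuationSubring Ω) (hV : ResC V) (E : IntermediateField ℂ Ω) {d p m : ℕ}
    (hp : p.Prime) (hd : Algebra.trdeg ℂ E ≤ d) (y : Fin m → Ω) (hy : Indep V E p m y) :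
    m ≤ d := by
  have hind : AlgebraicIndependent ℂ y := by
    by_contra hcon
    obtain ⟨e, he, hv⟩ := exists_rel V hV y (fun i => (hy.1 i).2) hcon
    obtain ⟨e', hv', i, hi⟩ := descent V y hp _ e he le_rfl hv
    exact hi (hy.2 e' 1 E.one_mem one_ne_zero (by rw [hv', one_pow, map_one]) i)
  have hind' : AlgebraicIndependent ℂ (fun i : Fin m => (⟨y i, (hy.1 i).1⟩ : E)) := by
    refine AlgebraicIndependent.of_comp E.val ?_
    exact hind
  have h1 := hind'.cardinalMk_le_trdeg
  rw [Cardinal.mk_fin] at h1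
  exact_mod_cast h1.trans hd

end XRank

open XRank in
theorem prf_Rank : StRank := by
  intro Ω _ _ V hV E d p hp hd
  classical
  -- a maximal family
  obtain ⟨m, ⟨y, hy⟩, hmax⟩ : ∃ m, (∃ y : Fin m → Ω, Indep V E p m y) ∧
      ¬ ∃ y : Fin (m + 1) → Ω, Indep V E p (m + 1) y := by
    by_contra hcon
    push Not at hcon
    have hall : ∀ m, ∃ y : Fin m → Ω, Indep V E p m y := by
      intro m
      induction m with
      | zero => exact ⟨Fin.elim0, fun i => i.elim0, fun e w _ _ _ i => i.elim0⟩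
      | succ m ih => exact hcon m ih
    obtain ⟨y, hy⟩ := hall (d + 1)
    exact absurd (indep_le V hV E hp hd y hy) (by omega)
  have hmd : m ≤ d := indep_le V hV E hp hd y hy
  obtain ⟨l, rfl⟩ := Nat.exists_eq_add_of_le hmd
  refine ⟨Fin.append y (fun _ => 1), ?_, ?_⟩
  · intro i
    refine Fin.addCases (fun j => ?_) (fun j => ?_) i
    · rw [Fin.append_left]; exact hy.1 j
    · rw [Fin.append_right]; exact ⟨E.one_mem, one_ne_zero⟩
  · intro x hx hx0
    have hyx : ¬ Indep V E p (m + 1) (Fin.cons x y) := fun h => hmax ⟨_, h⟩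
    have hmem : ∀ i, (Fin.cons x y : Fin (m + 1) → Ω) i ∈ E ∧
        (Fin.cons x y : Fin (m + 1) → Ω) i ≠ 0 := by
      intro i
      refine Fin.cases ?_ (fun j => ?_) i
      · exact ⟨hx, hx0⟩
      · exact hy.1 j
    have hyx' : ∃ (e : Fin (m + 1) → ℤ) (w : Ω), w ∈ E ∧ w ≠ 0 ∧
        V.valuation (∏ i, (Fin.cons x y : Fin (m + 1) → Ω) i ^ e i) = V.valuation (w ^ p) ∧
        ∃ i, ¬ (p : ℤ) ∣ e i := by
      by_contra hcon
      push Not at hcon
      exact hyx ⟨hmem, hcon⟩
    obtain ⟨e, w, hwE, hw0, hv, i₀, hi₀⟩ := hyx'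
    rw [Fin.prod_univ_succ] at hv
    simp only [Fin.cons_zero, Fin.cons_succ] at hv
    have hPE : (∏ i, y i ^ e i.succ) ∈ E := prod_mem fun i _ => zpow_mem (hy.1 i).1 _
    have hP0 : (∏ i, y i ^ e i.succ) ≠ 0 :=
      Finset.prod_ne_zero_iff.2 fun i _ => zpow_ne_zero _ (hy.1 i).2
    -- the exponent of `x` is prime to `p`
    have hk : ¬ (p : ℤ) ∣ e 0 := by
      rintro ⟨k, hk⟩
      have h1 := hy.2 (fun i => e i.succ) (w * x ^ (-k)) (E.mul_mem hwE (zpow_mem hx _))
        (mul_ne_zero hw0 (zpow_ne_zero _ hx0)) (by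
          have hxp : x ^ e 0 * (x ^ (-k)) ^ p = 1 := by
            rw [hk, ← zpow_natCast, ← zpow_mul, ← zpow_add₀ hx0]
            have : (p : ℤ) * k + -k * (p : ℤ) = 0 := by ring
            rw [this, zpow_zero]
          have : (∏ i, y i ^ e i.succ) = (x ^ e 0 * ∏ i, y i ^ e i.succ) * (x ^ (-k)) ^ p := by
            calc (∏ i, y i ^ e i.succ) = (x ^ e 0 * (x ^ (-k)) ^ p) * ∏ i, y i ^ e i.succ := by
                  rw [hxp, one_mul]
              _ = _ := by ring
          rw [this, map_mul, hv, ← map_mul, mul_pow])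
      revert hi₀
      refine Fin.cases ?_ (fun j => ?_) i₀
      · intro h; exact h ⟨k, hk⟩
      · intro h; exact h (h1 j)
    have hcop : IsCoprime (e 0) (p : ℤ) := by
      rw [isCoprime_comm]
      exact (Nat.prime_iff_prime_int.1 hp).coprime_iff_not_dvd.2 hk
    obtain ⟨a, b, hab⟩ := hcop
    -- `a * e 0 + b * p = 1`
    set u : Ω := (x ^ e 0 * ∏ i, y i ^ e i.succ) / w ^ p with hu
    have huE : u ∈ E := E.div_mem (E.mul_mem (zpow_mem hx _) hPE) (_root_.pow_mem hwE _)
    have hwp : w ^ p ≠ 0 := pow_ne_zero _ hw0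
    have huv : V.valuation u = 1 := by
      rw [hu, map_div₀, hv]
      exact div_self ((Valuation.ne_zero_iff _).2 hwp)
    refine ⟨Fin.append (fun i => -(e i.succ) * a) (fun _ => 0), w ^ a * x ^ b, u ^ a, ?_, ?_, ?_, ?_⟩
    · exact E.mul_mem (zpow_mem hwE _) (zpow_mem hx _)
    · exact zpow_mem huE _
    · rw [map_zpow₀, huv, one_zpow]
    · rw [Fin.prod_univ_add]
      simp only [Fin.append_left, Fin.append_right, one_zpow, Finset.prod_const_one, mul_one]
      have h1 : (∏ i, y i ^ (-(e i.succ) * a)) = (∏ i, y i ^ e i.succ) ^ (-a) := by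
        rw [← Finset.prod_zpow]
        refine Finset.prod_congr rfl fun i _ => ?_
        rw [← zpow_mul]
        congr 1
        ring
      have h2 : x ^ e 0 = u * w ^ p * (∏ i, y i ^ e i.succ)⁻¹ := by
        rw [hu]
        field_simp
      have h3 : x = (x ^ e 0) ^ a * (x ^ b) ^ p := by
        rw [← zpow_mul, ← zpow_natCast (x ^ b), ← zpow_mul, ← zpow_add₀ hx0]
        have : e 0 * a + b * (p : ℤ) = 1 := by rw [mul_comm (e 0)]; exact hab
        rw [this, zpow_one]
      rw [h1]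
      calc x = (x ^ e 0) ^ a * (x ^ b) ^ p := h3
        _ = (u * w ^ p * (∏ i, y i ^ e i.succ)⁻¹) ^ a * (x ^ b) ^ p := by rw [h2]
        _ = u ^ a * (w ^ a * x ^ b) ^ p * (∏ i, y i ^ e i.succ) ^ (-a) := by
          rw [mul_zpow, mul_zpow, mul_pow, zpow_neg, inv_zpow, ← zpow_natCast w p,
            ← zpow_natCast (w ^ a) p, ← zpow_mul, ← zpow_mul, mul_comm (p : ℤ) a]
          ring

end

end Pool.Agent.Sextic
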