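import Pool.Agent.Work.MP_8e3fb2_ag.VT.Stmts

set_option autoImplicit false

/-!
# Item Res: valuation rings with residue field `ℂ` in algebraic extensions
-/

namespace Pool.Agent.Sextic

open IntermediateField

noncomputable section

namespace XRes

lemma mem_nonunits' {K : Type} [Field K] (A : ValuationSubring K) (x : K) :
    x ∈ A.nonunits ↔ x = 0 ∨ x⁻¹ ∉ A := by
  rw [ValuationSubring.mem_nonunits_iff]
  by_cases hx : x = 0
  · simp [hx]
  · rw [← ValuationSubring.valuation_le_one_iff, map_inv₀, not_le]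
    have hv : A.valuation x ≠ 0 := (Valuation.ne_zero_iff _).2 hx
    simp only [hx, false_or]
    exact (one_lt_inv₀ (zero_lt_iff.2 hv)).symm

lemma comap_nonunits {N Ω : Type} [Field N] [Field Ω] [Algebra N Ω] (V : ValuationSubring Ω)
    (x : N) : x ∈ (V.comap (algebraMap N Ω)).nonunits ↔ algebraMap N Ω x ∈ V.nonunits := by
  rw [mem_nonunits', mem_nonunits', ValuationSubring.mem_comap, map_inv₀,
    map_eq_zero_iff _ (algebraMap N Ω).injective]

variable {Ω : Type} [Field Ω] [Algebra ℂ Ω]

lemma val_const (V : ValuationSubring Ω) (h : ∀ c : ℂ, algebraMap ℂ Ω c ∈ V) (c : ℂ)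
    (hc : c ≠ 0) : V.valuation (algebraMap ℂ Ω c) = 1 := by
  have h1 : V.valuation (algebraMap ℂ Ω c) ≤ 1 := (V.valuation_le_one_iff _).2 (h c)
  have h2 : V.valuation (algebraMap ℂ Ω c⁻¹) ≤ 1 := (V.valuation_le_one_iff _).2 (h c⁻¹)
  have h3 : V.valuation (algebraMap ℂ Ω c) * V.valuation (algebraMap ℂ Ω c⁻¹) = 1 := by
    rw [← map_mul, ← map_mul, mul_inv_cancel₀ hc, map_one, map_one]
  refine le_antisymm h1 ?_
  calc (1 : V.ValueGroup) = V.valuation (algebraMap ℂ Ω c) * V.valuation (algebraMap ℂ Ω c⁻¹) :=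
        h3.symm
    _ ≤ V.valuation (algebraMap ℂ Ω c) * 1 := mul_le_mul_right h2 _
    _ = V.valuation (algebraMap ℂ Ω c) := mul_one _

lemma root (V : ValuationSubring Ω) (h : ∀ c : ℂ, algebraMap ℂ Ω c ∈ V) (y : Ω) (hy : y ∈ V) :
    ∀ (n : ℕ) (g : Polynomial ℂ), g.natDegree = n → g ≠ 0 →
      V.valuation (Polynomial.aeval y g) < 1 → ∃ c : ℂ, y - algebraMap ℂ Ω c ∈ V.nonunits := by
  intro n
  induction n with
  | zero =>
    intro g hg hg0 hlt
    exfalso
    rw [Polynomial.eq_C_of_natDegree_eq_zero hg, Polynomial.aeval_C] at hlt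
    rw [val_const V h] at hlt
    · exact lt_irrefl _ hlt
    · intro h0
      apply hg0
      rw [Polynomial.eq_C_of_natDegree_eq_zero hg, h0, Polynomial.C_0]
  | succ n ih =>
    intro g hg hg0 hlt
    have hdeg : g.degree ≠ 0 := by
      intro h0
      have := Polynomial.natDegree_eq_of_degree_eq_some (n := 0) (by simpa using h0)
      omega
    obtain ⟨r, hr⟩ := IsAlgClosed.exists_root g hdeg
    obtain ⟨q, hq⟩ := Polynomial.dvd_iff_isRoot.2 hr
    have hq0 : q ≠ 0 := by
      intro h0
      apply hg0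
      rw [hq, h0, mul_zero]
    have hqn : q.natDegree = n := by
      have h1 := Polynomial.natDegree_mul (Polynomial.X_sub_C_ne_zero r) hq0
      rw [← hq, Polynomial.natDegree_X_sub_C] at h1
      omega
    by_cases h1 : V.valuation (y - algebraMap ℂ Ω r) < 1
    · exact ⟨r, (ValuationSubring.mem_nonunits_iff V).2 h1⟩
    · have h2 : V.valuation (y - algebraMap ℂ Ω r) = 1 :=
        le_antisymm ((V.valuation_le_one_iff _).2 (V.toSubring.sub_mem hy (h r))) (not_lt.1 h1)
      refine ih q hqn hq0 ?_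
      rw [hq, map_mul, map_mul, map_sub, Polynomial.aeval_X, Polynomial.aeval_C, h2, one_mul]
        at hlt
      exact hlt

end XRes

open XRes in
theorem prf_Res : StRes := by
  intro N Ω _ _ _ _ _ _ _ V hV
  obtain ⟨hC, hR⟩ := hV
  have hC' : ∀ c : ℂ, algebraMap ℂ Ω c ∈ V := by
    intro c
    have h := hC c
    rwa [ValuationSubring.mem_comap, ← IsScalarTower.algebraMap_apply] at h
  refine ⟨hC', fun y hy => ?_⟩
  obtain ⟨P, hP0, hP⟩ := Algebra.IsAlgebraic.isAlgebraic (R := N) y
  have hne : P.support.Nonempty := Polynomial.support_nonempty.2 hP0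
  obtain ⟨i0, hi0, hmax⟩ := Finset.exists_max_image P.support
    (fun i => V.valuation (algebraMap N Ω (P.coeff i))) hne
  have ha : P.coeff i0 ≠ 0 := Polynomial.mem_support_iff.1 hi0
  have ha' : algebraMap N Ω (P.coeff i0) ≠ 0 := by
    rwa [Ne, map_eq_zero_iff _ (algebraMap N Ω).injective]
  have hva : V.valuation (algebraMap N Ω (P.coeff i0)) ≠ 0 := (Valuation.ne_zero_iff _).2 ha'
  have hq : ∀ i, P.coeff i / P.coeff i0 ∈ V.comap (algebraMap N Ω) := by
    intro i
    rw [ValuationSubring.mem_comap, ← V.valuation_le_one_iff, map_div₀, map_div₀]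
    by_cases hi : i ∈ P.support
    · exact div_le_one_of_le₀ (hmax i hi) zero_le
    · rw [Polynomial.notMem_support_iff.1 hi]
      simp
  choose c hc using fun i => hR _ (hq i)
  have hc' : ∀ i, V.valuation (algebraMap N Ω (P.coeff i / P.coeff i0) - algebraMap ℂ Ω (c i))
      < 1 := by
    intro i
    have h := (comap_nonunits V _).1 (hc i)
    rw [map_sub, ← IsScalarTower.algebraMap_apply] at h
    exact (ValuationSubring.mem_nonunits_iff V).1 h
  have hc0 : c i0 ≠ 0 := by
    intro h0
    have h := hc' i0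
    rw [h0, div_self ha, map_one, map_zero, sub_zero, map_one] at h
    exact lt_irrefl _ h
  let g : Polynomial ℂ := ∑ i ∈ P.support, Polynomial.monomial i (c i)
  have hg0 : g ≠ 0 := by
    intro h0
    have h1 : g.coeff i0 = c i0 := by
      simp only [g, Polynomial.finsetSum_coeff, Polynomial.coeff_monomial]
      rw [Finset.sum_eq_single i0]
      · simp
      · intro j _ hj
        simp [hj]
      · intro h
        exact absurd hi0 h
    rw [h0, Polynomial.coeff_zero] at h1
    exact hc0 h1.symm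
  have hgy : Polynomial.aeval y g = ∑ i ∈ P.support, algebraMap ℂ Ω (c i) * y ^ i := by
    simp only [g, map_sum, Polynomial.aeval_monomial]
  have hPy : ∑ i ∈ P.support, algebraMap N Ω (P.coeff i / P.coeff i0) * y ^ i = 0 := by
    have h1 : ∑ i ∈ P.support, algebraMap N Ω (P.coeff i) * y ^ i = 0 := by
      rw [← hP, Polynomial.aeval_def, Polynomial.eval₂_eq_sum, Polynomial.sum_def]
    have h2 : ∑ i ∈ P.support, algebraMap N Ω (P.coeff i / P.coeff i0) * y ^ i =
        (algebraMap N Ω (P.coeff i0))⁻¹ * ∑ i ∈ P.support, algebraMap N Ω (P.coeff i) * y ^ i := by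
      rw [Finset.mul_sum]
      refine Finset.sum_congr rfl fun i _ => ?_
      rw [map_div₀]
      field_simp
    rw [h2, h1, mul_zero]
  have hlt : V.valuation (Polynomial.aeval y g) < 1 := by
    have h3 : Polynomial.aeval y g = - ∑ i ∈ P.support,
        (algebraMap N Ω (P.coeff i / P.coeff i0) - algebraMap ℂ Ω (c i)) * y ^ i := by
      rw [hgy]
      simp only [sub_mul, Finset.sum_sub_distrib]
      rw [hPy]
      ring
    rw [h3, Valuation.map_neg]
    refine Valuation.map_sum_lt _ one_ne_zero fun i _ => ?_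
    rw [map_mul, map_pow]
    have h4 : V.valuation y ^ i ≤ 1 := pow_le_one₀ zero_le ((V.valuation_le_one_iff _).2 hy)
    calc V.valuation (algebraMap N Ω (P.coeff i / P.coeff i0) - algebraMap ℂ Ω (c i)) *
          V.valuation y ^ i
        ≤ V.valuation (algebraMap N Ω (P.coeff i / P.coeff i0) - algebraMap ℂ Ω (c i)) * 1 :=
          mul_le_mul_right h4 _
      _ = V.valuation (algebraMap N Ω (P.coeff i / P.coeff i0) - algebraMap ℂ Ω (c i)) :=
          mul_one _
      _ < 1 := hc' i
  exact root V hC' y hy _ g rfl hg0 hlt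

end

end Pool.Agent.Sextic
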