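import Pool.Agent.Work.MP_8e3fb2_ag.VT.Formula
import Pool.Agent.Work.MP_8e3fb2_ag.VT.I_Chi
import Pool.Agent.Work.MP_8e3fb2_ag.VT.I_Conj
import Pool.Agent.Work.MP_8e3fb2_ag.VT.I_Dec
import Pool.Agent.Work.MP_8e3fb2_ag.VT.I_Emb
import Pool.Agent.Work.MP_8e3fb2_ag.VT.I_Ext
import Pool.Agent.Work.MP_8e3fb2_ag.VT.I_Inv
import Pool.Agent.Work.MP_8e3fb2_ag.VT.I_Mon
import Pool.Agent.Work.MP_8e3fb2_ag.VT.I_Rank
import Pool.Agent.Work.MP_8e3fb2_ag.VT.I_Res
import Pool.Agent.Work.MP_8e3fb2_ag.VT.I_Step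

/-!
# Formulas for a root of the general polynomial: assembly

The items are by helper2, helper16, helper21, helper37, helper44, helper46, helper49, helper54,
helper71, helper72, helper76, helper82, helper94 and helper97.
-/

set_option autoImplicit false

namespace Pool.Agent.Sextic

/-- The theorem for formulas, without hypotheses. -/
theorem formula : StFormula :=
  prf_Formula (prf_Step prf_Rank prf_Chi) prf_NC
    (prf_Dec prf_Ext prf_Res prf_Conj (prf_Inv prf_Mon) prf_Emb)

end Pool.Agent.Sextic
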