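import Mathlib

set_option autoImplicit false

/-!
# Towers of algebraic functions for the general polynomial: definitions

`K0 n = ℂ(a_1, ..., a_n)` is the function field of the space of monic polynomials of degree `n`,
`Om n` an algebraic closure. A tower of rational covers `X_r ⇢ ... ⇢ X_0` of this space is a tower of
finite extensions of `K0 n` in `Om n`.
-/

namespace Pool.Agent.Sextic

open IntermediateField

noncomputable section

/-- The field `ℂ(a_1, ..., a_n)`, the function field of the space of monic polynomials of degree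
`n`. -/
abbrev K0 (n : ℕ) : Type := FractionRing (MvPolynomial (Fin n) ℂ)

/-- An algebraic closure of `K0 n`. -/
abbrev Om (n : ℕ) : Type := AlgebraicClosure (K0 n)

/-- The general polynomial `z^n + a_1 z^(n-1) + ... + a_n`. -/
def gen (n : ℕ) : Polynomial (K0 n) :=
  Polynomial.X ^ n + ∑ i : Fin n,
    Polynomial.C (algebraMap (MvPolynomial (Fin n) ℂ) (K0 n) (MvPolynomial.X i)) *
      Polynomial.X ^ (n - 1 - (i : ℕ))

/-- The field of rational functions of the roots `x_1, ..., x_n`. (The same type as `K0 n`; no
algebra structure between the two is used.) -/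
abbrev RF (n : ℕ) : Type := FractionRing (MvPolynomial (Fin n) ℂ)

/-- The variable `x_i` of `RF n`. -/
def xv (n : ℕ) (i : Fin n) : RF n := algebraMap (MvPolynomial (Fin n) ℂ) (RF n) (MvPolynomial.X i)

/-- The image of `K0 n` in `Om n`. -/
def base (n : ℕ) : IntermediateField ℂ (Om n) :=
  (⊥ : IntermediateField (K0 n) (Om n)).restrictScalars ℂ

section General

variable {Ω : Type} [Field Ω] [Algebra ℂ Ω]

/-- For subfields `K ≤ L` of `Ω` with `[L : K]` finite: the essential dimension of `L / K` is at most
`d`, that is, `L = K ⊗_F E` where `F ≤ K` has transcendence degree at most `d` over `ℂ` and `E / F`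
is a finite extension. (As `K E = L`, the surjection `K ⊗_F E → L` is bijective if and only if
`[E : F] = [L : K]`.) -/
def EdLE (K L : IntermediateField ℂ Ω) (d : ℕ) : Prop :=
  ∃ F E : IntermediateField ℂ Ω, F ≤ K ∧ F ≤ E ∧ Algebra.trdeg ℂ F ≤ d ∧ K ⊔ E = L ∧
    relfinrank F E ≠ 0 ∧ relfinrank F E = relfinrank K L

/-- The compositum of all the conjugates of `L` over `K`. -/
def nc (K L : IntermediateField ℂ Ω) : IntermediateField ℂ Ω :=
  ⨆ σ : {σ : Ω ≃ₐ[ℂ] Ω // ∀ x ∈ K, σ x = x}, L.map (σ.1 : Ω →ₐ[ℂ] Ω)

/-- The order of the Galois group of the normal closure of `L / K` (the monodromy group of the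
cover). -/
def monOrd (K L : IntermediateField ℂ Ω) : ℕ := relfinrank K (nc K L)

/-- `V` contains `ℂ` and its residue field is `ℂ`. -/
def ResC (V : ValuationSubring Ω) : Prop :=
  (∀ c : ℂ, algebraMap ℂ Ω c ∈ V) ∧ ∀ y ∈ V, ∃ c : ℂ, y - algebraMap ℂ Ω c ∈ V.nonunits

end General

/-- `K 0 ≤ K 1 ≤ ... ≤ K r` is a tower of finite extensions of `K0 n` whose steps have essential
dimension at most `d 0, ..., d (r - 1)`, and `K r` contains a root of the general polynomial. -/
structure Solves (n r : ℕ) (K : ℕ → IntermediateField ℂ (Om n)) (d : ℕ → ℕ) : Prop where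
  zero : K 0 = base n
  le : ∀ i < r, K i ≤ K (i + 1)
  ed : ∀ i < r, EdLE (K i) (K (i + 1)) (d i)
  root : ∃ y ∈ K r, Polynomial.aeval y (gen n) = 0

end

end Pool.Agent.Sextic
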