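import Pool.Agent.Work.MP_8e3fb2_ag.VT.Stmts

set_option autoImplicit false

/-!
# Item NC: a step of the tower and its normal closure
-/

namespace Pool.Agent.Sextic

open IntermediateField

noncomputable section

namespace XNC

section Basic

variable {Ω : Type} [Field Ω] [Algebra ℂ Ω]

theorem map_le_nc (K L : IntermediateField ℂ Ω) (τ : Ω ≃ₐ[ℂ] Ω) (hτ : ∀ x ∈ K, τ x = x) :
    L.map (τ : Ω →ₐ[ℂ] Ω) ≤ nc K L :=
  le_iSup (fun σ : {σ : Ω ≃ₐ[ℂ] Ω // ∀ x ∈ K, σ x = x} => L.map (σ.1 : Ω →ₐ[ℂ] Ω)) ⟨τ, hτ⟩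

theorem mem_nc (K L : IntermediateField ℂ Ω) (τ : Ω ≃ₐ[ℂ] Ω) (hτ : ∀ x ∈ K, τ x = x) (x : Ω)
    (hx : x ∈ L) : τ x ∈ nc K L :=
  map_le_nc K L τ hτ ⟨x, hx, rfl⟩

theorem le_nc (K L : IntermediateField ℂ Ω) : L ≤ nc K L := by
  intro x hx
  exact mem_nc K L AlgEquiv.refl (fun _ _ => rfl) x hx

theorem nc_stable (K L : IntermediateField ℂ Ω) (τ : Ω ≃ₐ[ℂ] Ω) (hτ : ∀ x ∈ K, τ x = x) (x : Ω)
    (hx : x ∈ nc K L) : τ x ∈ nc K L := by
  have h : nc K L ≤ (nc K L).comap (τ : Ω →ₐ[ℂ] Ω) := by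
    refine iSup_le fun σ => ?_
    rintro y ⟨z, hz, rfl⟩
    refine mem_nc K L (σ.1.trans τ) ?_ z hz
    intro x hx
    rw [AlgEquiv.trans_apply, σ.2 x hx, hτ x hx]
  exact h hx

/-- the fixed field of an automorphism -/
def fixF (τ : Ω ≃ₐ[ℂ] Ω) : IntermediateField ℂ Ω :=
  (AlgHom.equalizer (τ : Ω →ₐ[ℂ] Ω) (AlgHom.id ℂ Ω)).toIntermediateField (by
    intro x hx
    have hx' : τ x = x := hx
    show τ x⁻¹ = x⁻¹
    rw [map_inv₀, hx'])

theorem mem_fixF (τ : Ω ≃ₐ[ℂ] Ω) (x : Ω) : x ∈ fixF τ ↔ τ x = x := Iff.rfl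

/-- a ring automorphism which fixes `F` pointwise is an algebra automorphism over `F` -/
def toOver (F : IntermediateField ℂ Ω) (τ : Ω ≃+* Ω) (hτ : ∀ x ∈ F, τ x = x) : Ω ≃ₐ[F] Ω :=
  AlgEquiv.ofRingEquiv (f := τ) (fun x => hτ x.1 x.2)

theorem toOver_apply (F : IntermediateField ℂ Ω) (τ : Ω ≃+* Ω) (hτ : ∀ x ∈ F, τ x = x) (x : Ω) :
    toOver F τ hτ x = τ x := rfl

theorem alg_stable (F : IntermediateField ℂ Ω) (τ : Ω ≃+* Ω) (hτ : ∀ x ∈ F, τ x = x) (x : Ω)
    (hx : IsAlgebraic F x) : IsAlgebraic F (τ x) := by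
  have h := hx.algHom (toOver F τ hτ).toAlgHom
  exact h

theorem nc_eq (K L : IntermediateField ℂ Ω) (hKL : K ≤ L) [Normal K Ω] :
    normalClosure K (extendScalars hKL) Ω = extendScalars (hKL.trans (le_nc K L)) := by
  rw [IntermediateField.normalClosure_def'']
  apply le_antisymm
  · refine iSup_le fun f => ?_
    rintro y ⟨z, hz, rfl⟩
    have hz' : z ∈ L := hz
    exact mem_nc K L (f.restrictScalars ℂ) (fun x hx => f.commutes ⟨x, hx⟩) z hz'
  · intro x hx
    have hx' : x ∈ nc K L := hx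
    have h : nc K L ≤ (⨆ f : Gal(Ω/K), (extendScalars hKL).map (f : Ω →ₐ[K] Ω)).restrictScalars ℂ := by
      refine iSup_le fun σ => ?_
      rintro y ⟨z, hz, rfl⟩
      have h1 := le_iSup (fun f : Gal(Ω/K) => (extendScalars hKL).map (f : Ω →ₐ[K] Ω))
        (toOver K (σ.1 : Ω ≃+* Ω) σ.2)
      exact h1 ⟨z, hz, rfl⟩
    exact h hx'

end Basic

end XNC

open XNC

theorem prf_NC : StNC := by
  intro k Ω _ _ _ _ _ _ _ K L d hk hKL hEd
  obtain ⟨F, E₀, hFK, hFE, htr, hsup, hfin, hfineq⟩ := hEd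
  have : IsAlgClosed Ω := IsAlgClosure.isAlgClosed k
  have : Algebra.IsAlgebraic k Ω := IsAlgClosure.isAlgebraic
  let _ : Algebra k K := ((algebraMap k Ω).codRestrict K hk).toAlgebra
  have : IsScalarTower k K Ω := IsScalarTower.of_algebraMap_eq (fun x => rfl)
  have : Algebra.IsAlgebraic K Ω := Algebra.IsAlgebraic.tower_top (K := k) K
  have : CharZero K := charZero_of_injective_algebraMap (algebraMap ℂ K).injective
  have : IsAlgClosure K Ω := ⟨inferInstance, inferInstance⟩
  have : Normal K Ω := IsAlgClosure.normal K Ω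
  have : IsGalois K Ω := ⟨⟩
  have hKnc : K ≤ nc K L := hKL.trans (le_nc K L)
  have hfK : Module.finrank K (extendScalars hKL) ≠ 0 := by
    rw [← relfinrank_eq_finrank_of_le, ← hfineq]; exact hfin
  have : FiniteDimensional K (extendScalars hKL) :=
    FiniteDimensional.of_finrank_pos (Nat.pos_of_ne_zero hfK)
  have : FiniteDimensional K (normalClosure K (extendScalars hKL) Ω) :=
    normalClosure.is_finiteDimensional K (extendScalars hKL) Ω
  have hfF : Module.finrank F (extendScalars hFE) ≠ 0 := by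
    rw [← relfinrank_eq_finrank_of_le]; exact hfin
  have : FiniteDimensional F (extendScalars hFE) :=
    FiniteDimensional.of_finrank_pos (Nat.pos_of_ne_zero hfF)
  have hmon : monOrd K L = Module.finrank K (extendScalars hKnc) := by
    rw [monOrd, relfinrank_eq_finrank_of_le hKnc]
  have hfd : FiniteDimensional K (extendScalars hKnc) := by
    rw [← nc_eq K L hKL]; infer_instance
  -- the field `E`
  have hE₀alg : ∀ x ∈ E₀, IsAlgebraic F x := by
    intro x hx
    have h1 : IsAlgebraic F (⟨x, hx⟩ : extendScalars hFE) := Algebra.IsAlgebraic.isAlgebraic _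
    exact (IntermediateField.isAlgebraic_iff (S := extendScalars hFE) (x := ⟨x, hx⟩)).1 h1
  have hE₀L : E₀ ≤ L := by rw [← hsup]; exact le_sup_right
  set A : IntermediateField F Ω := algebraicClosure F Ω with hA
  let E : IntermediateField ℂ Ω := nc K L ⊓ A.restrictScalars ℂ
  have hEmem : ∀ x, x ∈ E ↔ x ∈ nc K L ∧ IsAlgebraic F x := by
    intro x
    rw [← mem_algebraicClosure_iff]
    rfl
  refine ⟨E, ?_, ?_, ?_, ?_⟩
  · -- transcendence degree
    have h1 : Algebra.trdeg ℂ F + Algebra.trdeg F A = Algebra.trdeg ℂ A :=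
      _root_.trdeg_add_eq ℂ F
    have : Algebra.IsAlgebraic F A := by rw [hA]; infer_instance
    rw [_root_.trdeg_eq_zero (R := F) (A := A), add_zero] at h1
    have h2 : Algebra.trdeg ℂ E ≤ Algebra.trdeg ℂ A :=
      _root_.trdeg_le_of_injective
        (IntermediateField.inclusion (inf_le_right : E ≤ A.restrictScalars ℂ))
        (IntermediateField.inclusion_injective _)
    rw [← h1] at h2
    exact h2.trans htr
  · intro σ hσ
    have hσ' : ∀ x ∈ K, (σ.restrictScalars ℂ) x = x := hσ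
    refine ⟨?_, ?_⟩
    · intro x hx
      rw [hEmem] at hx ⊢
      exact ⟨nc_stable K L (σ.restrictScalars ℂ) hσ' x hx.1,
        alg_stable F (σ : Ω ≃+* Ω) (fun y hy => hσ y (hFK hy)) x hx.2⟩
    · intro hE x hx
      have h1 : K ⊔ E₀ ≤ fixF (σ.restrictScalars ℂ) := by
        refine sup_le ?_ ?_
        · intro y hy; exact hσ y hy
        · intro y hy
          exact hE y ((hEmem y).2 ⟨le_nc K L (hE₀L hy), hE₀alg y hy⟩)
      rw [hsup] at h1
      exact h1 hx
  · rw [hmon]
    exact Module.finrank_pos.ne'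
  · intro S S' hS hS'
    let f : (Ω ≃ₐ[K] Ω) →* (Ω ≃ₐ[k] Ω) := AlgEquiv.restrictScalarsHom k
    have hrange : f.range = S := by
      ext σ
      rw [hS, MonoidHom.mem_range]
      constructor
      · rintro ⟨g, rfl⟩ x hx
        exact g.commutes ⟨x, hx⟩
      · intro h
        refine ⟨toOver K (σ : Ω ≃+* Ω) h, ?_⟩
        ext x; rfl
    have hcomap : S'.comap f = (extendScalars hKnc).fixingSubgroup := by
      ext g
      rw [Subgroup.mem_comap, hS', IntermediateField.mem_fixingSubgroup_iff]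
      constructor
      · rintro ⟨-, h2⟩ x hx
        have hx' : x ∈ nc K L := hx
        have key : nc K L ≤ fixF (g.restrictScalars ℂ) := by
          refine iSup_le fun τ => ?_
          rw [← hsup, IntermediateField.map_sup]
          refine sup_le ?_ ?_
          · rintro y ⟨z, hz, rfl⟩
            show g (τ.1 z) = τ.1 z
            rw [τ.2 z hz]
            exact g.commutes ⟨z, hz⟩
          · rintro y ⟨z, hz, rfl⟩
            show g (τ.1 z) = τ.1 z
            exact h2 (τ.1 z) ((hEmem _).2 ⟨mem_nc K L τ.1 τ.2 z (hE₀L hz),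
              alg_stable F (τ.1 : Ω ≃+* Ω) (fun y hy => τ.2 y (hFK hy)) z (hE₀alg z hz)⟩)
        exact key hx'
      · intro h
        refine ⟨fun x hx => g.commutes ⟨x, hx⟩, fun x hx => ?_⟩
        exact h x ((hEmem x).1 hx).1
    calc S'.relIndex S = S'.relIndex (Subgroup.map f ⊤) := by
          rw [← MonoidHom.range_eq_map, hrange]
      _ = (S'.comap f).relIndex ⊤ := (Subgroup.relIndex_comap S' f ⊤).symm
      _ = (S'.comap f).index := Subgroup.relIndex_top_right _
      _ = Module.finrank K (extendScalars hKnc) := by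
          rw [hcomap, IntermediateField.finrank_eq_fixingSubgroup_index]
      _ = monOrd K L := hmon.symm

end

end Pool.Agent.Sextic
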