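import Pool.Agent.Work.MP_8e3fb2_ag.VT.Layered
import Pool.Agent.Work.MP_8e3fb2_ag.VT.I_NC

/-!
# Formulas for a root of the general polynomial

The version of the theorem with the degrees of the steps in the place of the orders of the
monodromy groups.
-/

set_option autoImplicit false

namespace Pool.Agent.Sextic

open IntermediateField

noncomputable section

/-- A formula for a root of the general polynomial of degree `n`, arranged in `r` layers. Layer `i`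
adjoins to the field `K i 0` in parallel the algebraic functions `L i 0, ..., L i (m i - 1)`: these
are finite extensions of `K i 0` of essential dimension at most `d i j`. The field `K i j` is
generated by `K i 0` and the first `j` functions of the layer, and `K (i + 1) 0 = K i (m i)`. The
last field `K r 0` contains a root of the general polynomial. -/
structure Formula (n r : ℕ) (m : ℕ → ℕ) (K L : ℕ → ℕ → IntermediateField ℂ (Om n))
    (d : ℕ → ℕ → ℕ) : Prop where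
  zero : K 0 0 = base n
  next : ∀ i < r, K (i + 1) 0 = K i (m i)
  step : ∀ i < r, ∀ j < m i, K i (j + 1) = K i j ⊔ L i j
  le : ∀ i < r, ∀ j < m i, K i 0 ≤ L i j
  ed : ∀ i < r, ∀ j < m i, EdLE (K i 0) (L i j) (d i j)
  root : ∃ y ∈ K r 0, Polynomial.aeval y (gen n) = 0

/-- The theorem for formulas. -/
def StFormula : Prop := ∀ (n r : ℕ) (m : ℕ → ℕ) (K L : ℕ → ℕ → IntermediateField ℂ (Om n))
    (d : ℕ → ℕ → ℕ), 5 ≤ n → Formula n r m K L d →
  ∃ i₀ < r, ∃ j₀ < m i₀, n.factorial / 2 ∣ monOrd (K i₀ 0) (L i₀ j₀) ∧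
    ∀ p : ℕ, p.Prime → n / p ≤ d i₀ j₀ + ∑ i ∈ Finset.range i₀, ∑ j ∈ Finset.range (m i),
      min (d i j) (padicValNat p (relfinrank (K i j) (K i (j + 1))))

namespace XForm

open XMain XChain XLay XNC

/-- A group acting on the cosets of a subgroup of finite index has an orbit whose length is not
divisible by `p ^ e` if the index is not divisible by `p ^ e`. -/
theorem exists_conj {G : Type} [Group G] (H B : Subgroup G) (q : ℕ) (hH : H.index ≠ 0)
    (he : ¬ q ∣ H.index) :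
    ∃ s : G, ¬ q ∣ H.relIndex (B.map (MulAut.conj s⁻¹).toMonoidHom) := by
  by_contra hcon
  push Not at hcon
  apply he
  have : Finite (G ⧸ H) := Nat.finite_of_card_ne_zero hH
  have : Fintype (MulAction.orbitRel.Quotient B (G ⧸ H)) := Fintype.ofFinite _
  rw [Subgroup.index, Nat.card_congr (MulAction.selfEquivSigmaOrbits B (G ⧸ H)), Nat.card_sigma]
  refine Finset.dvd_sum fun ω _ => ?_
  obtain ⟨s, hs⟩ := QuotientGroup.mk_surjective (Quotient.out ω)
  have h1 := hcon s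
  have h2 : Nat.card (MulAction.orbit B (Quotient.out ω)) =
      H.relIndex (B.map (MulAut.conj s⁻¹).toMonoidHom) := by
    rw [← Subgroup.relIndex_comap, Nat.card_coe_set_eq, ← MulAction.index_stabilizer,
      Subgroup.relIndex]
    congr 1
    ext b
    rw [MulAction.mem_stabilizer_iff, ← hs, Subgroup.mem_subgroupOf, Subgroup.mem_comap]
    change ((((b : G) * s : G) : G ⧸ H) = (s : G ⧸ H)) ↔ _
    rw [eq_comm, QuotientGroup.eq]
    simp [mul_assoc]
  rw [h2]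
  exact h1

/-- The version for a subgroup. -/
theorem exists_conj' {G : Type} [Group G] (S S' B : Subgroup G) (hB : B ≤ S) (q : ℕ)
    (hH : S'.relIndex S ≠ 0) (he : ¬ q ∣ S'.relIndex S) :
    ∃ s ∈ S, ¬ q ∣ S'.relIndex (B.map (MulAut.conj s⁻¹).toMonoidHom) := by
  obtain ⟨s, hs⟩ := exists_conj (S'.subgroupOf S) (B.subgroupOf S) q hH he
  refine ⟨s, s.2, ?_⟩
  have h1 : (B.map (MulAut.conj (s : G)⁻¹).toMonoidHom) =
      ((B.subgroupOf S).map (MulAut.conj s⁻¹).toMonoidHom).map S.subtype := by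
    rw [Subgroup.map_map]
    have h2 : S.subtype.comp (MulAut.conj s⁻¹).toMonoidHom =
        (MulAut.conj (s : G)⁻¹).toMonoidHom.comp S.subtype := by
      ext x
      simp
    rw [h2, ← Subgroup.map_map, Subgroup.subgroupOf_map_subtype, inf_eq_left.2 hB]
  rw [h1, ← Subgroup.relIndex_comap]
  exact hs

/-- The index of a fixing group is the degree. -/
theorem relIndex_fixG {k Ω : Type} [Field k] [Field Ω] [Algebra ℂ k] [Algebra k Ω] [Algebra ℂ Ω]
    [IsScalarTower ℂ k Ω] [IsAlgClosure k Ω] (K K' : IntermediateField ℂ Ω)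
    (hk : ∀ a : k, algebraMap k Ω a ∈ K) (hKL : K ≤ K') :
    (fixG K' : Subgroup (Ω ≃ₐ[k] Ω)).relIndex (fixG K) = relfinrank K K' := by
  have : IsAlgClosed Ω := IsAlgClosure.isAlgClosed k
  have : Algebra.IsAlgebraic k Ω := IsAlgClosure.isAlgebraic
  let _ : Algebra k K := ((algebraMap k Ω).codRestrict K hk).toAlgebra
  have : IsScalarTower k K Ω := IsScalarTower.of_algebraMap_eq (fun x => rfl)
  have : Algebra.IsAlgebraic K Ω := Algebra.IsAlgebraic.tower_top (K := k) K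
  have : CharZero K := charZero_of_injective_algebraMap (algebraMap ℂ K).injective
  have : IsAlgClosure K Ω := ⟨inferInstance, inferInstance⟩
  have : Normal K Ω := IsAlgClosure.normal K Ω
  have : IsGalois K Ω := ⟨⟩
  let f : (Ω ≃ₐ[K] Ω) →* (Ω ≃ₐ[k] Ω) := AlgEquiv.restrictScalarsHom k
  have hrange : f.range = fixG K := by
    ext σ
    rw [mem_fixG, MonoidHom.mem_range]
    constructor
    · rintro ⟨g, rfl⟩ x hx
      exact g.commutes ⟨x, hx⟩
    · intro h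
      refine ⟨toOver K (σ : Ω ≃+* Ω) h, ?_⟩
      ext x; rfl
  have hcomap : (fixG K').comap f = (extendScalars hKL).fixingSubgroup := by
    ext g
    rw [Subgroup.mem_comap, mem_fixG, IntermediateField.mem_fixingSubgroup_iff]
    rfl
  calc (fixG K' : Subgroup (Ω ≃ₐ[k] Ω)).relIndex (fixG K)
      = (fixG K' : Subgroup (Ω ≃ₐ[k] Ω)).relIndex (Subgroup.map f ⊤) := by
        rw [← MonoidHom.range_eq_map, hrange]
    _ = ((fixG K').comap f).relIndex ⊤ := (Subgroup.relIndex_comap _ f ⊤).symm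
    _ = ((fixG K').comap f).index := Subgroup.relIndex_top_right _
    _ = Module.finrank K (extendScalars hKL) := by
        rw [hcomap, IntermediateField.finrank_eq_fixingSubgroup_index]
    _ = relfinrank K K' := (relfinrank_eq_finrank_of_le hKL).symm

/-- The index of the images of two groups, the larger of exponent `p`. -/
theorem card_image_le {G P : Type} [Group G] [Group P] [Finite P] (ρ : G →* P) {p : ℕ}
    (hp : p.Prime) (B B' : Subgroup G) (hBB : B' ≤ B) (hB : ∀ σ ∈ B, ρ σ ^ p = 1) (e d : ℕ)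
    (he : ¬ p ^ (e + 1) ∣ B'.relIndex B)
    (hd : Nat.card (B.map ρ) ≤ p ^ d * Nat.card (B'.map ρ)) :
    Nat.card (B.map ρ) ≤ p ^ (min d e) * Nat.card (B'.map ρ) := by
  have : Fact p.Prime := ⟨hp⟩
  have h1 : IsPGroup p (B.map ρ) := by
    rintro ⟨_, ⟨σ, hσ, rfl⟩⟩
    exact ⟨1, Subtype.ext (by simpa using hB σ hσ)⟩
  obtain ⟨a, ha⟩ := IsPGroup.iff_card.1 h1
  have h2 : Nat.card (B'.map ρ) * (B'.map ρ).relIndex (B.map ρ) = Nat.card (B.map ρ) := by
    have h3 := Subgroup.relIndex_mul_relIndex (⊥ : Subgroup P) (B'.map ρ) (B.map ρ) bot_le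
      (Subgroup.map_mono hBB)
    rw [Subgroup.relIndex_bot_left, Subgroup.relIndex_bot_left] at h3
    exact h3
  obtain ⟨c, hca, hc⟩ := (Nat.dvd_prime_pow hp).1 (ha ▸ Dvd.intro_left _ h2)
  have h4 : p ^ c ∣ B'.relIndex B := by
    rw [← hc, ← Subgroup.relIndex_comap]
    exact Subgroup.relIndex_dvd_of_le_left _ (Subgroup.le_comap_map ρ B')
  have h5 : c ≤ e := by
    by_contra hce
    exact he ((pow_dvd_pow p (Nat.lt_of_not_le hce)).trans h4)
  have h6 : c ≤ d := by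
    rw [← h2, hc, mul_comm] at hd
    have h7 : 0 < Nat.card (B'.map ρ) := Nat.card_pos
    exact (Nat.pow_le_pow_iff_right hp.one_lt).1 (Nat.le_of_mul_le_mul_right hd h7)
  rw [← h2, hc, mul_comm]
  exact Nat.mul_le_mul_right _ (Nat.pow_le_pow_right hp.pos (le_min h6 h5))

/-- The image of a valuation ring. -/
theorem resC_comap {k Ω : Type} [Field k] [Field Ω] [Algebra ℂ k] [Algebra k Ω] [Algebra ℂ Ω]
    [IsScalarTower ℂ k Ω] (V : ValuationSubring Ω) (hV : ResC V) (s : Ω ≃ₐ[k] Ω) :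
    ResC (V.comap (s : Ω →+* Ω)) := by
  have hs : ∀ c : ℂ, s (algebraMap ℂ Ω c) = algebraMap ℂ Ω c := by
    intro c
    rw [IsScalarTower.algebraMap_apply ℂ k Ω, s.commutes]
  refine ⟨fun c => ?_, fun y hy => ?_⟩
  · rw [ValuationSubring.mem_comap]
    change s (algebraMap ℂ Ω c) ∈ V
    rw [hs]
    exact hV.1 c
  · obtain ⟨c, hc⟩ := hV.2 (s y) hy
    refine ⟨c, ?_⟩
    rw [ValuationSubring.mem_nonunits_iff_exists_mem_maximalIdeal] at hc ⊢
    obtain ⟨hc1, hc2⟩ := hc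
    have h1 : s (y - algebraMap ℂ Ω c) = s y - algebraMap ℂ Ω c := by rw [map_sub, hs]
    refine ⟨?_, ?_⟩
    · rw [ValuationSubring.mem_comap]
      change s (y - algebraMap ℂ Ω c) ∈ V
      rw [h1]
      exact hc1
    · rw [IsLocalRing.mem_maximalIdeal, mem_nonunits_iff] at hc2 ⊢
      intro hu
      apply hc2
      obtain ⟨u, hu⟩ := hu
      refine isUnit_iff_exists_inv.2 ⟨⟨s (u⁻¹ : (V.comap (s : Ω →+* Ω))ˣ), (u⁻¹).1.2⟩, ?_⟩
      apply Subtype.ext
      change (s y - algebraMap ℂ Ω c) * s ((u⁻¹ : (V.comap (s : Ω →+* Ω))ˣ) : Ω) = 1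
      rw [← h1, ← map_mul]
      have h2 : (y - algebraMap ℂ Ω c) * ((u⁻¹ : (V.comap (s : Ω →+* Ω))ˣ) : Ω) = 1 := by
        have h3 := congrArg Subtype.val (u.mul_inv)
        rw [hu] at h3
        exact h3
      rw [h2, map_one]

/-- What is carried through the tower: a valuation ring `V` with residue field `ℂ` and a group `B` of
automorphisms over `K` which preserve `V`, whose image is of exponent `p` and large. -/
def Big (n p : ℕ) (ρ : (Om n ≃ₐ[K0 n] Om n) →* Equiv.Perm (Fin n))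
    (K : IntermediateField ℂ (Om n)) (c : ℕ) : Prop :=
  ∃ (V : ValuationSubring (Om n)) (B : Subgroup (Om n ≃ₐ[K0 n] Om n)), ResC V ∧ B ≤ fixG K ∧
    B ≤ decG V ∧ (∀ σ ∈ B, ρ σ ^ p = 1) ∧ p ^ (n / p) ≤ p ^ c * Nat.card (B.map ρ)

/-- The number of the images, one function. -/
theorem use_step (h1 : StStep) {n p : ℕ} (hp : p.Prime) (V : ValuationSubring (Om n))
    (hV : ResC V) (ρ : (Om n ≃ₐ[K0 n] Om n) →* Equiv.Perm (Fin n))
    (K E : IntermediateField ℂ (Om n)) (M d : ℕ) (hE1 : Algebra.trdeg ℂ E ≤ d)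
    (hE2 : ∀ σ : Om n ≃ₐ[K0 n] Om n, (∀ x ∈ K, σ x = x) → ∀ x ∈ E, σ x ∈ E) (hM : M ≠ 0)
    (hE4 : (fixG K ⊓ fixG E : Subgroup (Om n ≃ₐ[K0 n] Om n)).relIndex (fixG K) = M)
    (B : Subgroup (Om n ≃ₐ[K0 n] Om n)) (hBK : B ≤ fixG K) (hBV : B ≤ decG V)
    (hBp : ∀ σ ∈ B, ρ σ ^ p = 1) :
    (B ⊓ fixG E).relIndex B ≠ 0 ∧
      Nat.card (B.map ρ) ≤ p ^ d * Nat.card ((B ⊓ fixG E).map ρ) := by
  have hconj : ∀ g ∈ (fixG K : Subgroup (Om n ≃ₐ[K0 n] Om n)), ∀ h : Om n ≃ₐ[K0 n] Om n,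
      (∀ x ∈ E, h x = x) → ∀ x ∈ E, (g * h * g⁻¹) x = x := by
    intro g hg h hh' x hx
    have h5 : g⁻¹ x ∈ E := hE2 g⁻¹ (inv_mem hg) x hx
    rw [AlgEquiv.mul_apply, AlgEquiv.mul_apply, hh' _ h5, ← AlgEquiv.mul_apply, mul_inv_cancel,
      AlgEquiv.one_apply]
  have hdvd : (B ⊓ fixG E).relIndex B ∣ M := by
    have h5 := relIndex_dvd (fixG K) (fixG K ⊓ fixG E) B hBK (by
      intro g hg h hh'
      exact ⟨(fixG K).mul_mem ((fixG K).mul_mem hg hh'.1) ((fixG K).inv_mem hg),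
        hconj g hg h hh'.2⟩)
    rw [hE4] at h5
    have h8 : B ⊓ fixG E = (fixG K ⊓ fixG E) ⊓ B := by
      ext σ
      constructor
      · intro h
        exact ⟨⟨hBK h.1, h.2⟩, h.1⟩
      · intro h
        exact ⟨h.2, h.1.2⟩
    rw [h8, Subgroup.inf_relIndex_right]
    exact h5
  have hne : (B ⊓ fixG E).relIndex B ≠ 0 := fun h => hM (by
    rw [h] at hdvd
    exact zero_dvd_iff.1 hdvd)
  exact ⟨hne, h1 (K0 n) (Om n) V hV E d p hp hE1 B (B ⊓ fixG E) (fun σ hσ => hBV hσ)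
    (fun σ hσ => hE2 σ (hBK hσ)) (fun σ => Iff.rfl) hne _ ρ hBp⟩

/-- One step of the tower. -/
theorem big_step (h1 : StStep) {n p : ℕ} (hp : p.Prime)
    (ρ : (Om n ≃ₐ[K0 n] Om n) →* Equiv.Perm (Fin n))
    (K M M' E : IntermediateField ℂ (Om n)) (N d c : ℕ) (hE1 : Algebra.trdeg ℂ E ≤ d)
    (hE2 : ∀ σ : Om n ≃ₐ[K0 n] Om n, (∀ x ∈ K, σ x = x) → ∀ x ∈ E, σ x ∈ E) (hN : N ≠ 0)
    (hE4 : (fixG K ⊓ fixG E : Subgroup (Om n ≃ₐ[K0 n] Om n)).relIndex (fixG K) = N)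
    (hKM : K ≤ M) (hMM : M ≤ M') (hbase : ∀ a : K0 n, algebraMap (K0 n) (Om n) a ∈ M)
    (hEM : (fixG M ⊓ fixG E : Subgroup (Om n ≃ₐ[K0 n] Om n)) ≤ fixG M')
    (hbig : Big n p ρ M c) : Big n p ρ M' (c + min d (padicValNat p (relfinrank M M'))) := by
  obtain ⟨V, B, hV, hBM, hBV, hBp, hB⟩ := hbig
  have : Fact p.Prime := ⟨hp⟩
  have hle : (fixG M : Subgroup (Om n ≃ₐ[K0 n] Om n)) ≤ fixG K := fun σ hσ x hx => hσ x (hKM hx)
  have hidx : (fixG M' : Subgroup (Om n ≃ₐ[K0 n] Om n)).relIndex (fixG M) = relfinrank M M' :=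
    relIndex_fixG M M' hbase hMM
  have hne : relfinrank M M' ≠ 0 := by
    rw [← hidx]
    intro h
    have h2 := Subgroup.relIndex_eq_zero_of_le_left hEM h
    have h3 : (fixG K ⊓ fixG E : Subgroup (Om n ≃ₐ[K0 n] Om n)).relIndex (fixG M) = 0 := by
      have h4 : (fixG M ⊓ fixG E : Subgroup (Om n ≃ₐ[K0 n] Om n)) =
          (fixG K ⊓ fixG E) ⊓ fixG M := by
        ext σ
        constructor
        · intro h
          exact ⟨⟨hle h.1, h.2⟩, h.1⟩
        · intro h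
          exact ⟨h.2, h.1.2⟩
      rw [h4, Subgroup.inf_relIndex_right] at h2
      exact h2
    have h5 := Subgroup.relIndex_eq_zero_of_le_right hle h3
    exact hN (hE4 ▸ h5)
  have he : ¬ p ^ (padicValNat p (relfinrank M M') + 1) ∣
      (fixG M' : Subgroup (Om n ≃ₐ[K0 n] Om n)).relIndex (fixG M) := by
    rw [hidx]
    exact pow_succ_padicValNat_not_dvd hne
  obtain ⟨s, hsM, hs⟩ := exists_conj' (fixG M) (fixG M') B hBM _ (by rw [hidx]; exact hne) he
  set B₁ : Subgroup (Om n ≃ₐ[K0 n] Om n) := B.map (MulAut.conj s⁻¹).toMonoidHom with hB₁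
  set V₁ : ValuationSubring (Om n) := V.comap (s : Om n →+* Om n) with hV₁
  have hmem : ∀ σ ∈ B₁, ∃ τ ∈ B, σ = s⁻¹ * τ * s := by
    rintro _ ⟨τ, hτ, rfl⟩
    exact ⟨τ, hτ, by simp⟩
  have hB₁M : B₁ ≤ fixG M := by
    intro σ hσ
    obtain ⟨τ, hτ, rfl⟩ := hmem σ hσ
    exact mul_mem (mul_mem (inv_mem hsM) (hBM hτ)) hsM
  have hB₁V : B₁ ≤ decG V₁ := by
    intro σ hσ
    obtain ⟨τ, hτ, rfl⟩ := hmem σ hσ
    intro x
    have h2 : ∀ y, y ∈ V₁ ↔ s y ∈ V := fun y => Iff.rfl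
    rw [h2, h2, ← AlgEquiv.mul_apply, ← mul_assoc, ← mul_assoc, mul_inv_cancel, one_mul,
      AlgEquiv.mul_apply]
    exact hBV hτ (s x)
  have hB₁p : ∀ σ ∈ B₁, ρ σ ^ p = 1 := by
    intro σ hσ
    obtain ⟨τ, hτ, rfl⟩ := hmem σ hσ
    have h2 : ρ (s⁻¹ * τ * s) ^ p = (ρ s)⁻¹ * (ρ τ) ^ p * ρ s := by
      rw [map_mul, map_mul, map_inv]
      have h3 := conj_pow (i := p) (a := (ρ s)⁻¹) (b := ρ τ)
      rw [inv_inv] at h3
      exact h3
    rw [h2, hBp τ hτ, mul_one, inv_mul_cancel]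
  have hcard : Nat.card (B₁.map ρ) = Nat.card (B.map ρ) := by
    have h2 : B₁.map ρ = (B.map ρ).map (MulAut.conj (ρ s)⁻¹).toMonoidHom := by
      rw [hB₁, Subgroup.map_map, Subgroup.map_map]
      congr 1
      ext σ : 1
      simp
    rw [h2]
    exact Nat.card_congr (Subgroup.equivMapOfInjective _ _
      (MulAut.conj (ρ s)⁻¹).injective).symm.toEquiv
  obtain ⟨hne', hst⟩ := use_step h1 hp V₁ (resC_comap V hV s) ρ K E N d hE1 hE2 hN hE4 B₁
    (hB₁M.trans hle) hB₁V hB₁p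
  refine ⟨V₁, B₁ ⊓ fixG M', resC_comap V hV s, inf_le_right, inf_le_left.trans hB₁V,
    fun σ hσ => hB₁p σ hσ.1, ?_⟩
  have hsub : (B₁ ⊓ fixG E).map ρ ≤ (B₁ ⊓ fixG M').map ρ := by
    refine Subgroup.map_mono fun σ hσ => ⟨hσ.1, hEM ⟨hB₁M hσ.1, hσ.2⟩⟩
  have hst' : Nat.card (B₁.map ρ) ≤ p ^ d * Nat.card ((B₁ ⊓ fixG M').map ρ) :=
    hst.trans (Nat.mul_le_mul_left _ (Subgroup.card_le_of_le hsub))
  have he' : ¬ p ^ (padicValNat p (relfinrank M M') + 1) ∣ (B₁ ⊓ fixG M').relIndex B₁ := by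
    rw [inf_comm, Subgroup.inf_relIndex_right]
    exact hs
  have hfin := card_image_le ρ hp B₁ (B₁ ⊓ fixG M') inf_le_left hB₁p _ _ he' hst'
  rw [hcard] at hfin
  rw [pow_add, mul_assoc]
  exact hB.trans (Nat.mul_le_mul_left _ hfin)

end XForm

open XMain XChain XLay XForm in
theorem prf_Formula (h1 : StStep) (h3 : StNC) (h4 : StDec) : StFormula := by
  intro n r m K L d hn hS
  -- the fields contain the base
  have hmono : ∀ i < r, ∀ j ≤ m i, K i 0 ≤ K i j := by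
    intro i hi j
    induction j with
    | zero => intro _; exact le_rfl
    | succ j ih =>
      intro hj
      rw [hS.step i hi j hj]
      exact (ih (Nat.le_of_succ_le hj)).trans le_sup_left
  have hbase0 : ∀ i ≤ r, ∀ a : K0 n, algebraMap (K0 n) (Om n) a ∈ K i 0 := by
    intro i
    induction i with
    | zero =>
      intro _ a
      rw [hS.zero]
      exact (⊥ : IntermediateField (K0 n) (Om n)).algebraMap_mem a
    | succ i ih =>
      intro hi a
      rw [hS.next i hi]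
      exact hmono i hi (m i) le_rfl (ih (Nat.le_of_succ_le hi) a)
  have hbase : ∀ i < r, ∀ j ≤ m i, ∀ a : K0 n, algebraMap (K0 n) (Om n) a ∈ K i j :=
    fun i hi j hj a => hmono i hi j hj (hbase0 i hi.le a)
  have hE : ∀ i j, ∃ E : IntermediateField ℂ (Om n), i < r → j < m i →
      Algebra.trdeg ℂ E ≤ d i j ∧
      (∀ σ : Om n ≃ₐ[K0 n] Om n, (∀ x ∈ K i 0, σ x = x) → (∀ x ∈ E, σ x ∈ E) ∧
        ((∀ x ∈ E, σ x = x) → ∀ x ∈ L i j, σ x = x)) ∧
      monOrd (K i 0) (L i j) ≠ 0 ∧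
      (fixG (K i 0) ⊓ fixG E : Subgroup (Om n ≃ₐ[K0 n] Om n)).relIndex (fixG (K i 0)) =
        monOrd (K i 0) (L i j) := by
    intro i j
    by_cases hi : i < r ∧ j < m i
    · obtain ⟨E, hE1, hE2, hE3, hE4⟩ :=
        h3 (K0 n) (Om n) (K i 0) (L i j) (d i j) (hbase0 i hi.1.le) (hS.le i hi.1 j hi.2)
          (hS.ed i hi.1 j hi.2)
      exact ⟨E, fun _ _ => ⟨hE1, hE2, hE3, hE4 _ _ (fun σ => Iff.rfl) (fun σ => Iff.rfl)⟩⟩
    · exact ⟨⊥, fun h h' => absurd ⟨h, h'⟩ hi⟩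
  choose E hE using hE
  -- conjugation
  have hconj : ∀ i < r, ∀ j < m i, ∀ g ∈ (fixG (K i 0) : Subgroup (Om n ≃ₐ[K0 n] Om n)),
      ∀ h : Om n ≃ₐ[K0 n] Om n, (∀ x ∈ E i j, h x = x) → ∀ x ∈ E i j, (g * h * g⁻¹) x = x := by
    intro i hi j hj g hg h hh' x hx
    have h5 : g⁻¹ x ∈ E i j := ((hE i j hi hj).2.1 g⁻¹ (inv_mem hg)).1 x hx
    rw [AlgEquiv.mul_apply, AlgEquiv.mul_apply, hh' _ h5, ← AlgEquiv.mul_apply, mul_inv_cancel,
      AlgEquiv.one_apply]
  -- the permutation representation for one prime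
  obtain ⟨-, -, ρ, ξ, -, -, hξ, hρs, hroot, hρ, -⟩ := @h4 n 2 ⟨Nat.prime_two⟩
  have htriv : ∀ S : Subgroup (Om n ≃ₐ[K0 n] Om n), S.map ρ = ⊥ ↔
      ∀ σ ∈ S, ∀ y, Polynomial.aeval y (gen n) = 0 → σ y = y := by
    intro S
    rw [Subgroup.map_eq_bot_iff]
    constructor
    · intro h σ hσ y hy
      obtain ⟨a, rfl⟩ := (hroot y).1 hy
      rw [hρ, show ρ σ = 1 from h hσ]
      rfl
    · intro h σ hσ
      rw [MonoidHom.mem_ker]
      ext a : 1
      apply hξ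
      rw [← hρ]
      exact h σ hσ _ ((hroot _).2 ⟨a, rfl⟩)
  -- the decisive layer
  have hfixr : ¬ alternatingGroup (Fin n) ≤
      (fixG (K r 0) : Subgroup (Om n ≃ₐ[K0 n] Om n)).map ρ := by
    intro hle
    obtain ⟨y, hy, hy0⟩ := hS.root
    obtain ⟨a, rfl⟩ := (hroot y).1 hy0
    obtain ⟨σ, hσ, hσa⟩ := alt_no_fix hn a
    obtain ⟨σ', hσ', rfl⟩ := hle hσ
    apply hσa
    apply hξ
    rw [← hρ]
    exact hσ' _ hy
  have hfix0 : alternatingGroup (Fin n) ≤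
      (fixG (K 0 0) : Subgroup (Om n ≃ₐ[K0 n] Om n)).map ρ := by
    intro σ _
    obtain ⟨σ', rfl⟩ := hρs σ
    refine Subgroup.mem_map_of_mem ρ ?_
    intro x hx
    rw [hS.zero] at hx
    obtain ⟨a, rfl⟩ := IntermediateField.mem_bot.1
      (show x ∈ (⊥ : IntermediateField (K0 n) (Om n)) from hx)
    exact σ'.commutes a
  obtain ⟨i₀, hi₀, hbig, hnext⟩ : ∃ i₀ < r,
      alternatingGroup (Fin n) ≤ (fixG (K i₀ 0) : Subgroup (Om n ≃ₐ[K0 n] Om n)).map ρ ∧
      ¬ alternatingGroup (Fin n) ≤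
        (fixG (K (i₀ + 1) 0) : Subgroup (Om n ≃ₐ[K0 n] Om n)).map ρ := by
    by_contra hcon
    push Not at hcon
    have hall : ∀ i ≤ r, alternatingGroup (Fin n) ≤
        (fixG (K i 0) : Subgroup (Om n ≃ₐ[K0 n] Om n)).map ρ := by
      intro i
      induction i with
      | zero => intro _; exact hfix0
      | succ i ih => intro hi; exact hcon i hi (ih (Nat.le_of_succ_le hi))
    exact hfixr (hall r le_rfl)
  have hc0 : (fixG (K i₀ 0) : Subgroup (Om n ≃ₐ[K0 n] Om n)).map ρ = ⊤ ∨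
      (fixG (K i₀ 0) : Subgroup (Om n ≃ₐ[K0 n] Om n)).map ρ = alternatingGroup (Fin n) ∨
      (fixG (K i₀ 0) : Subgroup (Om n ≃ₐ[K0 n] Om n)).map ρ = ⊥ := by
    rcases ge_alt hn hbig with h | h
    · exact Or.inl h
    · exact Or.inr (Or.inl h)
  -- the groups inside the decisive layer
  have hlayn : ∀ t ≤ m i₀, ∀ g ∈ (fixG (K i₀ 0) : Subgroup (Om n ≃ₐ[K0 n] Om n)),
      ∀ h ∈ (lay (E i₀) (fixG (K i₀ 0)) t : Subgroup (Om n ≃ₐ[K0 n] Om n)),
        g * h * g⁻¹ ∈ lay (E i₀) (fixG (K i₀ 0)) t := by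
    intro t ht g hg h hh'
    rw [mem_lay] at hh' ⊢
    exact ⟨mul_mem (mul_mem hg hh'.1) (inv_mem hg),
      fun j hj => hconj i₀ hi₀ j (hj.trans_le ht) g hg h (hh'.2 j hj)⟩
  have hlayK : ∀ t ≤ m i₀, (lay (E i₀) (fixG (K i₀ 0)) t : Subgroup (Om n ≃ₐ[K0 n] Om n)) ≤
      fixG (K i₀ t) := by
    intro t
    induction t with
    | zero => intro _; exact le_rfl
    | succ t ih =>
      intro ht σ hσ
      have h5 := ih (Nat.le_of_succ_le ht) hσ.1
      rw [hS.step i₀ hi₀ t ht]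
      have h6 := fix_sup σ (K i₀ t) (fun _ : Unit => L i₀ t) h5
        (fun _ => ((hE i₀ t hi₀ ht).2.1 σ (mem_lay.1 hσ).1).2 hσ.2)
      rw [iSup_const] at h6
      exact h6
  -- the decisive function
  obtain ⟨j₀, hj₀, hdec0⟩ : ∃ j₀ < m i₀,
      (fixG (K i₀ 0) ⊓ fixG (E i₀ j₀) : Subgroup (Om n ≃ₐ[K0 n] Om n)).map ρ = ⊥ := by
    by_contra hcon
    push Not at hcon
    have hall : ∀ t ≤ m i₀, alternatingGroup (Fin n) ≤
        (lay (E i₀) (fixG (K i₀ 0)) t : Subgroup (Om n ≃ₐ[K0 n] Om n)).map ρ := by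
      intro t
      induction t with
      | zero => intro _; exact hbig
      | succ t ih =>
        intro ht
        have hU : alternatingGroup (Fin n) ≤
            (fixG (K i₀ 0) ⊓ fixG (E i₀ t) : Subgroup (Om n ≃ₐ[K0 n] Om n)).map ρ := by
          rcases step hn hc0 (Subgroup.map_mono (f := ρ)
            (inf_le_left : fixG (K i₀ 0) ⊓ fixG (E i₀ t) ≤ fixG (K i₀ 0))) (by
              rintro g ⟨g', hg', rfl⟩ h ⟨h', hh', rfl⟩
              refine ⟨g' * h' * g'⁻¹, ⟨mul_mem (mul_mem hg' hh'.1)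
                ((fixG (K i₀ 0)).inv_mem hg'), ?_⟩, by simp⟩
              exact hconj i₀ hi₀ t ht g' hg' h' hh'.2) with h | h | h
          · rw [h]; exact le_top
          · rw [h]
          · exact absurd h (hcon t ht)
        have hne : (lay (E i₀) (fixG (K i₀ 0)) (t + 1) :
            Subgroup (Om n ≃ₐ[K0 n] Om n)).map ρ ≠ ⊥ := by
          refine not_commute hn (ih (Nat.le_of_succ_le ht)) hU ?_
          rintro g ⟨g', hg', rfl⟩ h ⟨h', hh', rfl⟩
          have hg'' := (mem_lay.1 hg').1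
          refine ⟨g' * h' * g'⁻¹ * h'⁻¹, ⟨?_, ?_⟩, by simp⟩
          · have h6 := hlayn t (Nat.le_of_succ_le ht) h' hh'.1 _ (inv_mem hg')
            have h7 : g' * h' * g'⁻¹ * h'⁻¹ = g' * (h' * g'⁻¹ * h'⁻¹) := by group
            rw [h7]
            exact mul_mem hg' h6
          · exact mul_mem (show g' * h' * g'⁻¹ ∈ fixG (E i₀ t) from
              hconj i₀ hi₀ t ht g' hg'' h' hh'.2) ((fixG (E i₀ t)).inv_mem hh'.2)
        rcases step hn hc0
          (Q := (lay (E i₀) (fixG (K i₀ 0)) (t + 1) : Subgroup (Om n ≃ₐ[K0 n] Om n)).map ρ)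
          (Subgroup.map_mono (fun σ hσ => (mem_lay.1 hσ).1)) (by
            rintro g ⟨g', hg', rfl⟩ h ⟨h', hh', rfl⟩
            exact ⟨g' * h' * g'⁻¹, hlayn (t + 1) ht g' hg' h' hh', by simp⟩) with h | h | h
        · rw [h]; exact le_top
        · rw [h]
        · exact absurd h hne
    apply hnext
    refine (hall (m i₀) le_rfl).trans (Subgroup.map_mono ?_)
    rw [hS.next i₀ hi₀]
    exact hlayK (m i₀) le_rfl
  refine ⟨i₀, hi₀, j₀, hj₀, ?_, ?_⟩
  · -- the order of the monodromy group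
    obtain ⟨hE1, hE2, hE3, hE4⟩ := hE i₀ j₀ hi₀ hj₀
    have h6 : (fixG (K i₀ 0) ⊓ fixG (E i₀ j₀) : Subgroup (Om n ≃ₐ[K0 n] Om n)) ≤ ρ.ker := by
      rw [← Subgroup.map_eq_bot_iff]
      exact hdec0
    have h8 : Nat.card ((fixG (K i₀ 0) : Subgroup (Om n ≃ₐ[K0 n] Om n)).map ρ) ∣
        monOrd (K i₀ 0) (L i₀ j₀) := by
      rw [← Subgroup.relIndex_ker, ← hE4]
      exact Subgroup.relIndex_dvd_of_le_left _ h6
    refine dvd_trans ?_ h8
    have h9 := Subgroup.card_dvd_of_le hbig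
    have : Nontrivial (Fin n) := Fin.nontrivial_iff_two_le.mpr (by omega)
    rw [nat_card_alternatingGroup, Nat.card_fin] at h9
    exact h9
  -- counting
  intro p hp
  have : Fact p.Prime := ⟨hp⟩
  obtain ⟨V, hh, ρ', ξ', hV, hhinj, hξ', hρs', hroot', hρ', hdec'⟩ := h4 n p
  have hRp : ∀ π ∈ hh.range, π ^ p = 1 := by
    rintro _ ⟨v, rfl⟩
    rw [← map_pow]
    have h5 : v ^ p = 1 := by
      apply Multiplicative.toAdd.injective
      rw [toAdd_pow, toAdd_one]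
      funext b
      simp
    rw [h5, map_one]
  have hB0 : ((⊤ : Subgroup (Om n ≃ₐ[K0 n] Om n)) ⊓ (decG V ⊓ hh.range.comap ρ')).map ρ' =
      hh.range := by
    apply le_antisymm
    · rintro _ ⟨σ, hσ, rfl⟩
      exact hσ.2.2
    · rintro _ ⟨v, rfl⟩
      obtain ⟨σ, hσ1, hσ2⟩ := hdec' v
      exact ⟨σ, ⟨Subgroup.mem_top σ, hσ1, ⟨v, hσ2.symm⟩⟩, hσ2⟩
  have hc0 : Nat.card (((⊤ : Subgroup (Om n ≃ₐ[K0 n] Om n)) ⊓
      (decG V ⊓ hh.range.comap ρ')).map ρ') = p ^ (n / p) := by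
    rw [hB0, Nat.card_congr (MonoidHom.ofInjective hhinj).toEquiv.symm]
    simp [Nat.card_eq_fintype_card, Fintype.card_multiplicative]
  have hbig0 : Big n p ρ' (K 0 0) 0 := by
    refine ⟨V, (⊤ : Subgroup (Om n ≃ₐ[K0 n] Om n)) ⊓ (decG V ⊓ hh.range.comap ρ'), hV, ?_,
      fun σ hσ => hσ.2.1, fun σ hσ => hRp _ hσ.2.2, ?_⟩
    · intro σ _ x hx
      rw [hS.zero] at hx
      obtain ⟨a, rfl⟩ := IntermediateField.mem_bot.1
        (show x ∈ (⊥ : IntermediateField (K0 n) (Om n)) from hx)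
      exact σ.commutes a
    · rw [hc0, pow_zero, one_mul]
  -- one layer
  have hlayer : ∀ i < r, ∀ c, Big n p ρ' (K i 0) c → ∀ t ≤ m i, Big n p ρ' (K i t)
      (c + ∑ j ∈ Finset.range t, min (d i j) (padicValNat p (relfinrank (K i j)
        (K i (j + 1))))) := by
    intro i hi c hc t
    induction t with
    | zero => intro _; simpa using hc
    | succ t ih =>
      intro ht
      obtain ⟨hE1, hE2, hE3, hE4⟩ := hE i t hi ht
      rw [Finset.sum_range_succ, ← add_assoc]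
      refine big_step h1 hp ρ' (K i 0) (K i t) (K i (t + 1)) (E i t) _ (d i t) _ hE1
        (fun σ hσ => (hE2 σ hσ).1) hE3 hE4 (hmono i hi t (Nat.le_of_succ_le ht)) ?_
        (hbase i hi t (Nat.le_of_succ_le ht)) ?_ (ih (Nat.le_of_succ_le ht))
      · rw [hS.step i hi t ht]
        exact le_sup_left
      · intro σ hσ
        rw [hS.step i hi t ht]
        have h6 := fix_sup σ (K i t) (fun _ : Unit => L i t) hσ.1
          (fun _ => (hE2 σ (fun x hx => hσ.1 x (hmono i hi t (Nat.le_of_succ_le ht) hx))).2 hσ.2)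
        rw [iSup_const] at h6
        exact h6
  have hall : ∀ i ≤ r, Big n p ρ' (K i 0) (∑ i' ∈ Finset.range i, ∑ j ∈ Finset.range (m i'),
      min (d i' j) (padicValNat p (relfinrank (K i' j) (K i' (j + 1))))) := by
    intro i
    induction i with
    | zero => intro _; simpa using hbig0
    | succ i ih =>
      intro hi
      rw [Finset.sum_range_succ, hS.next i hi]
      exact hlayer i hi _ (ih (Nat.le_of_succ_le hi)) (m i) le_rfl
  obtain ⟨V₂, B, hV₂, hBK, hBV, hBp, hB⟩ := hall i₀ hi₀.le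
  obtain ⟨hE1, hE2, hE3, hE4⟩ := hE i₀ j₀ hi₀ hj₀
  obtain ⟨-, hlast⟩ := use_step h1 hp V₂ hV₂ ρ' (K i₀ 0) (E i₀ j₀) _ (d i₀ j₀) hE1
    (fun σ hσ => (hE2 σ hσ).1) hE3 hE4 B hBK hBV hBp
  have hbot : ((B ⊓ fixG (E i₀ j₀)).map ρ') = ⊥ := by
    rw [Subgroup.map_eq_bot_iff]
    intro σ hσ
    rw [MonoidHom.mem_ker]
    ext a : 1
    apply hξ'
    rw [← hρ']
    exact (htriv _).1 hdec0 σ ⟨hBK hσ.1, hσ.2⟩ _ ((hroot' _).2 ⟨a, rfl⟩)
  rw [hbot, Subgroup.card_bot, mul_one] at hlast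
  have hfin := hB.trans (Nat.mul_le_mul_left _ hlast)
  rw [← pow_add] at hfin
  have hfin' := (Nat.pow_le_pow_iff_right hp.one_lt).1 hfin
  rw [add_comm] at hfin'
  exact hfin'

end

end Pool.Agent.Sextic
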