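import Pool.Agent.Work.MP_8e3fb2_ag.VT.Stmts

/-! Item Chain of block VT: descending chains of normal subgroups of the symmetric group. -/

set_option autoImplicit false

namespace Pool.Agent.Sextic

namespace XChain

open Equiv Equiv.Perm

/-- Subgroups above the alternating group. -/
theorem ge_alt {n : ℕ} (hn : 5 ≤ n) {Q : Subgroup (Perm (Fin n))}
    (h : alternatingGroup (Fin n) ≤ Q) : Q = ⊤ ∨ Q = alternatingGroup (Fin n) := by
  have : Nontrivial (Fin n) := Fin.nontrivial_iff_two_le.mpr (by omega)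
  have h1 : Q.index ∣ 2 := by
    rw [← alternatingGroup.index_eq_two (α := Fin n)]
    exact Subgroup.index_dvd_of_le h
  rcases (Nat.dvd_prime Nat.prime_two).mp h1 with h2 | h2
  · exact Or.inl (Subgroup.index_eq_one.mp h2)
  · exact Or.inr (eq_alternatingGroup_of_index_eq_two h2)

/-- The alternating group fixes no point. -/
theorem alt_no_fix {n : ℕ} (hn : 5 ≤ n) (a : Fin n) :
    ∃ σ ∈ alternatingGroup (Fin n), σ a ≠ a := by
  have : Nontrivial (Fin n) := Fin.nontrivial_iff_two_le.mpr (by omega)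
  obtain ⟨b, hb⟩ := exists_ne a
  obtain ⟨c, hc⟩ : ∃ c, c ∉ ({a, b} : Finset (Fin n)) := by
    by_contra hcon
    push Not at hcon
    have h1 : (Finset.univ : Finset (Fin n)) ⊆ {a, b} := fun c _ => hcon c
    have h2 := Finset.card_le_card h1
    have h3 : ({a, b} : Finset (Fin n)).card ≤ 2 := Finset.card_le_two
    rw [Finset.card_univ, Fintype.card_fin] at h2
    omega
  rw [Finset.mem_insert, Finset.mem_singleton, not_or] at hc
  refine ⟨swap a b * swap a c, ?_, ?_⟩
  · rw [mem_alternatingGroup, Equiv.Perm.sign_mul, sign_swap hb.symm, sign_swap (Ne.symm hc.1)]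
    rfl
  · rw [Perm.mul_apply, swap_apply_left, swap_apply_of_ne_of_ne hc.1 hc.2]
    exact hc.1

/-- One step. -/
theorem step {n : ℕ} (hn : 5 ≤ n) {P Q : Subgroup (Perm (Fin n))}
    (hP : P = ⊤ ∨ P = alternatingGroup (Fin n) ∨ P = ⊥) (hle : Q ≤ P)
    (hnor : ∀ g ∈ P, ∀ h ∈ Q, g * h * g⁻¹ ∈ Q) :
    Q = ⊤ ∨ Q = alternatingGroup (Fin n) ∨ Q = ⊥ := by
  have hc : 5 ≤ Nat.card (Fin n) := by rw [Nat.card_fin]; exact hn
  rcases hP with rfl | rfl | rfl
  · have hN : Q.Normal := ⟨fun h hh g => hnor g (Subgroup.mem_top g) h hh⟩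
    rcases Subgroup.bot_or_nontrivial Q with h0 | h0
    · exact Or.inr (Or.inr h0)
    · rcases ge_alt hn (alternatingGroup_le_of_normal hc h0) with h1 | h1
      · exact Or.inl h1
      · exact Or.inr (Or.inl h1)
  · have hN : (Q.subgroupOf (alternatingGroup (Fin n))).Normal :=
      ⟨fun h hh g => by
        rw [Subgroup.mem_subgroupOf] at hh ⊢
        exact hnor _ g.2 _ hh⟩
    rcases alternatingGroup.normal_subgroup_eq_bot_or_eq_top
      (N := Q.subgroupOf (alternatingGroup (Fin n))) hc with h0 | h0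
    · right; right
      rw [Subgroup.subgroupOf_eq_bot] at h0
      rw [eq_bot_iff]
      intro x hx
      exact h0.le_bot ⟨hx, hle hx⟩
    · right; left
      rw [Subgroup.subgroupOf_eq_top] at h0
      exact le_antisymm hle h0
  · right; right
    exact le_bot_iff.mp hle

end XChain

open XChain in
theorem prf_Chain : StChain := by
  intro n r hn P h0 hstep hfix
  have key : ∀ i, i ≤ r → P i = ⊤ ∨ P i = alternatingGroup (Fin n) ∨ P i = ⊥ := by
    intro i
    induction i with
    | zero => intro _; exact Or.inl h0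
    | succ i ih =>
      intro hi
      exact step hn (ih (by omega)) (hstep i (by omega)).1 (hstep i (by omega)).2
  obtain ⟨a, ha⟩ := hfix
  obtain ⟨σ, hσ, hσa⟩ := alt_no_fix hn a
  rcases key r le_rfl with h | h | h
  · exact absurd (ha σ (by rw [h]; exact Subgroup.mem_top σ)) hσa
  · exact absurd (ha σ (by rw [h]; exact hσ)) hσa
  · exact h

end Pool.Agent.Sextic
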