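import Pool.Agent.Work.MP_8e3fb2_ag.VT.Stmts

/-!
# Item Main: towers of algebraic functions
-/

set_option autoImplicit false

namespace Pool.Agent.Sextic

open IntermediateField

noncomputable section

namespace XMain

section General

variable {k Ω : Type} [Field k] [Field Ω] [Algebra k Ω] [Algebra ℂ Ω]

/-- The automorphisms which are the identity on `E`. -/
def fixG (E : IntermediateField ℂ Ω) : Subgroup (Ω ≃ₐ[k] Ω) where
  carrier := {σ | ∀ x ∈ E, σ x = x}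
  mul_mem' := by
    intro a b ha hb x hx
    rw [AlgEquiv.mul_apply, hb x hx, ha x hx]
  one_mem' := fun x _ => rfl
  inv_mem' := by
    intro a ha x hx
    have h := ha x hx
    calc a⁻¹ x = a⁻¹ (a x) := by rw [h]
      _ = x := by rw [← AlgEquiv.mul_apply, inv_mul_cancel, AlgEquiv.one_apply]

theorem mem_fixG {E : IntermediateField ℂ Ω} {σ : Ω ≃ₐ[k] Ω} :
    σ ∈ fixG E ↔ ∀ x ∈ E, σ x = x := Iff.rfl

/-- The automorphisms which preserve `V`. -/
def decG (V : ValuationSubring Ω) : Subgroup (Ω ≃ₐ[k] Ω) where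
  carrier := {σ | ∀ x, x ∈ V ↔ σ x ∈ V}
  mul_mem' := by
    intro a b ha hb x
    rw [AlgEquiv.mul_apply, ← ha, ← hb]
  one_mem' := fun x => Iff.rfl
  inv_mem' := by
    intro a ha x
    rw [ha (a⁻¹ x), ← AlgEquiv.mul_apply, mul_inv_cancel, AlgEquiv.one_apply]

theorem mem_decG {V : ValuationSubring Ω} {σ : Ω ≃ₐ[k] Ω} :
    σ ∈ decG V ↔ ∀ x, x ∈ V ↔ σ x ∈ V := Iff.rfl

/-- The groups `G' i`. -/
def GG (E : ℕ → IntermediateField ℂ Ω) : ℕ → Subgroup (Ω ≃ₐ[k] Ω)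
  | 0 => ⊤
  | i + 1 => GG E i ⊓ fixG (E i)

theorem mem_GG_succ {E : ℕ → IntermediateField ℂ Ω} {i : ℕ} {σ : Ω ≃ₐ[k] Ω} :
    σ ∈ GG E (i + 1) ↔ σ ∈ GG E i ∧ ∀ x ∈ E i, σ x = x := Iff.rfl

end General

/-- A power prime to the exponent generates. -/
theorem mem_of_pow_mem {P : Type} [Group P] (H : Subgroup P) {x : P} {p m : ℕ} (hp : p.Prime)
    (hx : x ^ p = 1) (hm : ¬ p ∣ m) (h : x ^ m ∈ H) : x ∈ H := by
  have h1 : m.Coprime (orderOf x) :=
    Nat.Coprime.coprime_dvd_right (orderOf_dvd_of_pow_eq_one hx)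
      ((Nat.Prime.coprime_iff_not_dvd hp).2 hm).symm
  obtain ⟨u, hu⟩ := exists_pow_eq_self_of_coprime h1
  rw [← hu]
  exact H.pow_mem h u

/-- The relative index of a normal subgroup in a smaller group. -/
theorem relIndex_dvd {G : Type} [Group G] (S S' B : Subgroup G) (hB : B ≤ S)
    (hn : ∀ g ∈ S, ∀ h ∈ S', g * h * g⁻¹ ∈ S') : S'.relIndex B ∣ S'.relIndex S := by
  have : (S'.subgroupOf S).Normal := by
    refine ⟨fun h hh g => ?_⟩
    rw [Subgroup.mem_subgroupOf] at hh ⊢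
    exact hn g g.2 h hh
  have h1 := Subgroup.relIndex_dvd_index_of_normal (S'.subgroupOf S) (B.subgroupOf S)
  rwa [Subgroup.relIndex_subgroupOf hB] at h1

end XMain

open XMain in
theorem prf_Main (h1 : StStep) (h2 : StChain) (h3 : StNC) (h4 : StDec) : StMain := by
  intro n p r K d hn hp hS
  have : Fact p.Prime := ⟨hp⟩
  obtain ⟨V, hh, ρ, ξ, hV, hhinj, hξ, hρs, hroot, hρ, hdec⟩ := h4 n p
  -- the fields contain the base
  have hbase : ∀ i ≤ r, ∀ a : K0 n, algebraMap (K0 n) (Om n) a ∈ K i := by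
    intro i
    induction i with
    | zero =>
      intro _ a
      rw [hS.zero]
      exact (⊥ : IntermediateField (K0 n) (Om n)).algebraMap_mem a
    | succ i ih =>
      intro hi a
      exact hS.le i hi (ih (Nat.le_of_succ_le hi) a)
  have hE : ∀ i, ∃ E : IntermediateField ℂ (Om n), i < r →
      Algebra.trdeg ℂ E ≤ d i ∧
      (∀ σ : Om n ≃ₐ[K0 n] Om n, (∀ x ∈ K i, σ x = x) → (∀ x ∈ E, σ x ∈ E) ∧
        ((∀ x ∈ E, σ x = x) → ∀ x ∈ K (i + 1), σ x = x)) ∧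
      monOrd (K i) (K (i + 1)) ≠ 0 ∧ ∀ S S' : Subgroup (Om n ≃ₐ[K0 n] Om n),
        (∀ σ, σ ∈ S ↔ ∀ x ∈ K i, σ x = x) →
        (∀ σ, σ ∈ S' ↔ (∀ x ∈ K i, σ x = x) ∧ ∀ x ∈ E, σ x = x) →
        S'.relIndex S = monOrd (K i) (K (i + 1)) := by
    intro i
    by_cases hi : i < r
    · obtain ⟨E, hE1, hE2, hE3, hE4⟩ :=
        h3 (K0 n) (Om n) (K i) (K (i + 1)) (d i) (hbase i hi.le) (hS.le i hi) (hS.ed i hi)
      exact ⟨E, fun _ => ⟨hE1, hE2, hE3, hE4⟩⟩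
    · exact ⟨⊥, fun h => absurd h hi⟩
  choose E hE using hE
  -- `G' i` is the identity on `K i`
  have hfix : ∀ i ≤ r, ∀ σ ∈ (GG E i : Subgroup (Om n ≃ₐ[K0 n] Om n)), ∀ x ∈ K i, σ x = x := by
    intro i
    induction i with
    | zero =>
      intro _ σ _ x hx
      rw [hS.zero] at hx
      obtain ⟨a, rfl⟩ := IntermediateField.mem_bot.1
        (show x ∈ (⊥ : IntermediateField (K0 n) (Om n)) from hx)
      exact σ.commutes a
    | succ i ih =>
      intro hi σ hσ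
      rw [mem_GG_succ] at hσ
      exact ((hE i hi).2.1 σ (ih (Nat.le_of_succ_le hi) σ hσ.1)).2 hσ.2
  have hstab : ∀ i < r, ∀ σ ∈ (GG E i : Subgroup (Om n ≃ₐ[K0 n] Om n)), ∀ x ∈ E i, σ x ∈ E i :=
    fun i hi σ hσ => ((hE i hi).2.1 σ (hfix i hi.le σ hσ)).1
  -- conjugation
  have hconj : ∀ i < r, ∀ g ∈ (GG E i : Subgroup (Om n ≃ₐ[K0 n] Om n)),
      ∀ h : Om n ≃ₐ[K0 n] Om n, (∀ x ∈ E i, h x = x) → ∀ x ∈ E i, (g * h * g⁻¹) x = x := by
    intro i hi g hg h hh' x hx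
    have h5 : g⁻¹ x ∈ E i := hstab i hi g⁻¹ (inv_mem hg) x hx
    rw [AlgEquiv.mul_apply, AlgEquiv.mul_apply, hh' _ h5, ← AlgEquiv.mul_apply, mul_inv_cancel,
      AlgEquiv.one_apply]
  have hnorm : ∀ i < r, ∀ g ∈ (GG E i : Subgroup (Om n ≃ₐ[K0 n] Om n)),
      ∀ h ∈ (GG E (i + 1) : Subgroup (Om n ≃ₐ[K0 n] Om n)), g * h * g⁻¹ ∈ GG E (i + 1) := by
    intro i hi g hg h hh'
    rw [mem_GG_succ] at hh' ⊢
    exact ⟨mul_mem (mul_mem hg hh'.1) (inv_mem hg), hconj i hi g hg h hh'.2⟩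
  -- the groups `P i`
  have hPr : (GG E r : Subgroup (Om n ≃ₐ[K0 n] Om n)).map ρ = ⊥ := by
    refine h2 n r hn (fun i => (GG E i : Subgroup (Om n ≃ₐ[K0 n] Om n)).map ρ) ?_ ?_ ?_
    · change (⊤ : Subgroup (Om n ≃ₐ[K0 n] Om n)).map ρ = ⊤
      rw [← MonoidHom.range_eq_map, MonoidHom.range_eq_top.2 hρs]
    · intro i hi
      refine ⟨Subgroup.map_mono inf_le_left, ?_⟩
      rintro g ⟨g', hg', rfl⟩ h ⟨h', hh', rfl⟩
      exact ⟨g' * h' * g'⁻¹, hnorm i hi g' hg' h' hh', by simp⟩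
    · obtain ⟨y, hy, hy0⟩ := hS.root
      obtain ⟨a, rfl⟩ := (hroot y).1 hy0
      refine ⟨a, ?_⟩
      rintro σ ⟨σ', hσ', rfl⟩
      apply hξ
      rw [← hρ]
      exact hfix r le_rfl σ' hσ' _ hy
  -- the groups `B i`
  set B : ℕ → Subgroup (Om n ≃ₐ[K0 n] Om n) := fun i =>
    GG E i ⊓ (decG V ⊓ hh.range.comap ρ) with hBdef
  have hmemB : ∀ i σ, σ ∈ B i ↔ σ ∈ (GG E i : Subgroup (Om n ≃ₐ[K0 n] Om n)) ∧
      (∀ x, x ∈ V ↔ σ x ∈ V) ∧ ρ σ ∈ hh.range := by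
    intro i σ
    exact Iff.rfl
  have hBsucc : ∀ i σ, σ ∈ B (i + 1) ↔ σ ∈ B i ∧ ∀ x ∈ E i, σ x = x := by
    intro i σ
    rw [hmemB, hmemB, mem_GG_succ]
    tauto
  have hBp : ∀ i, ∀ σ ∈ B i, ρ σ ^ p = 1 := by
    intro i σ hσ
    obtain ⟨v, hv⟩ := ((hmemB i σ).1 hσ).2.2
    rw [← hv, ← map_pow]
    have h5 : v ^ p = 1 := by
      apply Multiplicative.toAdd.injective
      rw [toAdd_pow, toAdd_one]
      funext b
      simp
    rw [h5, map_one]
  have hB0 : (B 0).map ρ = hh.range := by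
    apply le_antisymm
    · rintro _ ⟨σ, hσ, rfl⟩
      exact ((hmemB 0 σ).1 hσ).2.2
    · rintro _ ⟨v, rfl⟩
      obtain ⟨σ, hσ1, hσ2⟩ := hdec v
      exact ⟨σ, (hmemB 0 σ).2 ⟨Subgroup.mem_top σ, hσ1, ⟨v, hσ2.symm⟩⟩, hσ2⟩
  have hc0 : Nat.card ((B 0).map ρ) = p ^ (n / p) := by
    rw [hB0, Nat.card_congr (MonoidHom.ofInjective hhinj).toEquiv.symm]
    simp [Nat.card_eq_fintype_card, Fintype.card_multiplicative]
  have hBr : (B r).map ρ = ⊥ := by
    rw [eq_bot_iff, ← hPr]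
    exact Subgroup.map_mono inf_le_left
  -- one step
  have hstep : ∀ i < r, Nat.card ((B i).map ρ) ≤
      p ^ (if p ∣ monOrd (K i) (K (i + 1)) then d i else 0) * Nat.card ((B (i + 1)).map ρ) := by
    intro i hi
    obtain ⟨hE1, hE2, hE3, hE4⟩ := hE i hi
    have hBS : B i ≤ fixG (K i) := fun σ hσ =>
      hfix i hi.le σ ((hmemB i σ).1 hσ).1
    have hS1 : (fixG (K i) ⊓ fixG (E i) : Subgroup (Om n ≃ₐ[K0 n] Om n)).relIndex
        (fixG (K i)) = monOrd (K i) (K (i + 1)) :=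
      hE4 _ _ (fun σ => Iff.rfl) (fun σ => Iff.rfl)
    have hdvd : (B (i + 1)).relIndex (B i) ∣ monOrd (K i) (K (i + 1)) := by
      have h5 := relIndex_dvd (fixG (K i)) (fixG (K i) ⊓ fixG (E i)) (B i) hBS (by
        intro g hg h hh'
        refine ⟨(fixG (K i)).mul_mem ((fixG (K i)).mul_mem hg hh'.1)
          ((fixG (K i)).inv_mem hg), ?_⟩
        intro x hx
        have h6 : g⁻¹ x ∈ E i := (hE2 g⁻¹ (inv_mem hg)).1 x hx
        have h7 : h (g⁻¹ x) = g⁻¹ x := hh'.2 _ h6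
        rw [AlgEquiv.mul_apply, AlgEquiv.mul_apply, h7, ← AlgEquiv.mul_apply,
          mul_inv_cancel, AlgEquiv.one_apply])
      rw [hS1] at h5
      have h8 : B (i + 1) = (fixG (K i) ⊓ fixG (E i)) ⊓ B i := by
        ext σ
        rw [hBsucc]
        constructor
        · intro h
          exact ⟨⟨hBS h.1, h.2⟩, h.1⟩
        · intro h
          exact ⟨h.2, h.1.2⟩
      rw [h8, Subgroup.inf_relIndex_right]
      exact h5
    have hne : (B (i + 1)).relIndex (B i) ≠ 0 := fun h => hE3 (by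
      rw [h] at hdvd
      exact zero_dvd_iff.1 hdvd)
    split_ifs with hpd
    · exact h1 (K0 n) (Om n) V hV (E i) (d i) p hp hE1 (B i) (B (i + 1))
        (fun σ hσ => ((hmemB i σ).1 hσ).2.1)
        (fun σ hσ => hstab i hi σ ((hmemB i σ).1 hσ).1) (hBsucc i) hne _ ρ (hBp i)
    · rw [pow_zero, one_mul]
      have hpm : ¬ p ∣ (B (i + 1)).relIndex (B i) := fun h => hpd (h.trans hdvd)
      apply Subgroup.card_le_of_le
      rintro _ ⟨b, hb, rfl⟩
      refine mem_of_pow_mem _ hp (hBp i b hb) hpm ?_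
      rw [← map_pow]
      refine Subgroup.mem_map_of_mem ρ ?_
      have hnormal : ((B (i + 1)).subgroupOf (B i)).Normal := by
        refine ⟨fun h hh' g => ?_⟩
        rw [Subgroup.mem_subgroupOf] at hh' ⊢
        rw [hBsucc] at hh' ⊢
        refine ⟨(g * h * g⁻¹).2, ?_⟩
        exact hconj i hi g ((hmemB i g).1 g.2).1 h hh'.2
      have h9 := Subgroup.pow_index_mem ((B (i + 1)).subgroupOf (B i)) (⟨b, hb⟩ : B i)
      rw [Subgroup.mem_subgroupOf] at h9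
      exact h9
  -- induction
  have hind : ∀ j ≤ r, Nat.card ((B 0).map ρ) ≤
      p ^ (∑ i ∈ Finset.range j, if p ∣ monOrd (K i) (K (i + 1)) then d i else 0) *
        Nat.card ((B j).map ρ) := by
    intro j
    induction j with
    | zero => simp
    | succ j ih =>
      intro hj
      refine (ih (Nat.le_of_succ_le hj)).trans ?_
      rw [Finset.sum_range_succ, pow_add, mul_assoc]
      exact Nat.mul_le_mul_left _ (hstep j hj)
  have hfin := hind r le_rfl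
  rw [hc0, hBr, Subgroup.card_bot, mul_one] at hfin
  rw [Finset.sum_filter]
  exact (Nat.pow_le_pow_iff_right hp.one_lt).1 hfin

end

end Pool.Agent.Sextic
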