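import Pool.Agent.Work.MP_8e3fb2_ag.VT.Stmts

/-! Item [8e3fb2 VT Step] (helper37): one step of the tower. -/

set_option autoImplicit false

namespace Pool.Agent.Sextic

open IntermediateField

noncomputable section

namespace XStep

section
variable {Ω : Type} [Field Ω] [Algebra ℂ Ω]

/-- The units in `E`. -/
def Eu (E : IntermediateField ℂ Ω) : Subgroup Ωˣ where
  carrier := {y | (y : Ω) ∈ E}
  mul_mem' := by
    intro a b ha hb
    have h : ((a * b : Ωˣ) : Ω) = (a : Ω) * (b : Ω) := Units.val_mul a b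
    change ((a * b : Ωˣ) : Ω) ∈ E
    rw [h]
    exact E.mul_mem ha hb
  one_mem' := by
    change ((1 : Ωˣ) : Ω) ∈ E
    rw [Units.val_one]
    exact E.one_mem
  inv_mem' := by
    intro a ha
    change ((a⁻¹ : Ωˣ) : Ω) ∈ E
    rw [Units.val_inv_eq_inv_val]
    exact E.inv_mem ha

theorem mem_Eu (E : IntermediateField ℂ Ω) (y : Ωˣ) : y ∈ Eu E ↔ (y : Ω) ∈ E := Iff.rfl

theorem const_zero (V : ValuationSubring Ω) (hV : ResC V) (c : ℂ)
    (h : algebraMap ℂ Ω c ∈ V.nonunits) : c = 0 := by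
  by_contra hc
  have h1 : V.valuation (algebraMap ℂ Ω c) < 1 := (V.mem_nonunits_iff).1 h
  have h2 : V.valuation (algebraMap ℂ Ω c⁻¹) ≤ 1 := (V.valuation_le_one_iff _).2 (hV.1 c⁻¹)
  have h3 : V.valuation (algebraMap ℂ Ω c) * V.valuation (algebraMap ℂ Ω c⁻¹) = 1 := by
    rw [← map_mul, ← map_mul, mul_inv_cancel₀ hc, map_one, map_one]
  have h4 : V.valuation (algebraMap ℂ Ω c) * V.valuation (algebraMap ℂ Ω c⁻¹) < 1 :=
    mul_lt_one_of_lt_of_le h1 h2
  exact absurd h3 (ne_of_lt h4)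

end

end XStep

open XStep in
theorem prf_Step (h1 : StRank) (h2 : StChi) : StStep := by
  intro k Ω _ _ _ _ _ _ _ V hV E d p hp htr B B' hBV hBE hB' hidx P _ _ ρ hρ
  obtain ⟨y, hy, hrep⟩ := h1 Ω V hV E d p hp htr
  obtain ⟨χ, hχ1, hχ2, hχ3⟩ := h2 k Ω V hV B hBV
  have hp0 : p ≠ 0 := hp.ne_zero
  have : NeZero p := ⟨hp0⟩
  let ψ : B →* (Eu E →* ℂˣ) :=
    { toFun := fun σ => (χ σ).comp (Eu E).subtype
      map_one' := by
        rw [map_one]
        rfl
      map_mul' := by
        intro a b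
        rw [map_mul]
        rfl }
  have hψ : ∀ (σ : B) (x : Eu E), ψ σ x = χ σ (x : Ωˣ) := fun σ x => rfl
  have hker : ∀ σ : B, ψ σ = 1 ↔ (σ : Ω ≃ₐ[k] Ω) ∈ B' := by
    intro σ
    constructor
    · intro h
      refine (hB' σ.1).2 ⟨σ.2, ?_⟩
      refine hχ3 σ E (hBE σ.1 σ.2) ?_
      intro y hyE
      have h5 := DFunLike.congr_fun h (⟨y, hyE⟩ : Eu E)
      exact h5
    · intro h
      have h3 := ((hB' σ.1).1 h).2
      refine MonoidHom.ext fun x => ?_
      have h4 := hχ1 σ (x : Ωˣ)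
      have h5 : σ.1 ((x : Ωˣ) : Ω) = ((x : Ωˣ) : Ω) := h3 _ x.2
      have h6 : ((x : Ωˣ) : Ω) ≠ 0 := Units.ne_zero _
      rw [h5, div_self h6] at h4
      have h7 : algebraMap ℂ Ω (1 - (χ σ (x : Ωˣ) : ℂ)) ∈ V.nonunits := by
        rw [map_sub, map_one]
        exact h4
      have h8 := const_zero V hV _ h7
      have h9 : (χ σ (x : Ωˣ) : ℂ) = 1 := (sub_eq_zero.1 h8).symm
      exact Units.ext h9
  have hkerEq : ψ.ker = B'.subgroupOf B := by
    ext σ
    rw [MonoidHom.mem_ker, hker, Subgroup.mem_subgroupOf]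
  have hcardQ : Nat.card ψ.range ≠ 0 := by
    rw [← Subgroup.index_ker, hkerEq]
    exact hidx
  have hfinQ : Finite ψ.range := Nat.finite_of_card_ne_zero hcardQ
  let yu : Fin d → Eu E := fun i => ⟨Units.mk0 (y i) (hy i).2, (hy i).1⟩
  let pw : ψ.range →* ψ.range := powMonoidHom p
  have hpw : ∀ q : ψ.range, pw q = q ^ p := fun q => rfl
  -- values of an element killed by `p`
  have hval : ∀ q : ψ.range, q ^ p = 1 → ∀ q' : ψ.range, q' ^ p = 1 →
      (∀ i, q.1 (yu i) = q'.1 (yu i)) → q = q' := by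
    have main : ∀ q : ψ.range, q ^ p = 1 → ∀ (x u w : Eu E) (m : Fin d → ℤ),
        V.valuation ((u : Ωˣ) : Ω) = 1 → x = u * w ^ p * ∏ i, yu i ^ m i →
        q.1 x = ∏ i, q.1 (yu i) ^ m i := by
      intro q hq x u w m hu hx
      obtain ⟨σ, hσ⟩ := q.2
      have e1 : q.1 u = 1 := by
        rw [← hσ, hψ]
        exact hχ2 σ (u : Ωˣ) hu
      have e2 : q.1 w ^ p = 1 := by
        have h5 : (q.1 ^ p) w = 1 := by
          have h6 : (q ^ p).1 = 1 := by rw [hq]; rfl
          have h7 : (q.1 ^ p) = (1 : Eu E →* ℂˣ) := h6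
          rw [h7]; rfl
        exact h5
      rw [hx, map_mul, map_mul, map_pow, e1, e2, one_mul, one_mul, map_prod]
      exact Finset.prod_congr rfl fun i _ => map_zpow _ _ _
    intro q hq q' hq' hqq
    apply Subtype.ext
    refine MonoidHom.ext fun x => ?_
    obtain ⟨m, w, u, hw, hu, hu1, hx⟩ := hrep ((x : Ωˣ) : Ω) x.2 (Units.ne_zero _)
    have hu0 : u ≠ 0 := by
      intro h
      rw [h, map_zero] at hu1
      exact zero_ne_one hu1
    have hw0 : w ≠ 0 := by
      intro h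
      rw [h, zero_pow hp0, mul_zero, zero_mul] at hx
      exact Units.ne_zero _ hx
    have hx' : x = (⟨Units.mk0 u hu0, hu⟩ : Eu E) * (⟨Units.mk0 w hw0, hw⟩ : Eu E) ^ p *
        ∏ i, yu i ^ m i := by
      apply Subtype.ext
      apply Units.ext
      have e3 : (((∏ i, yu i ^ m i : Eu E) : Ωˣ) : Ω) = ∏ i, y i ^ m i := by
        rw [Subgroup.val_finsetProd, Units.coe_prod]
        refine Finset.prod_congr rfl fun i _ => ?_
        rw [Subgroup.coe_zpow, Units.val_zpow_eq_zpow_val]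
        rfl
      rw [Subgroup.coe_mul, Units.val_mul, e3, Subgroup.coe_mul, Units.val_mul, Subgroup.coe_pow,
        Units.val_pow_eq_pow_val]
      exact hx
    rw [main q hq x _ _ m hu1 hx', main q' hq' x _ _ m hu1 hx']
    exact Finset.prod_congr rfl fun i _ => by rw [hqq i]
  have hcardker : Nat.card pw.ker ≤ p ^ d := by
    let F : pw.ker → (Fin d → rootsOfUnity p ℂ) := fun q i =>
      ⟨q.1.1 (yu i), by
        rw [mem_rootsOfUnity]
        have h5 : q.1 ^ p = 1 := (MonoidHom.mem_ker).1 q.2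
        have h6 : (q.1 ^ p).1 = 1 := by rw [h5]; rfl
        have h7 : (q.1.1 ^ p) = (1 : Eu E →* ℂˣ) := h6
        have h8 : (q.1.1 ^ p) (yu i) = 1 := by rw [h7]; rfl
        exact h8⟩
    have hF : Function.Injective F := by
      intro q q' hqq
      apply Subtype.ext
      refine hval q.1 ((MonoidHom.mem_ker).1 q.2) q'.1 ((MonoidHom.mem_ker).1 q'.2) ?_
      intro i
      have h5 := congrFun hqq i
      exact congrArg Subtype.val h5
    have h5 := Nat.card_le_card_of_injective F hF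
    refine h5.trans ?_
    rw [Nat.card_fun, Nat.card_eq_fintype_card (α := Fin d), Fintype.card_fin]
    exact Nat.pow_le_pow_left (card_rootsOfUnity ℂ p) d
  have hindex : pw.range.index ≤ p ^ d := by
    have e1 : Nat.card pw.range * pw.range.index = Nat.card ψ.range := Subgroup.card_mul_index _
    have e2 : Nat.card pw.ker * pw.ker.index = Nat.card ψ.range := Subgroup.card_mul_index _
    rw [Subgroup.index_ker] at e2
    have e3 : 0 < Nat.card pw.range := Nat.card_pos
    have e4 : pw.range.index = Nat.card pw.ker := by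
      apply Nat.eq_of_mul_eq_mul_left e3
      rw [e1, ← e2, mul_comm]
    rw [e4]
    exact hcardker
  have hindex0 : pw.range.index ≠ 0 := by
    intro h
    have e1 : Nat.card pw.range * pw.range.index = Nat.card ψ.range := Subgroup.card_mul_index _
    rw [h, mul_zero] at e1
    exact hcardQ e1.symm
  let T : Subgroup B := pw.range.comap ψ.rangeRestrict
  have hT : T.index = pw.range.index :=
    Subgroup.index_comap_of_surjective _ ψ.rangeRestrict_surjective
  have hTρ : ∀ t ∈ T, ρ (t : Ω ≃ₐ[k] Ω) ∈ B'.map ρ := by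
    intro t ht
    obtain ⟨q, hq⟩ := (Subgroup.mem_comap.1 ht : ψ.rangeRestrict t ∈ pw.range)
    obtain ⟨b, hb⟩ := q.2
    have h5 : ψ b ^ p = ψ t := by
      have h6 := congrArg Subtype.val hq
      have h7 : (pw q).1 = q.1 ^ p := rfl
      rw [h7, ← hb] at h6
      exact h6
    have h8 : ψ (t * (b ^ p)⁻¹) = 1 := by
      rw [map_mul, map_inv, map_pow, h5, mul_inv_cancel]
    have h9 := (hker _).1 h8
    refine ⟨_, h9, ?_⟩
    have h10 : ρ ((b : Ω ≃ₐ[k] Ω)) ^ p = 1 := hρ b.1 b.2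
    have h11 : ((t * (b ^ p)⁻¹ : B) : Ω ≃ₐ[k] Ω) = (t : Ω ≃ₐ[k] Ω) * ((b : Ω ≃ₐ[k] Ω) ^ p)⁻¹ := rfl
    rw [h11, map_mul, map_inv, map_pow, h10, inv_one, mul_one]
  let f : B →* P := ρ.comp B.subtype
  have hf : f.range = B.map ρ := by
    ext x
    constructor
    · rintro ⟨b, rfl⟩
      exact ⟨b.1, b.2, rfl⟩
    · rintro ⟨b, hb, rfl⟩
      exact ⟨⟨b, hb⟩, rfl⟩
  let TT : Subgroup f.range := T.map f.rangeRestrict
  have hdvd : TT.index ∣ T.index := Subgroup.index_map_dvd _ f.rangeRestrict_surjective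
  have hle : TT.index ≤ p ^ d := by
    have h5 : TT.index ≤ T.index := Nat.le_of_dvd (Nat.pos_of_ne_zero (by rw [hT]; exact hindex0)) hdvd
    rw [hT] at h5
    exact h5.trans hindex
  have hTT : Nat.card TT ≤ Nat.card (B'.map ρ) := by
    have key : ∀ x : TT, ((x : f.range) : P) ∈ B'.map ρ := by
      rintro ⟨x, t, ht, rfl⟩
      exact hTρ t ht
    let g : TT → (B'.map ρ) := fun x => ⟨((x : f.range) : P), key x⟩
    refine Nat.card_le_card_of_injective g ?_
    intro x x' hxx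
    have h5 : ((x : f.range) : P) = ((x' : f.range) : P) :=
      congrArg (fun z : (B'.map ρ : Subgroup P) => (z : P)) hxx
    exact Subtype.ext (Subtype.ext h5)
  have hfin : Nat.card TT * TT.index = Nat.card f.range := Subgroup.card_mul_index _
  rw [← hf, ← hfin, mul_comm]
  exact Nat.mul_le_mul hle hTT

end

end Pool.Agent.Sextic
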