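import Pool.Agent.Work.MP_8e3fb2_ag.VT.I_Main
import Pool.Agent.Work.MP_8e3fb2_ag.VT.I_Chain

/-!
# Layered formulas for a root of the general polynomial

The version of item Main in which the functions of one layer are adjoined in parallel.
-/

set_option autoImplicit false

namespace Pool.Agent.Sextic

open IntermediateField

noncomputable section

/-- A formula for a root of the general polynomial of degree `n`, arranged in `r` layers. Layer `i`
adjoins to `K i` in parallel the algebraic functions `L i 0, ..., L i (m i - 1)`, which are finite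
extensions of `K i` of essential dimension at most `d i j`, and `K (i + 1)` is the field generated by
all of them. The field `K r` contains a root of the general polynomial. -/
structure Layered (n r : ℕ) (m : ℕ → ℕ) (K : ℕ → IntermediateField ℂ (Om n))
    (L : ℕ → ℕ → IntermediateField ℂ (Om n)) (d : ℕ → ℕ → ℕ) : Prop where
  zero : K 0 = base n
  le : ∀ i < r, ∀ j < m i, K i ≤ L i j
  ed : ∀ i < r, ∀ j < m i, EdLE (K i) (L i j) (d i j)
  succ : ∀ i < r, K (i + 1) = K i ⊔ ⨆ j : Fin (m i), L i j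
  root : ∃ y ∈ K r, Polynomial.aeval y (gen n) = 0

/-- The theorem for layered formulas. -/
def StLayered : Prop := ∀ (n r : ℕ) (m : ℕ → ℕ) (K : ℕ → IntermediateField ℂ (Om n))
    (L : ℕ → ℕ → IntermediateField ℂ (Om n)) (d : ℕ → ℕ → ℕ), 5 ≤ n → Layered n r m K L d →
  ∃ i₀ < r, ∃ j₀ < m i₀, n.factorial / 2 ∣ monOrd (K i₀) (L i₀ j₀) ∧
    ∀ p : ℕ, p.Prime → n / p ≤ d i₀ j₀ + ∑ i ∈ Finset.range i₀,
      ∑ j ∈ (Finset.range (m i)).filter (fun j => p ∣ monOrd (K i) (L i j)), d i j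

namespace XLay

open XMain XChain

section General

variable {k Ω : Type} [Field k] [Field Ω] [Algebra k Ω] [Algebra ℂ Ω]

/-- The groups inside a layer. -/
def lay (E : ℕ → IntermediateField ℂ Ω) (S : Subgroup (Ω ≃ₐ[k] Ω)) : ℕ → Subgroup (Ω ≃ₐ[k] Ω)
  | 0 => S
  | t + 1 => lay E S t ⊓ fixG (E t)

theorem mem_lay {E : ℕ → IntermediateField ℂ Ω} {S : Subgroup (Ω ≃ₐ[k] Ω)} {t : ℕ}
    {σ : Ω ≃ₐ[k] Ω} : σ ∈ lay E S t ↔ σ ∈ S ∧ ∀ j < t, ∀ x ∈ E j, σ x = x := by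
  induction t with
  | zero => simp [lay]
  | succ t ih =>
    rw [lay, Subgroup.mem_inf, ih, mem_fixG]
    constructor
    · rintro ⟨⟨h1, h2⟩, h3⟩
      refine ⟨h1, fun j hj => ?_⟩
      rcases Nat.lt_succ_iff_lt_or_eq.1 hj with h | rfl
      · exact h2 j h
      · exact h3
    · rintro ⟨h1, h2⟩
      exact ⟨⟨h1, fun j hj => h2 j (Nat.lt_succ_of_lt hj)⟩, h2 t (Nat.lt_succ_self t)⟩

/-- The groups of the layers. -/
def LG (m : ℕ → ℕ) (E : ℕ → ℕ → IntermediateField ℂ Ω) : ℕ → Subgroup (Ω ≃ₐ[k] Ω)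
  | 0 => ⊤
  | i + 1 => lay (E i) (LG m E i) (m i)

/-- The points fixed by an automorphism. -/
theorem fix_sup (σ : Ω ≃ₐ[k] Ω) (K : IntermediateField ℂ Ω) {ι : Type}
    (L : ι → IntermediateField ℂ Ω) (hK : ∀ x ∈ K, σ x = x)
    (hL : ∀ j, ∀ x ∈ L j, σ x = x) : ∀ x ∈ K ⊔ ⨆ j, L j, σ x = x := by
  let M : IntermediateField ℂ Ω :=
    { carrier := {x | σ x = x}
      mul_mem' := by
        intro a b ha hb
        rw [Set.mem_ofPred_eq] at ha hb ⊢
        rw [map_mul, ha, hb]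
      one_mem' := map_one σ
      add_mem' := by
        intro a b ha hb
        rw [Set.mem_ofPred_eq] at ha hb ⊢
        rw [map_add, ha, hb]
      zero_mem' := map_zero σ
      algebraMap_mem' := fun c => hK _ (K.algebraMap_mem c)
      inv_mem' := by
        intro a ha
        rw [Set.mem_ofPred_eq] at ha ⊢
        rw [map_inv₀, ha] }
  have h : K ⊔ ⨆ j, L j ≤ M := sup_le hK (iSup_le hL)
  exact fun x hx => h hx

end General

/-- One function. -/
theorem one_step (h1 : StStep) {n p : ℕ} (hp : p.Prime) (V : ValuationSubring (Om n))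
    (hV : ResC V) (ρ : (Om n ≃ₐ[K0 n] Om n) →* Equiv.Perm (Fin n))
    (R : Subgroup (Equiv.Perm (Fin n))) (hR : ∀ π ∈ R, π ^ p = 1)
    (K E : IntermediateField ℂ (Om n)) (M d : ℕ) (hE1 : Algebra.trdeg ℂ E ≤ d)
    (hE2 : ∀ σ : Om n ≃ₐ[K0 n] Om n, (∀ x ∈ K, σ x = x) → ∀ x ∈ E, σ x ∈ E) (hM : M ≠ 0)
    (hE4 : (fixG K ⊓ fixG E : Subgroup (Om n ≃ₐ[K0 n] Om n)).relIndex (fixG K) = M)
    (S : Subgroup (Om n ≃ₐ[K0 n] Om n)) (hS : S ≤ fixG K) :
    Nat.card ((S ⊓ (decG V ⊓ R.comap ρ)).map ρ) ≤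
      p ^ (if p ∣ M then d else 0) * Nat.card (((S ⊓ fixG E) ⊓ (decG V ⊓ R.comap ρ)).map ρ) := by
  set B := S ⊓ (decG V ⊓ R.comap ρ) with hB
  set B' := (S ⊓ fixG E) ⊓ (decG V ⊓ R.comap ρ) with hB'
  have hBS : B ≤ fixG K := inf_le_left.trans hS
  have hmem : ∀ σ, σ ∈ B' ↔ σ ∈ B ∧ ∀ x ∈ E, σ x = x := by
    intro σ
    constructor
    · intro h
      exact ⟨⟨h.1.1, h.2⟩, h.1.2⟩
    · intro h
      exact ⟨⟨h.1.1, h.2⟩, h.1.2⟩
  have hBp : ∀ σ ∈ B, ρ σ ^ p = 1 := fun σ hσ => hR _ hσ.2.2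
  have hconj : ∀ g ∈ (fixG K : Subgroup (Om n ≃ₐ[K0 n] Om n)), ∀ h : Om n ≃ₐ[K0 n] Om n,
      (∀ x ∈ E, h x = x) → ∀ x ∈ E, (g * h * g⁻¹) x = x := by
    intro g hg h hh' x hx
    have h5 : g⁻¹ x ∈ E := hE2 g⁻¹ (inv_mem hg) x hx
    rw [AlgEquiv.mul_apply, AlgEquiv.mul_apply, hh' _ h5, ← AlgEquiv.mul_apply, mul_inv_cancel,
      AlgEquiv.one_apply]
  have hdvd : B'.relIndex B ∣ M := by
    have h5 := relIndex_dvd (fixG K) (fixG K ⊓ fixG E) B hBS (by
      intro g hg h hh'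
      exact ⟨(fixG K).mul_mem ((fixG K).mul_mem hg hh'.1) ((fixG K).inv_mem hg),
        hconj g hg h hh'.2⟩)
    rw [hE4] at h5
    have h8 : B' = (fixG K ⊓ fixG E) ⊓ B := by
      ext σ
      rw [hmem]
      constructor
      · intro h
        exact ⟨⟨hBS h.1, h.2⟩, h.1⟩
      · intro h
        exact ⟨h.2, h.1.2⟩
    rw [h8, Subgroup.inf_relIndex_right]
    exact h5
  have hne : B'.relIndex B ≠ 0 := fun h => hM (by
    rw [h] at hdvd
    exact zero_dvd_iff.1 hdvd)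
  split_ifs with hpd
  · exact h1 (K0 n) (Om n) V hV E d p hp hE1 B B' (fun σ hσ => hσ.2.1)
      (fun σ hσ => hE2 σ (hBS hσ)) hmem hne _ ρ hBp
  · rw [pow_zero, one_mul]
    have hpm : ¬ p ∣ B'.relIndex B := fun h => hpd (h.trans hdvd)
    apply Subgroup.card_le_of_le
    rintro _ ⟨b, hb, rfl⟩
    refine mem_of_pow_mem _ hp (hBp b hb) hpm ?_
    rw [← map_pow]
    refine Subgroup.mem_map_of_mem ρ ?_
    have hnormal : (B'.subgroupOf B).Normal := by
      refine ⟨fun h hh' g => ?_⟩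
      rw [Subgroup.mem_subgroupOf] at hh' ⊢
      rw [hmem] at hh' ⊢
      exact ⟨(g * h * g⁻¹).2, hconj g (hBS g.2) h hh'.2⟩
    have h9 := Subgroup.pow_index_mem (B'.subgroupOf B) (⟨b, hb⟩ : B)
    rw [Subgroup.mem_subgroupOf] at h9
    exact h9

/-- Two subgroups above the alternating group do not commute. -/
theorem not_commute {n : ℕ} (hn : 5 ≤ n) {P Q R : Subgroup (Equiv.Perm (Fin n))}
    (hP : alternatingGroup (Fin n) ≤ P) (hQ : alternatingGroup (Fin n) ≤ Q)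
    (hR : ∀ g ∈ P, ∀ h ∈ Q, g * h * g⁻¹ * h⁻¹ ∈ R) : R ≠ ⊥ := by
  intro h0
  have hcomm : ∀ g ∈ alternatingGroup (Fin n), ∀ h ∈ alternatingGroup (Fin n), g * h = h * g := by
    intro g hg h hh
    have h1 := hR g (hP hg) h (hQ hh)
    rw [h0, Subgroup.mem_bot] at h1
    rw [mul_inv_eq_one, mul_inv_eq_iff_eq_mul] at h1
    exact h1
  have h2 : commutator (alternatingGroup (Fin n)) = ⊥ := by
    rw [commutator_def, Subgroup.commutator_eq_bot_iff_le_centralizer]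
    intro x _
    rw [Subgroup.mem_centralizer_iff]
    intro y _
    exact Subtype.ext (hcomm _ y.2 _ x.2)
  rw [commutator_alternatingGroup_eq_top (by rw [Nat.card_fin]; exact hn)] at h2
  obtain ⟨σ, hσ, hσa⟩ := alt_no_fix hn ⟨0, by omega⟩
  have h3 : (⟨σ, hσ⟩ : alternatingGroup (Fin n)) ∈ (⊥ : Subgroup (alternatingGroup (Fin n))) := by
    rw [← h2]
    exact Subgroup.mem_top _
  rw [Subgroup.mem_bot] at h3
  apply hσa
  have h4 : σ = 1 := congrArg Subtype.val h3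
  rw [h4]
  rfl

end XLay

open XMain XChain XLay in
theorem prf_Layered (h1 : StStep) (h3 : StNC) (h4 : StDec) : StLayered := by
  intro n r m K L d hn hS
  -- the fields contain the base
  have hle : ∀ i < r, K i ≤ K (i + 1) := by
    intro i hi
    rw [hS.succ i hi]
    exact le_sup_left
  have hbase : ∀ i ≤ r, ∀ a : K0 n, algebraMap (K0 n) (Om n) a ∈ K i := by
    intro i
    induction i with
    | zero =>
      intro _ a
      rw [hS.zero]
      exact (⊥ : IntermediateField (K0 n) (Om n)).algebraMap_mem a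
    | succ i ih =>
      intro hi a
      exact hle i hi (ih (Nat.le_of_succ_le hi) a)
  have hE : ∀ i j, ∃ E : IntermediateField ℂ (Om n), i < r → j < m i →
      Algebra.trdeg ℂ E ≤ d i j ∧
      (∀ σ : Om n ≃ₐ[K0 n] Om n, (∀ x ∈ K i, σ x = x) → (∀ x ∈ E, σ x ∈ E) ∧
        ((∀ x ∈ E, σ x = x) → ∀ x ∈ L i j, σ x = x)) ∧
      monOrd (K i) (L i j) ≠ 0 ∧ ∀ S S' : Subgroup (Om n ≃ₐ[K0 n] Om n),
        (∀ σ, σ ∈ S ↔ ∀ x ∈ K i, σ x = x) →
        (∀ σ, σ ∈ S' ↔ (∀ x ∈ K i, σ x = x) ∧ ∀ x ∈ E, σ x = x) →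
        S'.relIndex S = monOrd (K i) (L i j) := by
    intro i j
    by_cases hi : i < r ∧ j < m i
    · obtain ⟨E, hE1, hE2, hE3, hE4⟩ :=
        h3 (K0 n) (Om n) (K i) (L i j) (d i j) (hbase i hi.1.le) (hS.le i hi.1 j hi.2)
          (hS.ed i hi.1 j hi.2)
      exact ⟨E, fun _ _ => ⟨hE1, hE2, hE3, hE4⟩⟩
    · exact ⟨⊥, fun h h' => absurd ⟨h, h'⟩ hi⟩
  choose E hE using hE
  -- the group of a layer is the identity on `K i`
  have hfix : ∀ i ≤ r, (LG m E i : Subgroup (Om n ≃ₐ[K0 n] Om n)) ≤ fixG (K i) := by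
    intro i
    induction i with
    | zero =>
      intro _ σ _ x hx
      rw [hS.zero] at hx
      obtain ⟨a, rfl⟩ := IntermediateField.mem_bot.1
        (show x ∈ (⊥ : IntermediateField (K0 n) (Om n)) from hx)
      exact σ.commutes a
    | succ i ih =>
      intro hi σ hσ
      rw [LG, mem_lay] at hσ
      have h5 := ih (Nat.le_of_succ_le hi) hσ.1
      rw [hS.succ i hi]
      exact fix_sup σ (K i) _ h5 fun j => ((hE i j hi j.2).2.1 σ h5).2 (hσ.2 j j.2)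
  have hlayfix : ∀ i < r, ∀ t, (lay (E i) (LG m E i) t : Subgroup (Om n ≃ₐ[K0 n] Om n)) ≤
      fixG (K i) := fun i hi t σ hσ => hfix i hi.le (mem_lay.1 hσ).1
  -- conjugation
  have hconj : ∀ i < r, ∀ j < m i, ∀ g ∈ (fixG (K i) : Subgroup (Om n ≃ₐ[K0 n] Om n)),
      ∀ h : Om n ≃ₐ[K0 n] Om n, (∀ x ∈ E i j, h x = x) → ∀ x ∈ E i j, (g * h * g⁻¹) x = x := by
    intro i hi j hj g hg h hh' x hx
    have h5 : g⁻¹ x ∈ E i j := ((hE i j hi hj).2.1 g⁻¹ (inv_mem hg)).1 x hx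
    rw [AlgEquiv.mul_apply, AlgEquiv.mul_apply, hh' _ h5, ← AlgEquiv.mul_apply, mul_inv_cancel,
      AlgEquiv.one_apply]
  have hnorm : ∀ i < r, ∀ t ≤ m i, ∀ g ∈ (LG m E i : Subgroup (Om n ≃ₐ[K0 n] Om n)),
      ∀ h ∈ (lay (E i) (LG m E i) t : Subgroup (Om n ≃ₐ[K0 n] Om n)),
        g * h * g⁻¹ ∈ lay (E i) (LG m E i) t := by
    intro i hi t ht g hg h hh'
    rw [mem_lay] at hh' ⊢
    exact ⟨mul_mem (mul_mem hg hh'.1) (inv_mem hg),
      fun j hj => hconj i hi j (hj.trans_le ht) g (hfix i hi.le hg) h (hh'.2 j hj)⟩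
  -- the permutation representation for one prime
  obtain ⟨-, -, ρ, ξ, -, -, hξ, hρs, hroot, hρ, -⟩ := @h4 n 2 ⟨Nat.prime_two⟩
  have htriv : ∀ S : Subgroup (Om n ≃ₐ[K0 n] Om n), S.map ρ = ⊥ ↔
      ∀ σ ∈ S, ∀ y, Polynomial.aeval y (gen n) = 0 → σ y = y := by
    intro S
    rw [Subgroup.map_eq_bot_iff]
    constructor
    · intro h σ hσ y hy
      obtain ⟨a, rfl⟩ := (hroot y).1 hy
      rw [hρ, show ρ σ = 1 from h hσ]
      rfl
    · intro h σ hσ
      rw [MonoidHom.mem_ker]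
      ext a : 1
      apply hξ
      rw [← hρ]
      exact h σ hσ _ ((hroot _).2 ⟨a, rfl⟩)
  -- the image of the group of a layer
  have hchain : ∀ i ≤ r, (LG m E i : Subgroup (Om n ≃ₐ[K0 n] Om n)).map ρ = ⊤ ∨
      (LG m E i : Subgroup (Om n ≃ₐ[K0 n] Om n)).map ρ = alternatingGroup (Fin n) ∨
      (LG m E i : Subgroup (Om n ≃ₐ[K0 n] Om n)).map ρ = ⊥ := by
    intro i
    induction i with
    | zero =>
      intro _
      left
      change (⊤ : Subgroup (Om n ≃ₐ[K0 n] Om n)).map ρ = ⊤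
      rw [← MonoidHom.range_eq_map, MonoidHom.range_eq_top.2 hρs]
    | succ i ih =>
      intro hi
      refine step hn (ih (Nat.le_of_succ_le hi)) (Subgroup.map_mono ?_) ?_
      · intro σ hσ
        rw [LG, mem_lay] at hσ
        exact hσ.1
      · rintro g ⟨g', hg', rfl⟩ h ⟨h', hh', rfl⟩
        exact ⟨g' * h' * g'⁻¹, hnorm i hi (m i) le_rfl g' hg' h' hh', by simp⟩
  have hPr : (LG m E r : Subgroup (Om n ≃ₐ[K0 n] Om n)).map ρ = ⊥ := by
    obtain ⟨y, hy, hy0⟩ := hS.root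
    obtain ⟨a, rfl⟩ := (hroot y).1 hy0
    have ha : ∀ σ ∈ (LG m E r : Subgroup (Om n ≃ₐ[K0 n] Om n)).map ρ, σ a = a := by
      rintro σ ⟨σ', hσ', rfl⟩
      apply hξ
      rw [← hρ]
      exact hfix r le_rfl hσ' _ hy
    obtain ⟨σ, hσ, hσa⟩ := alt_no_fix hn a
    rcases hchain r le_rfl with h | h | h
    · exact absurd (ha σ (by rw [h]; exact Subgroup.mem_top σ)) hσa
    · exact absurd (ha σ (by rw [h]; exact hσ)) hσa
    · exact h
  have hP0 : (LG m E 0 : Subgroup (Om n ≃ₐ[K0 n] Om n)).map ρ ≠ ⊥ := by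
    intro h
    obtain ⟨σ, hσ, hσa⟩ := alt_no_fix hn ⟨0, by omega⟩
    have h5 : σ ∈ (LG m E 0 : Subgroup (Om n ≃ₐ[K0 n] Om n)).map ρ := by
      change σ ∈ (⊤ : Subgroup (Om n ≃ₐ[K0 n] Om n)).map ρ
      rw [← MonoidHom.range_eq_map, MonoidHom.range_eq_top.2 hρs]
      exact Subgroup.mem_top σ
    rw [h, Subgroup.mem_bot] at h5
    exact hσa (by rw [h5]; rfl)
  -- the decisive layer
  obtain ⟨i₀, hi₀, hlast, hnext⟩ : ∃ i₀ < r,
      (LG m E i₀ : Subgroup (Om n ≃ₐ[K0 n] Om n)).map ρ ≠ ⊥ ∧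
      (LG m E (i₀ + 1) : Subgroup (Om n ≃ₐ[K0 n] Om n)).map ρ = ⊥ := by
    classical
    have hex : ∃ i, i ≤ r ∧ (LG m E i : Subgroup (Om n ≃ₐ[K0 n] Om n)).map ρ = ⊥ :=
      ⟨r, le_rfl, hPr⟩
    have h5 := Nat.find_spec hex
    have h6 : Nat.find hex ≠ 0 := by
      intro h
      rw [h] at h5
      exact hP0 h5.2
    obtain ⟨i₀, hi₀⟩ := Nat.exists_eq_succ_of_ne_zero h6
    rw [hi₀] at h5
    refine ⟨i₀, h5.1, ?_, h5.2⟩
    intro h7
    exact Nat.find_min hex (m := i₀) (by rw [hi₀]; exact Nat.lt_succ_self _)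
      ⟨(Nat.le_succ _).trans h5.1, h7⟩
  have hbig : alternatingGroup (Fin n) ≤ (LG m E i₀ : Subgroup (Om n ≃ₐ[K0 n] Om n)).map ρ := by
    rcases hchain i₀ hi₀.le with h | h | h
    · rw [h]; exact le_top
    · rw [h]
    · exact absurd h hlast
  -- the decisive function
  obtain ⟨j₀, hj₀, hdec0⟩ : ∃ j₀ < m i₀,
      (LG m E i₀ ⊓ fixG (E i₀ j₀) : Subgroup (Om n ≃ₐ[K0 n] Om n)).map ρ = ⊥ := by
    by_contra hcon
    push Not at hcon
    have hall : ∀ t ≤ m i₀, alternatingGroup (Fin n) ≤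
        (lay (E i₀) (LG m E i₀) t : Subgroup (Om n ≃ₐ[K0 n] Om n)).map ρ := by
      intro t
      induction t with
      | zero => intro _; exact hbig
      | succ t ih =>
        intro ht
        have hU : alternatingGroup (Fin n) ≤
            (LG m E i₀ ⊓ fixG (E i₀ t) : Subgroup (Om n ≃ₐ[K0 n] Om n)).map ρ := by
          rcases step hn (hchain i₀ hi₀.le)
            (Subgroup.map_mono (f := ρ) (inf_le_left : LG m E i₀ ⊓ fixG (E i₀ t) ≤ LG m E i₀)) (by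
              rintro g ⟨g', hg', rfl⟩ h ⟨h', hh', rfl⟩
              refine ⟨g' * h' * g'⁻¹, ⟨mul_mem (mul_mem hg' hh'.1) ((LG m E i₀).inv_mem hg'), ?_⟩,
                by simp⟩
              exact hconj i₀ hi₀ t ht g' (hfix i₀ hi₀.le hg') h' hh'.2) with h | h | h
          · rw [h]; exact le_top
          · rw [h]
          · exact absurd h (hcon t ht)
        have hne : (lay (E i₀) (LG m E i₀) (t + 1) : Subgroup (Om n ≃ₐ[K0 n] Om n)).map ρ ≠ ⊥ := by
          refine not_commute hn (ih (Nat.le_of_succ_le ht)) hU ?_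
          rintro g ⟨g', hg', rfl⟩ h ⟨h', hh', rfl⟩
          have hg'' := (mem_lay.1 hg').1
          refine ⟨g' * h' * g'⁻¹ * h'⁻¹, ⟨?_, ?_⟩, by simp⟩
          · have h6 := hnorm i₀ hi₀ t (Nat.le_of_succ_le ht) h' hh'.1 _ (inv_mem hg')
            have h7 : g' * h' * g'⁻¹ * h'⁻¹ = g' * (h' * g'⁻¹ * h'⁻¹) := by group
            rw [h7]
            exact mul_mem hg' h6
          · exact mul_mem (show g' * h' * g'⁻¹ ∈ fixG (E i₀ t) from
              hconj i₀ hi₀ t ht g' (hfix i₀ hi₀.le hg'') h' hh'.2) ((fixG (E i₀ t)).inv_mem hh'.2)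
        rcases step hn (hchain i₀ hi₀.le)
          (Q := (lay (E i₀) (LG m E i₀) (t + 1) : Subgroup (Om n ≃ₐ[K0 n] Om n)).map ρ)
          (Subgroup.map_mono (fun σ hσ => (mem_lay.1 hσ).1)) (by
            rintro g ⟨g', hg', rfl⟩ h ⟨h', hh', rfl⟩
            exact ⟨g' * h' * g'⁻¹, hnorm i₀ hi₀ (t + 1) ht g' hg' h' hh', by simp⟩) with h | h | h
        · rw [h]; exact le_top
        · rw [h]
        · exact absurd h hne
    have h5 := hall (m i₀) le_rfl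
    rw [show lay (E i₀) (LG m E i₀) (m i₀) = LG m E (i₀ + 1) from rfl, hnext] at h5
    obtain ⟨σ, hσ, hσa⟩ := alt_no_fix hn ⟨0, by omega⟩
    have h6 := h5 hσ
    rw [Subgroup.mem_bot] at h6
    exact hσa (by rw [h6]; rfl)
  refine ⟨i₀, hi₀, j₀, hj₀, ?_, ?_⟩
  · -- the order of the monodromy group
    obtain ⟨hE1, hE2, hE3, hE4⟩ := hE i₀ j₀ hi₀ hj₀
    have hS1 : (fixG (K i₀) ⊓ fixG (E i₀ j₀) : Subgroup (Om n ≃ₐ[K0 n] Om n)).relIndex
        (fixG (K i₀)) = monOrd (K i₀) (L i₀ j₀) :=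
      hE4 _ _ (fun σ => Iff.rfl) (fun σ => Iff.rfl)
    have h5 := relIndex_dvd (fixG (K i₀)) (fixG (K i₀) ⊓ fixG (E i₀ j₀))
      (LG m E i₀ : Subgroup (Om n ≃ₐ[K0 n] Om n)) (hfix i₀ hi₀.le) (by
        intro g hg h hh'
        exact ⟨(fixG (K i₀)).mul_mem ((fixG (K i₀)).mul_mem hg hh'.1) ((fixG (K i₀)).inv_mem hg),
          hconj i₀ hi₀ j₀ hj₀ g hg h hh'.2⟩)
    rw [hS1] at h5
    have h6 : (fixG (K i₀) ⊓ fixG (E i₀ j₀) : Subgroup (Om n ≃ₐ[K0 n] Om n)) ⊓ LG m E i₀ ≤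
        ρ.ker := by
      intro σ hσ
      have h7 : ρ σ ∈ (LG m E i₀ ⊓ fixG (E i₀ j₀) : Subgroup (Om n ≃ₐ[K0 n] Om n)).map ρ :=
        Subgroup.mem_map_of_mem ρ ⟨hσ.2, hσ.1.2⟩
      rw [hdec0, Subgroup.mem_bot] at h7
      exact h7
    have h8 : Nat.card ((LG m E i₀ : Subgroup (Om n ≃ₐ[K0 n] Om n)).map ρ) ∣
        monOrd (K i₀) (L i₀ j₀) := by
      rw [← Subgroup.relIndex_ker]
      refine dvd_trans (Subgroup.relIndex_dvd_of_le_left _ h6) ?_
      rw [Subgroup.inf_relIndex_right]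
      exact h5
    refine dvd_trans ?_ h8
    have h9 := Subgroup.card_dvd_of_le hbig
    have : Nontrivial (Fin n) := Fin.nontrivial_iff_two_le.mpr (by omega)
    rw [nat_card_alternatingGroup, Nat.card_fin] at h9
    exact h9
  -- counting
  intro p hp
  have : Fact p.Prime := ⟨hp⟩
  obtain ⟨V, hh, ρ', ξ', hV, hhinj, hξ', hρs', hroot', hρ', hdec'⟩ := h4 n p
  have hRp : ∀ π ∈ hh.range, π ^ p = 1 := by
    rintro _ ⟨v, rfl⟩
    rw [← map_pow]
    have h5 : v ^ p = 1 := by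
      apply Multiplicative.toAdd.injective
      rw [toAdd_pow, toAdd_one]
      funext b
      simp
    rw [h5, map_one]
  have hstep : ∀ i < r, ∀ j < m i, ∀ S : Subgroup (Om n ≃ₐ[K0 n] Om n), S ≤ fixG (K i) →
      Nat.card ((S ⊓ (decG V ⊓ hh.range.comap ρ')).map ρ') ≤
        p ^ (if p ∣ monOrd (K i) (L i j) then d i j else 0) *
          Nat.card (((S ⊓ fixG (E i j)) ⊓ (decG V ⊓ hh.range.comap ρ')).map ρ') := by
    intro i hi j hj S hSK
    obtain ⟨hE1, hE2, hE3, hE4⟩ := hE i j hi hj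
    exact one_step h1 hp V hV ρ' hh.range hRp (K i) (E i j) _ (d i j) hE1
      (fun σ hσ => (hE2 σ hσ).1) hE3 (hE4 _ _ (fun σ => Iff.rfl) (fun σ => Iff.rfl)) S hSK
  have hB0 : ((⊤ : Subgroup (Om n ≃ₐ[K0 n] Om n)) ⊓ (decG V ⊓ hh.range.comap ρ')).map ρ' =
      hh.range := by
    apply le_antisymm
    · rintro _ ⟨σ, hσ, rfl⟩
      exact hσ.2.2
    · rintro _ ⟨v, rfl⟩
      obtain ⟨σ, hσ1, hσ2⟩ := hdec' v
      exact ⟨σ, ⟨Subgroup.mem_top σ, hσ1, ⟨v, hσ2.symm⟩⟩, hσ2⟩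
  have hc0 : Nat.card (((⊤ : Subgroup (Om n ≃ₐ[K0 n] Om n)) ⊓
      (decG V ⊓ hh.range.comap ρ')).map ρ') = p ^ (n / p) := by
    rw [hB0, Nat.card_congr (MonoidHom.ofInjective hhinj).toEquiv.symm]
    simp [Nat.card_eq_fintype_card, Fintype.card_multiplicative]
  -- one layer
  have hlayer : ∀ i < r, ∀ t ≤ m i,
      Nat.card ((LG m E i ⊓ (decG V ⊓ hh.range.comap ρ')).map ρ') ≤
        p ^ (∑ j ∈ Finset.range t, if p ∣ monOrd (K i) (L i j) then d i j else 0) *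
          Nat.card ((lay (E i) (LG m E i) t ⊓ (decG V ⊓ hh.range.comap ρ')).map ρ') := by
    intro i hi t
    induction t with
    | zero => intro _; simp [lay]
    | succ t ih =>
      intro ht
      refine (ih (Nat.le_of_succ_le ht)).trans ?_
      rw [Finset.sum_range_succ, pow_add, mul_assoc]
      exact Nat.mul_le_mul_left _ (hstep i hi t ht _ (hlayfix i hi t))
  have hind : ∀ i ≤ r, p ^ (n / p) ≤
      p ^ (∑ i' ∈ Finset.range i, ∑ j ∈ Finset.range (m i'),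
        if p ∣ monOrd (K i') (L i' j) then d i' j else 0) *
          Nat.card ((LG m E i ⊓ (decG V ⊓ hh.range.comap ρ')).map ρ') := by
    intro i
    induction i with
    | zero =>
      intro _
      rw [Finset.sum_range_zero, pow_zero, one_mul, ← hc0]
      rfl
    | succ i ih =>
      intro hi
      refine (ih (Nat.le_of_succ_le hi)).trans ?_
      rw [Finset.sum_range_succ, pow_add, mul_assoc]
      exact Nat.mul_le_mul_left _ (hlayer i hi (m i) le_rfl)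
  have hlast' := hstep i₀ hi₀ j₀ hj₀ (LG m E i₀) (hfix i₀ hi₀.le)
  have hbot : (((LG m E i₀ ⊓ fixG (E i₀ j₀)) ⊓ (decG V ⊓ hh.range.comap ρ')).map ρ') = ⊥ := by
    rw [Subgroup.map_eq_bot_iff]
    intro σ hσ
    rw [MonoidHom.mem_ker]
    ext a : 1
    apply hξ'
    rw [← hρ']
    exact (htriv _).1 hdec0 σ hσ.1 _ ((hroot' _).2 ⟨a, rfl⟩)
  rw [hbot, Subgroup.card_bot, mul_one] at hlast'
  have hfin : p ^ (n / p) ≤ p ^ ((∑ i' ∈ Finset.range i₀, ∑ j ∈ Finset.range (m i'),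
        if p ∣ monOrd (K i') (L i' j) then d i' j else 0) + d i₀ j₀) := by
    refine (hind i₀ hi₀.le).trans ?_
    rw [pow_add]
    refine Nat.mul_le_mul_left _ (hlast'.trans (Nat.pow_le_pow_right hp.pos ?_))
    split_ifs
    · exact le_rfl
    · exact Nat.zero_le _
  have hfin' := (Nat.pow_le_pow_iff_right hp.one_lt).1 hfin
  rw [add_comm] at hfin'
  refine hfin'.trans (le_of_eq ?_)
  congr 1
  refine Finset.sum_congr rfl fun i _ => ?_
  rw [Finset.sum_filter]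

end

end Pool.Agent.Sextic
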